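import Pool.Agent.MUG.Dim
import Pool.Agent.MUG.JK
import Pool.Agent.MUG.CFN

/-!
# CHEV2, row A1: the matrix lemma (helper29)

`Z` a braided finite tensor category, `X` an object, `Irr Z = I ∪ J` with: for `T ∈ I` all
composition factors of `T ⊗ X` are in `I`. Then for `T ∈ J` all composition factors of `T ⊗ X`
are in `J`.
-/

open CategoryTheory MonoidalCategory Limits Abelian

universe w v u

namespace Pool.Agent.MCH

open Pool.Agent.MUG

section Proj

variable {k : Type*} [Field k] {C : Type u} [Category.{v} C] [Abelian C] [Linear k C]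
  [MonoidalCategory C] [MonoidalPreadditive C] [MonoidalLinear k C] [RigidCategory C]

/-- A retract of a projective object is projective. -/
theorem projective_of_retr {P P' : C} [Projective P] (s : P' ⟶ P) (r : P ⟶ P')
    (h : s ≫ r = 𝟙 P') : Projective P' where
  factors {E X} f e he :=
    ⟨s ≫ Projective.factorThru (r ≫ f) e, by
      rw [Category.assoc, Projective.factorThru_comp, ← Category.assoc, h, Category.id_comp]⟩

/-- Additive functions on projective objects: `φ(P) = ∑ dim Hom(P, T_j) φ(P_j)`. -/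
theorem additive_proj [IsAlgClosed k] (hC : FinCat k C) (F : Fam C) (φ : C → ℝ)
    (hadd : ∀ {S : ShortComplex C}, S.ShortExact → φ S.X₂ = φ S.X₁ + φ S.X₃)
    (hz : ∀ {X : C}, IsZero X → φ X = 0) (P : C) (hP : Projective P) :
    φ P = ∑ j, (Module.finrank k (P ⟶ F.T j) : ℝ) * φ (F.P j) := by
  induction hn : F.len k P using Nat.strong_induction_on generalizing P with
  | _ n ih =>
    by_cases hX : IsZero P
    · rw [hz hX]
      refine (Finset.sum_eq_zero fun j _ => ?_).symm
      have : Subsingleton (P ⟶ F.T j) := ⟨fun f g => hX.eq_of_src f g⟩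
      rw [Module.finrank_zero_of_subsingleton, Nat.cast_zero, zero_mul]
    · obtain ⟨U, p, hU, hp⟩ := (F.exists_simple_quot hC P).resolve_left hX
      obtain ⟨j, ⟨g⟩⟩ := F.all U hU
      let p' : P ⟶ F.T j := p ≫ g.hom
      have hp' : Epi p' := epi_comp _ _
      have hcj := F.cov j
      have hPj := hcj.proj
      have hej := hcj.epi
      let a : F.P j ⟶ P := Projective.factorThru (F.e j) p'
      have ha : a ≫ p' = F.e j := Projective.factorThru_comp _ _
      let b : P ⟶ F.P j := Projective.factorThru p' (F.e j)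
      have hb : b ≫ F.e j = p' := Projective.factorThru_comp _ _
      have hab : IsIso (a ≫ b) := hcj.iso (a ≫ b) (by rw [Category.assoc, hb, ha])
      have har : a ≫ b ≫ inv (a ≫ b) = 𝟙 _ := by
        rw [← Category.assoc, IsIso.hom_inv_id]
      have hma : Mono a := mono_of_mono_fac har
      have hses := Fam.ses_mono a
      let s := ShortComplex.Splitting.ofExactOfRetraction
        (ShortComplex.mk a (cokernel.π a) (cokernel.condition a)) hses.exact
        (b ≫ inv (a ≫ b)) har inferInstance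
      have hs : s.s ≫ cokernel.π a = 𝟙 _ := s.s_g
      have hP' : Projective (cokernel a) := projective_of_retr s.s (cokernel.π a) hs
      have hlen := F.len_add hC hses
      have h2 : 0 < F.len k (F.P j) := by
        refine F.len_pos hC fun h0 => ?_
        have := F.simple j
        have h3 : F.e j = 0 := h0.eq_of_src _ _
        have h4 : 𝟙 (F.T j) = 0 := by
          rw [← cancel_epi (F.e j), h3]
          simp
        exact id_nonzero _ h4
      simp only at hlen
      have ih' := ih (F.len k (cokernel a)) (by omega) (cokernel a) hP' rfl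
      have hA : φ P = φ (F.P j) + φ (cokernel a) := hadd hses
      rw [hA, ih']
      have hH : ∀ i, (Module.finrank k (P ⟶ F.T i) : ℝ) =
          (if j = i then 1 else 0) + (Module.finrank k (cokernel a ⟶ F.T i) : ℝ) := by
        intro i
        have h5 : Module.finrank k (P ⟶ F.T i) = Module.finrank k (F.P j ⟶ F.T i) +
            Module.finrank k (cokernel a ⟶ F.T i) := by
          have hpr : Projective (ShortComplex.mk a (cokernel.π a) (cokernel.condition a)).X₃ := hP'
          exact finrank_hom_shortExact' hC.hom_finite hses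
        have h6 : Module.finrank k (F.P j ⟶ F.T i) = if j = i then 1 else 0 :=
          F.m_simple hC j i
        rw [h5, h6]
        push_cast
        rfl
      simp only [hH, add_mul, Finset.sum_add_distrib, ite_mul, one_mul, zero_mul]
      rw [Finset.sum_ite_eq Finset.univ j (fun i => φ (F.P i)), if_pos (Finset.mem_univ j)]

end Proj

section A1

variable {k : Type*} [Field k] {C : Type u} [Category.{v} C] [Abelian C] [Linear k C]
  [MonoidalCategory C] [MonoidalPreadditive C] [MonoidalLinear k C] [RigidCategory C]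

/-- The right adjoint form of multiplicities. -/
theorem m_tensor_ldual (F : Fam C) (i : Fin F.n) (Y X : C) :
    F.m k i (Y ⊗ X) = Module.finrank k ((F.P i ⊗ (ᘁX)) ⟶ Y) := by
  rw [Fam.m, (trLin (k := k) (F.P i) (ᘁX) X Y).finrank_eq]

/-- Row A1, matrix form. -/
theorem matrix_lemma [IsAlgClosed k] [BraidedCategory C] (hC : IsFinite k C) (F : Fam C) (X : C)
    (I : Fin F.n → Prop) (h : ∀ i j, I j → ¬ I i → F.m k i (F.T j ⊗ X) = 0) :
    ∀ i j, ¬ I j → I i → F.m k i (F.T j ⊗ X) = 0 := by
  classical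
  obtain ⟨d, hd⟩ := exists_dimFun hC
  have hC' := hC.finCat
  have hT : ∀ i, 0 < d (F.T i) := fun i => by
    have := F.simple i
    exact hd.pos (Simple.not_isZero _)
  have hv : ∀ i, 0 < d (F.P i) := fun i => by
    refine hd.pos fun h0 => ?_
    have := F.simple i
    have := (F.cov i).epi
    have h3 : F.e i = 0 := h0.eq_of_src _ _
    have h4 : 𝟙 (F.T i) = 0 := by
      rw [← cancel_epi (F.e i), h3]
      simp
    exact id_nonzero _ h4
  -- first eigenvector relation
  have e1 : ∀ j, ∑ i, (F.m k i (F.T j ⊗ X) : ℝ) * d (F.T i) = d X * d (F.T j) := by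
    intro j
    rw [← hd.sum F hC', hd.mul, mul_comm]
  -- second eigenvector relation
  have e2 : ∀ i, ∑ j, (F.m k i (F.T j ⊗ X) : ℝ) * d (F.P j) = d X * d (F.P i) := by
    intro i
    have := (F.cov i).proj
    have hP := projective_tensorRight (F.P i) (ᘁX)
    have h1 := additive_proj hC' F d (fun hS => hd.add hS) (fun hX => hd.zero hC' hX) _ hP
    rw [hd.mul, hd.ldual hC] at h1
    rw [mul_comm, h1]
    exact Finset.sum_congr rfl fun j _ => by rw [m_tensor_ldual]
  -- the two sums over `J`
  let J : Finset (Fin F.n) := Finset.univ.filter fun i => ¬ I i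
  let A : Fin F.n → Fin F.n → ℝ := fun i j => (F.m k i (F.T j ⊗ X) : ℝ)
  have hA : ∀ i j, 0 ≤ A i j := fun i j => Nat.cast_nonneg _
  have hJ : ∀ f : Fin F.n → ℝ, ∑ i, f i = ∑ i ∈ J, f i +
      ∑ i ∈ Finset.univ.filter (fun i => I i), f i := by
    intro f
    rw [add_comm]
    exact (Finset.sum_filter_add_sum_filter_not Finset.univ (fun i => I i) f).symm
  -- S = sum over J x J of d_i A_ij v_j
  have s1 : d X * ∑ i ∈ J, d (F.T i) * d (F.P i) =
      ∑ i ∈ J, ∑ j ∈ J, d (F.T i) * A i j * d (F.P j) := by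
    rw [Finset.mul_sum]
    refine Finset.sum_congr rfl fun i hi => ?_
    have hi' : ¬ I i := (Finset.mem_filter.1 hi).2
    have h1 := e2 i
    rw [hJ] at h1
    have h2 : ∑ j ∈ Finset.univ.filter (fun i => I i),
        (F.m k i (F.T j ⊗ X) : ℝ) * d (F.P j) = 0 := by
      refine Finset.sum_eq_zero fun j hj => ?_
      rw [h i j (Finset.mem_filter.1 hj).2 hi', Nat.cast_zero, zero_mul]
    rw [h2, add_zero] at h1
    calc d X * (d (F.T i) * d (F.P i)) = d (F.T i) * (d X * d (F.P i)) := by ring
      _ = d (F.T i) * ∑ j ∈ J, (F.m k i (F.T j ⊗ X) : ℝ) * d (F.P j) := by rw [h1]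
      _ = _ := by
        rw [Finset.mul_sum]
        exact Finset.sum_congr rfl fun j _ => by ring
  have s2 : d X * ∑ i ∈ J, d (F.T i) * d (F.P i) =
      ∑ i ∈ J, ∑ j ∈ J, d (F.T i) * A i j * d (F.P j) +
      ∑ i ∈ Finset.univ.filter (fun i => I i), ∑ j ∈ J, d (F.T i) * A i j * d (F.P j) := by
    have h1 : ∑ i ∈ J, ∑ j ∈ J, d (F.T i) * A i j * d (F.P j) +
        ∑ i ∈ Finset.univ.filter (fun i => I i), ∑ j ∈ J, d (F.T i) * A i j * d (F.P j) =
        ∑ i, ∑ j ∈ J, d (F.T i) * A i j * d (F.P j) := (hJ _).symm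
    rw [h1, Finset.sum_comm, Finset.mul_sum]
    refine Finset.sum_congr rfl fun j _ => ?_
    calc d X * (d (F.T j) * d (F.P j)) = (d X * d (F.T j)) * d (F.P j) := by ring
      _ = (∑ i, (F.m k i (F.T j ⊗ X) : ℝ) * d (F.T i)) * d (F.P j) := by rw [e1]
      _ = _ := by
        rw [Finset.sum_mul]
        exact Finset.sum_congr rfl fun i _ => by ring
  have s3 : ∑ i ∈ Finset.univ.filter (fun i => I i), ∑ j ∈ J,
      d (F.T i) * A i j * d (F.P j) = 0 := by linarith
  intro i j hj hi
  have h0 : ∀ i j, 0 ≤ d (F.T i) * A i j * d (F.P j) := fun i j =>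
    mul_nonneg (mul_nonneg (hT i).le (hA i j)) (hv j).le
  have h1 := (Finset.sum_eq_zero_iff_of_nonneg
    (fun i _ => Finset.sum_nonneg fun j _ => h0 i j)).1 s3 i
    (Finset.mem_filter.2 ⟨Finset.mem_univ i, hi⟩)
  have h2 := (Finset.sum_eq_zero_iff_of_nonneg (fun j _ => h0 i j)).1 h1 j
    (Finset.mem_filter.2 ⟨Finset.mem_univ j, hj⟩)
  have h3 : A i j = 0 := by
    rcases mul_eq_zero.1 h2 with h3 | h3
    · rcases mul_eq_zero.1 h3 with h4 | h4
      · exact absurd h4 (hT i).ne'
      · exact h4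
    · exact absurd h3 (hv j).ne'
  exact_mod_cast (show (F.m k i (F.T j ⊗ X) : ℝ) = 0 from h3)

/-- All simple subquotients of `N` are outside `Tr`. -/
def Pur (Tr : ObjectProperty C) (N : C) : Prop :=
  ∀ S : C, Simple S → IsSubquotient S N → ¬ Tr S

theorem isSubquotient_iso_left {S S' N : C} (e : S ≅ S') (h : IsSubquotient S N) :
    IsSubquotient S' N := by
  obtain ⟨K, i, p, hi, hp⟩ := h
  exact ⟨K, i, p ≫ e.hom, hi, epi_comp _ _⟩

/-- Row A1: objects without composition factors in `Tr` are stable under `- ⊗ X`. -/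
theorem pur_tensor_right [IsAlgClosed k] [BraidedCategory C] (hC : IsFinite k C)
    (Tr : ObjectProperty C) (hiso : ∀ {X Y : C}, (X ≅ Y) → Tr X → Tr Y) (X : C)
    (hX : ∀ T : C, Simple T → Tr T → ∀ S : C, Simple S → IsSubquotient S (T ⊗ X) → Tr S)
    (N : C) (hN : Pur Tr N) : Pur Tr (N ⊗ X) := by
  intro S hS hSN hTr
  have hC' := hC.finCat
  obtain ⟨F⟩ := exists_fam hC'
  obtain ⟨i, ⟨e⟩⟩ := F.all S hS
  have h1 : IsSubquotient (F.T i) (N ⊗ X) := isSubquotient_iso_left e hSN
  have h2 := (F.m_pos_iff (k := k) hC' i (N ⊗ X)).2 h1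
  have h3 := m_tensor' (k := k) F hC' N X i
  obtain ⟨j, hj1, hj2⟩ : ∃ j, 0 < F.m k j N ∧ 0 < F.m k i (F.T j ⊗ X) := by
    by_contra hne
    push Not at hne
    have h4 : (F.m k i (N ⊗ X) : ℝ) = 0 := by
      rw [h3]
      refine Finset.sum_eq_zero fun j _ => ?_
      by_cases h5 : 0 < F.m k j N
      · have h6 : F.m k i (F.T j ⊗ X) = 0 := Nat.le_zero.1 (hne j h5)
        rw [h6, Nat.cast_zero, mul_zero]
      · have h6 : F.m k j N = 0 := Nat.eq_zero_of_not_pos h5
        rw [h6, Nat.cast_zero, zero_mul]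
    have h5 : F.m k i (N ⊗ X) = 0 := by exact_mod_cast h4
    omega
  have hTi : Tr (F.T i) := hiso e hTr
  have hTj : ¬ Tr (F.T j) := hN _ (F.simple j) ((F.m_pos_iff (k := k) hC' j N).1 hj1)
  have h6 := matrix_lemma hC F X (fun i => Tr (F.T i)) (by
    intro i' j' hj' hi'
    by_contra h7
    exact hi' (hX _ (F.simple j') hj' _ (F.simple i')
      ((F.m_pos_iff (k := k) hC' i' (F.T j' ⊗ X)).1 (Nat.pos_of_ne_zero h7)))) i j hTj hTi
  omega

theorem pur_iso {Tr : ObjectProperty C} {N N' : C} (e : N ≅ N') (hN : Pur Tr N) :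
    Pur Tr N' := by
  intro S hS h
  obtain ⟨K, i, p, hi, hp⟩ := h
  exact hN S hS ⟨K, i ≫ e.inv, p, mono_comp _ _, hp⟩

theorem pur_tensor_left [IsAlgClosed k] [BraidedCategory C] (hC : IsFinite k C)
    (Tr : ObjectProperty C) (hiso : ∀ {X Y : C}, (X ≅ Y) → Tr X → Tr Y) (X : C)
    (hX : ∀ T : C, Simple T → Tr T → ∀ S : C, Simple S → IsSubquotient S (T ⊗ X) → Tr S)
    (N : C) (hN : Pur Tr N) : Pur Tr (X ⊗ N) :=
  pur_iso (β_ N X) (pur_tensor_right hC Tr hiso X hX N hN)

/-- The form for a tensor subcategory `Tr` and `X ∈ Tr` (row A1 for rows A2-A4). -/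
theorem pur_tensor [IsAlgClosed k] [BraidedCategory C] (hC : IsFinite k C)
    (Tr : ObjectProperty C) [TensorSub Tr] (X : C) (hX : Tr X) (N : C)
    (hN : ∀ S : C, Simple S → IsSubquotient S N → ¬ Tr S) :
    ∀ S : C, Simple S → IsSubquotient S (N ⊗ X) → ¬ Tr S :=
  pur_tensor_right hC Tr (fun e h => TensorSub.quot e.hom h) X (by
    rintro T _ hT S _ ⟨K, i, p, hi, hp⟩
    exact TensorSub.quot p (TensorSub.sub i (TensorSub.tensor hT hX))) N hN

end A1

section Center

variable {k : Type*} [Field k] {C : Type u} [Category.{v} C] [Abelian C] [Linear k C]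
  [MonoidalCategory C] [MonoidalPreadditive C] [MonoidalLinear k C] [RigidCategory C]
  [BraidedCategory C]

theorem jProp_simple_tensor (V : C) (T : Center C) (_ : Simple T) (hT : jProp T)
    (S : Center C) (_ : Simple S) (h : IsSubquotient S (T ⊗ jObj V)) : jProp S := by
  obtain ⟨K, i, p, hi, hp⟩ := h
  exact TensorSub.quot p (TensorSub.sub i (TensorSub.tensor hT (jProp_jObj V)))

/-- Row A1 for the center of `C`, with the trivial objects `jProp`. -/
theorem pur_jObj_left [IsAlgClosed k] (hC : IsFinite k C) (V : C) (N : Center C)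
    (hN : Pur jProp N) : Pur jProp (jObj V ⊗ N) :=
  pur_tensor_left (k := k) (center_isFinite_gen hC) jProp
    (fun e h => TensorSub.quot e.hom h) (jObj V) (fun T hT h S hS hs =>
      jProp_simple_tensor V T hT h S hS hs) N hN

theorem pur_jObj_right [IsAlgClosed k] (hC : IsFinite k C) (V : C) (N : Center C)
    (hN : Pur jProp N) : Pur jProp (N ⊗ jObj V) :=
  pur_tensor_right (k := k) (center_isFinite_gen hC) jProp
    (fun e h => TensorSub.quot e.hom h) (jObj V) (fun T hT h S hS hs =>
      jProp_simple_tensor V T hT h S hS hs) N hN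

/-- The form asked for by row A4. -/
theorem pur_left [IsAlgClosed k] (hC : IsFinite k C) (V : C) (N : Center C)
    (hN : ∀ S : Center C, Simple S → IsSubquotient S N → ¬ jProp S) :
    ∀ S : Center C, Simple S → IsSubquotient S (jObj V ⊗ N) → ¬ jProp S :=
  pur_jObj_left hC V N hN

end Center

end Pool.Agent.MCH
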