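import Pool.Agent.MUG.Mult
import Pool.Agent.MUG.Join

/-!
# Extensions reduce to extensions with the unit as subobject (helper27)
-/

set_option autoImplicit false
set_option linter.unusedSectionVars false

open CategoryTheory MonoidalCategory Limits Abelian

universe w v u

namespace Pool.Agent.MCH

open Pool.Agent.MUG

variable {Z : Type u} [Category.{v} Z] [Abelian Z] [MonoidalCategory Z] [MonoidalPreadditive Z]
  [RigidCategory Z]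

/-- The coevaluation of a nonzero object is a monomorphism. -/
theorem mono_coev [Simple (𝟙_ Z)] {A : Z} (hA : ¬ IsZero A) : Mono (η_ (ᘁA) A) := by
  refine mono_of_nonzero_from_simple ?_
  intro h0
  apply hA
  rw [IsZero.iff_id_eq_zero]
  have h2 := ExactPairing.coevaluation_evaluation (ᘁA) A
  rw [h0, MonoidalPreadditive.whiskerLeft_zero, zero_comp] at h2
  have h4 : 𝟙 A = (ρ_ A).inv ≫ ((ρ_ A).hom ≫ (λ_ A).inv) ≫ (λ_ A).hom := by simp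
  rw [h4, ← h2, zero_comp, comp_zero]

/-- An extension `0 → A → N → B → 0` with `A ≠ 0` embeds in `N' ⊗ A` where `N'` is an
extension of a quotient of `B ⊗ ᘁA` by the unit. -/
theorem ext_reduce [Simple (𝟙_ Z)] {S : ShortComplex Z} (hS : S.ShortExact)
    (hA : ¬ IsZero S.X₁) :
    ∃ (N' : Z) (r : 𝟙_ Z ⟶ N') (_ : Mono r) (q : S.X₃ ⊗ (ᘁS.X₁) ⟶ cokernel r)
      (j : S.X₂ ⟶ N' ⊗ S.X₁), Epi q ∧ Mono j := by
  have hf : Mono S.f := hS.mono_f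
  have hg : Epi S.g := hS.epi_g
  let A := S.X₁
  let i' : A ⊗ (ᘁA) ⟶ S.X₂ ⊗ (ᘁA) := S.f ▷ (ᘁA)
  let ev : A ⊗ (ᘁA) ⟶ 𝟙_ Z := ε_ (ᘁA) A
  have hmap : (S.map (tensorRight (ᘁA))).ShortExact := hS.map_of_exact (tensorRight (ᘁA))
  have hi' : Mono i' := hmap.mono_f
  have hmg : Epi (S.map (tensorRight (ᘁA))).g := hmap.epi_g
  have hz : i' ≫ (S.g ▷ (ᘁA)) = 0 := (S.map (tensorRight (ᘁA))).zero
  let N' : Z := pushout i' ev
  let l : S.X₂ ⊗ (ᘁA) ⟶ N' := pushout.inl i' ev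
  let r : 𝟙_ Z ⟶ N' := pushout.inr i' ev
  have hlr : i' ≫ l = ev ≫ r := pushout.condition
  have hr : Mono r := inferInstanceAs (Mono (pushout.inr i' ev))
  let q₀ : S.X₂ ⊗ (ᘁA) ⟶ cokernel r := l ≫ cokernel.π r
  have hq₀ : Epi q₀ := by
    rw [Preadditive.epi_iff_cancel_zero]
    intro W t ht
    have h1 : cokernel.π r ≫ t = 0 := by
      apply pushout.hom_ext
      · rw [comp_zero, ← ht, Category.assoc]
      · rw [comp_zero, ← Category.assoc]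
        change (r ≫ cokernel.π r) ≫ t = 0
        rw [cokernel.condition, zero_comp]
    rw [← cancel_epi (cokernel.π r), h1, comp_zero]
  have hzq : i' ≫ q₀ = 0 := by
    rw [← Category.assoc, hlr, Category.assoc, cokernel.condition, comp_zero]
  let q : S.X₃ ⊗ (ᘁA) ⟶ cokernel r := hmap.exact.desc q₀ hzq
  have hq : (S.g ▷ (ᘁA)) ≫ q = q₀ := hmap.exact.g_desc q₀ hzq
  have hqe : Epi q := by
    have : Epi ((S.g ▷ (ᘁA)) ≫ q) := by rw [hq]; infer_instance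
    exact epi_of_epi (S.g ▷ (ᘁA)) q
  -- the map to `B ⊗ ᘁA`
  let s : N' ⟶ S.X₃ ⊗ (ᘁA) := pushout.desc (S.g ▷ (ᘁA)) 0 (by rw [hz, comp_zero])
  have hs : l ≫ s = S.g ▷ (ᘁA) := pushout.inl_desc _ _ _
  let j : S.X₂ ⟶ N' ⊗ A :=
    (ρ_ S.X₂).inv ≫ (S.X₂ ◁ η_ (ᘁA) A) ≫ (α_ S.X₂ (ᘁA) A).inv ≫ (l ▷ A)
  have hη : Mono (η_ (ᘁA) A) := mono_coev hA
  have hmu : Mono ((ρ_ S.X₃).inv ≫ (S.X₃ ◁ η_ (ᘁA) A) ≫ (α_ S.X₃ (ᘁA) A).inv) := by
    have : Mono (S.X₃ ◁ η_ (ᘁA) A) := inferInstanceAs (Mono ((tensorLeft S.X₃).map _))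
    exact mono_comp _ _
  have hja : S.f ≫ j = (λ_ A).inv ≫ (r ▷ A) := by
    have h1 : S.f ≫ (ρ_ S.X₂).inv ≫ (S.X₂ ◁ η_ (ᘁA) A) ≫ (α_ S.X₂ (ᘁA) A).inv =
        (ρ_ A).inv ≫ (A ◁ η_ (ᘁA) A) ≫ (α_ A (ᘁA) A).inv ≫ (i' ▷ A) := by
      rw [← associator_inv_naturality_left, whisker_exchange_assoc,
        ← rightUnitor_inv_naturality_assoc]
    have h2 : (i' ▷ A) ≫ (l ▷ A) = (ev ▷ A) ≫ (r ▷ A) := by
      rw [← comp_whiskerRight, hlr, comp_whiskerRight]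
    have h3 : (A ◁ η_ (ᘁA) A) ≫ (α_ A (ᘁA) A).inv ≫ (ev ▷ A) =
        (ρ_ A).hom ≫ (λ_ A).inv := ExactPairing.coevaluation_evaluation (ᘁA) A
    calc S.f ≫ j = (S.f ≫ (ρ_ S.X₂).inv ≫ (S.X₂ ◁ η_ (ᘁA) A) ≫ (α_ S.X₂ (ᘁA) A).inv) ≫
          (l ▷ A) := by simp only [j, Category.assoc]
      _ = (ρ_ A).inv ≫ ((A ◁ η_ (ᘁA) A) ≫ (α_ A (ᘁA) A).inv ≫ (ev ▷ A)) ≫ (r ▷ A) := by
        rw [h1]
        simp only [Category.assoc]
        rw [h2]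
      _ = _ := by
        rw [h3, Category.assoc, Iso.inv_hom_id_assoc]
  have hjs : j ≫ (s ▷ A) = S.g ≫ ((ρ_ S.X₃).inv ≫ (S.X₃ ◁ η_ (ᘁA) A) ≫
      (α_ S.X₃ (ᘁA) A).inv) := by
    have h1 : (l ▷ A) ≫ (s ▷ A) = (S.g ▷ (ᘁA)) ▷ A := by
      rw [← comp_whiskerRight, hs]
    simp only [j, Category.assoc]
    rw [h1, ← associator_inv_naturality_left, whisker_exchange_assoc,
      ← rightUnitor_inv_naturality_assoc]
  have hra : Mono (r ▷ A) := inferInstanceAs (Mono ((tensorRight A).map r))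
  have hj : Mono j := by
    rw [Preadditive.mono_iff_cancel_zero]
    intro W t ht
    have h1 : t ≫ S.g = 0 := by
      rw [← cancel_mono ((ρ_ S.X₃).inv ≫ (S.X₃ ◁ η_ (ᘁA) A) ≫ (α_ S.X₃ (ᘁA) A).inv),
        Category.assoc, ← hjs, ← Category.assoc, ht, zero_comp, zero_comp]
    have h2 : hS.exact.lift t h1 ≫ S.f = t := hS.exact.lift_f t h1
    have h3 : hS.exact.lift t h1 ≫ ((λ_ A).inv ≫ (r ▷ A)) = 0 := by
      rw [← hja, ← Category.assoc, h2, ht]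
    have h4 : hS.exact.lift t h1 = 0 := by
      have : Mono ((λ_ A).inv ≫ (r ▷ A)) := mono_comp _ _
      rw [← cancel_mono ((λ_ A).inv ≫ (r ▷ A)), h3, zero_comp]
    rw [← h2, h4, zero_comp]
  exact ⟨N', r, hr, q, j, hqe, hj⟩

end Pool.Agent.MCH
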