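import Pool.Agent.MUG.Mult
import Pool.Agent.MUG.Join

/-!
# Pure objects (helper27)

`Pure Tr N`: no simple subquotient of `N` belongs to the tensor subcategory `Tr`. Closure under
subobjects, quotients, extensions, sums; there are no nonzero morphisms between objects of `Tr`
and pure objects.
-/

set_option autoImplicit false
set_option linter.unusedSectionVars false

open CategoryTheory MonoidalCategory Limits Abelian

universe w v u

namespace Pool.Agent.MCH

open Pool.Agent.MUG

variable {k : Type*} [Field k] {Z : Type u} [Category.{v} Z] [Abelian Z] [Linear k Z]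
  [MonoidalCategory Z] [MonoidalPreadditive Z] [RigidCategory Z]

/-- No simple subquotient of `N` belongs to `Tr`. -/
def Pure (Tr : ObjectProperty Z) (N : Z) : Prop :=
  ∀ S : Z, Simple S → IsSubquotient S N → ¬ Tr S

variable {Tr : ObjectProperty Z}

theorem Pure.subquotient {M N : Z} (hN : Pure Tr N) (h : IsSubquotient M N) : Pure Tr M :=
  fun S hS hSM => hN S hS (hSM.trans h)

theorem Pure.sub {M N : Z} (hN : Pure Tr N) (i : M ⟶ N) [Mono i] : Pure Tr M :=
  hN.subquotient (IsSubquotient.of_mono i)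

theorem Pure.quot {M N : Z} (hN : Pure Tr N) (p : N ⟶ M) [Epi p] : Pure Tr M :=
  hN.subquotient (IsSubquotient.of_epi p)

theorem Pure.iso {M N : Z} (hN : Pure Tr N) (e : M ≅ N) : Pure Tr M :=
  hN.sub e.hom

theorem pure_of_isZero {N : Z} (hN : IsZero N) : Pure Tr N := by
  rintro S hS ⟨K, i, p, hi, hp⟩ -
  have hK : IsZero K := by
    rw [IsZero.iff_id_eq_zero, ← cancel_mono i]
    exact hN.eq_of_tgt _ _
  have h1 : (𝟙 S) = 0 := by
    rw [← cancel_epi p]
    exact hK.eq_of_src _ _
  exact id_nonzero S h1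

/-- Pure objects are closed under extensions. -/
theorem Pure.ext (hZ : IsFinite k Z) {S : ShortComplex Z} (hS : S.ShortExact)
    (h1 : Pure Tr S.X₁) (h3 : Pure Tr S.X₃) : Pure Tr S.X₂ := by
  intro U hU hUN hT
  obtain ⟨F⟩ := exists_fam hZ.finCat
  obtain ⟨i, ⟨g⟩⟩ := F.all U hU
  have h2 : 0 < F.m k i S.X₂ :=
    (F.m_pos_iff hZ.finCat i _).2 ((IsSubquotient.of_mono g.inv).trans hUN)
  rw [F.m_add hZ.finCat hS i] at h2
  rcases Nat.eq_zero_or_pos (F.m k i S.X₁) with h4 | h4
  · have h5 : 0 < F.m k i S.X₃ := by omega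
    exact h3 U hU ((IsSubquotient.of_mono g.hom).trans ((F.m_pos_iff hZ.finCat i _).1 h5)) hT
  · exact h1 U hU ((IsSubquotient.of_mono g.hom).trans ((F.m_pos_iff hZ.finCat i _).1 h4)) hT

/-- Extensions, with a monomorphism and its cokernel. -/
theorem Pure.of_mono (hZ : IsFinite k Z) {A N : Z} (i : A ⟶ N) [Mono i] (hA : Pure Tr A)
    (hB : Pure Tr (cokernel i)) : Pure Tr N :=
  Pure.ext hZ (Fam.ses_mono i) hA hB

/-- Extensions, with an epimorphism and its kernel. -/
theorem Pure.of_epi (hZ : IsFinite k Z) {N B : Z} (p : N ⟶ B) [Epi p]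
    (hA : Pure Tr (kernel p)) (hB : Pure Tr B) : Pure Tr N :=
  Pure.ext hZ (Fam.ses_epi p) hA hB

theorem Pure.biprod (hZ : IsFinite k Z) {M N : Z} (hM : Pure Tr M) (hN : Pure Tr N) :
    Pure Tr (M ⊞ N) := by
  have hS : (ShortComplex.mk (biprod.inl : M ⟶ M ⊞ N) (biprod.snd : M ⊞ N ⟶ N)
      biprod.inl_snd).ShortExact := (ShortComplex.Splitting.ofHasBinaryBiproduct M N).shortExact
  exact Pure.ext hZ hS hM hN

section

variable [hTr : TensorSub Tr]

/-- Every nonzero morphism out of an object of `Tr` has an image with a simple subobject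
in `Tr`. -/
theorem tr_pure_eq_zero (hZ : IsFinite k Z) {M N : Z} (hM : Tr M) (hN : Pure Tr N)
    (f : M ⟶ N) : f = 0 := by
  by_contra hf
  have hI : ¬ IsZero (Abelian.image f) := by
    intro h
    apply hf
    rw [← Abelian.image.fac f, h.eq_of_tgt (Abelian.factorThruImage f) 0, zero_comp]
  have := hZ.artinian (Abelian.image f)
  refine hN (simpleSubobject hI) inferInstance
    (IsSubquotient.of_mono (simpleSubobjectArrow hI ≫ Abelian.image.ι f)) ?_
  exact hTr.sub (simpleSubobjectArrow hI) (hTr.quot (Abelian.factorThruImage f) hM)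

theorem pure_tr_eq_zero (hZ : IsFinite k Z) {M N : Z} (hM : Tr M) (hN : Pure Tr N)
    (f : N ⟶ M) : f = 0 := by
  by_contra hf
  have hI : ¬ IsZero (Abelian.image f) := by
    intro h
    apply hf
    rw [← Abelian.image.fac f, h.eq_of_tgt (Abelian.factorThruImage f) 0, zero_comp]
  have := hZ.artinian (Abelian.image f)
  refine hN (simpleSubobject hI) inferInstance ?_ ?_
  · exact (IsSubquotient.of_mono (simpleSubobjectArrow hI)).trans
      (IsSubquotient.of_epi (Abelian.factorThruImage f))
  · exact hTr.sub (simpleSubobjectArrow hI ≫ Abelian.image.ι f) hM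

/-- An object which is pure and belongs to `Tr` is zero. -/
theorem isZero_of_pure_tr (hZ : IsFinite k Z) {N : Z} (hN : Pure Tr N) (h : Tr N) : IsZero N := by
  rw [IsZero.iff_id_eq_zero]
  exact tr_pure_eq_zero hZ h hN (𝟙 N)

theorem not_pure_iff (N : Z) : ¬ Pure Tr N ↔ ∃ S : Z, Simple S ∧ IsSubquotient S N ∧ Tr S := by
  simp only [Pure, not_forall, not_not, exists_prop]

end

end Pool.Agent.MCH
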