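import Pool.Agent.MCH.LeibRed
import Pool.Agent.MCH.ExtRed
import Pool.Agent.MCH.Pure
import Pool.Agent.MUG.CFN

/-!
# Row A3: the trivial objects of the center of a symmetric finite tensor category without
Leibniz families are closed under extensions (helper27)
-/

set_option autoImplicit false
set_option linter.unusedSectionVars false

open CategoryTheory MonoidalCategory Limits Abelian

universe w v u

namespace Pool.Agent.MCH

open Pool.Agent.MUG

set_option backward.isDefEq.respectTransparency.types false

section Sym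

variable {C : Type u} [Category.{v} C] [Abelian C] [MonoidalCategory C] [MonoidalPreadditive C]
  [RigidCategory C] [BraidedCategory C]

/-- For a symmetric category `C`: `N` is trivial iff it commutes with all `J V`. -/
theorem jProp_iff_comm (hsym : ∀ X Y : C, Comm X Y) (N : Center C) :
    jProp N ↔ ∀ V : C, Comm N (jObj V) := by
  have key : ∀ V : C, Comm N (jObj V) ↔ (N.2.β V).hom = (β_ N.1 V).hom := by
    intro V
    have h1 : Comm N (jObj V) ↔ (N.2.β V).hom ≫ (β_ V N.1).hom = 𝟙 (N.1 ⊗ V) :=
      cen_double_iff N (jObj V)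
    have h2 : (β_ N.1 V).hom ≫ (β_ V N.1).hom = 𝟙 (N.1 ⊗ V) := hsym N.1 V
    rw [h1]
    constructor
    · intro h
      rw [← cancel_mono (β_ V N.1).hom, h, h2]
    · intro h
      rw [h, h2]
  rw [jProp_iff]
  exact forall_congr' fun V => (key V).symm

/-- Trivial objects commute with each other. -/
theorem comm_of_jProp (hsym : ∀ X Y : C, Comm X Y) {N M : Center C} (hN : jProp N)
    (hM : jProp M) : Comm N M := by
  have h1 : Comm N M ↔ (N.2.β M.1).hom ≫ (M.2.β N.1).hom = 𝟙 (N.1 ⊗ M.1) :=
    cen_double_iff N M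
  rw [h1, (jProp_iff N).1 hN, (jProp_iff M).1 hM]
  exact hsym N.1 M.1

/-- Row A3. -/
theorem jProp_ext (hsym : ∀ X Y : C, Comm X Y)
    (hL : ∀ (b : C) (L : Leib b) (Y : C), L.d Y = 0) (hunit : Simple (𝟙_ (Center C)))
    {S : ShortComplex (Center C)} (hS : S.ShortExact) (h1 : jProp S.X₁) (h3 : jProp S.X₃) :
    jProp S.X₂ := by
  by_cases hA : IsZero S.X₁
  · have hg : Mono S.g := hS.exact.mono_g (hA.eq_of_src _ _)
    exact TensorSub.sub S.g h3
  · obtain ⟨N', r, hr, q, j, hq, hj⟩ := ext_reduce hS hA
    have hb : jProp (cokernel r) :=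
      TensorSub.quot q (TensorSub.tensor h3 (TensorSub.ldual h1))
    have hcb : centralizer jProp (cokernel r) := fun Y hY => comm_of_jProp hsym hb hY
    obtain ⟨L, hLL⟩ := leib_of_ext jProp r (cokernel.π r) (cokernel.condition r)
      (Fam.ses_mono r) hb hcb
    obtain ⟨L', hL'⟩ := leib_of_jProp hb L
    have hN' : jProp N' := by
      rw [jProp_iff_comm hsym]
      intro V
      rw [← dbr_eq_zero]
      have h4 := hLL ⟨jObj V, jProp_jObj V⟩
      have h5 : (L.d ⟨jObj V, jProp_jObj V⟩).hom = 0 := by
        apply Center.ext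
        rw [← hL' V, hL]
        rfl
      rw [h5, zero_comp, comp_zero] at h4
      exact h4
    exact TensorSub.sub j (TensorSub.tensor hN' h1)

end Sym

end Pool.Agent.MCH
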