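import Pool.Agent.MCH.Pts

/-!
# Row A5 (helper4): the idempotents `del p q` of two commuting points
-/

open CategoryTheory MonoidalCategory Limits Abelian

universe w v u

set_option linter.unusedSectionVars false
set_option backward.isDefEq.respectTransparency.types false

namespace Pool.Agent.MCH

open Pool.Agent.MUG Pool.Agent.MUP

section Del

variable {C : Type u} [Category.{v} C] [Abelian C] [MonoidalCategory C] [MonoidalPreadditive C]
  [RigidCategory C] [BraidedCategory C] (hsym : ∀ X Y : C, Comm X Y)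

/-- The output of rows A2, A3, A4: the natural idempotent onto the trivial part. -/
structure Proj (e : ∀ N : Center C, N ⟶ N) : Prop where
  nat : ∀ {N N' : Center C} (g : N ⟶ N'), g ≫ e N' = e N ≫ g
  idem : ∀ N, e N ≫ e N = e N
  one : ∀ N, jProp N → e N = 𝟙 N
  triv : ∀ (N : Center C) (V : C), (V ◁ (e N).f) ≫ Gen.mC V N = V ◁ (e N).f
  left : ∀ (V : C) (N : Center C), e (jObj V ⊗ N) = jObj V ◁ e N
  right : ∀ (V : C) (N : Center C), e (N ⊗ jObj V) = e N ▷ jObj V

variable (e : ∀ N : Center C, N ⟶ N)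

/-- The idempotent of a point. -/
noncomputable def pe {X : C} (p : Pt X) : X ⟶ X := (e (p.N hsym)).f

/-- `p q⁻¹`. -/
noncomputable def Pt.div {X : C} (p q : Pt X) (h : Co p q) : Pt X :=
  p.prod hsym (q.symm hsym) (fun V W => by
    have := q.iso W
    exact (h V W).inv_right hsym)

/-- The largest summand on which the commuting points `p` and `q` agree. -/
noncomputable def del {X : C} (p q : Pt X) (h : Co p q) : X ⟶ X :=
  pe hsym e (Pt.div hsym p q h)

/-- Change the family of a point along an equality. -/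
def Pt.ofEq {X : C} (q : Pt X) (m' : ∀ V : C, V ⊗ X ⟶ V ⊗ X) (h : ∀ V, m' V = q.m V) : Pt X where
  m := m'
  iso V := by
    rw [h]
    exact q.iso V
  nat f := by
    rw [h, h]
    exact q.nat f
  mul V W := by
    rw [h, h, h]
    exact q.mul V W

/-- The point `p` on `W ⊗ X`. -/
noncomputable def Pt.lft {X : C} (W : C) (p : Pt X) : Pt (W ⊗ X) :=
  Pt.ofEq (ptOf hsym (jObj W ⊗ p.N hsym)) (fun V => out (p.m V) W) (fun V => by
    have h := mC_left hsym W (p.N hsym) V
    rw [mC_pt] at h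
    exact h.symm)

include hsym in
theorem mC_rgt (W : C) (N : Center C) (V : C) :
    Gen.mC V (N ⊗ jObj W) = ten (Gen.mC V N) W := by
  have h1 : ((N ⊗ jObj W).2.β V).hom = (α_ N.1 W V).hom ≫ (N.1 ◁ (β_ W V).hom) ≫
      (α_ N.1 V W).inv ≫ ((N.2.β V).hom ▷ W) ≫ (α_ V N.1 W).hom := by
    change ((Center.tensorObj N (jObj W)).2.β V).hom = _
    simp [Center.tensorObj, jObj_beta]
    rfl
  have h2 : (β_ V W).hom ≫ (β_ W V).hom = 𝟙 _ := hsym V W
  have h3 : (N.1 ◁ (β_ V W).hom) ≫ (N.1 ◁ (β_ W V).hom) = 𝟙 _ := by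
    rw [← whiskerLeft_comp, h2, whiskerLeft_id]
  have hb : (β_ V (N.1 ⊗ W)).hom = (α_ V N.1 W).inv ≫ ((β_ V N.1).hom ▷ W) ≫ (α_ N.1 V W).hom ≫
      (N.1 ◁ (β_ V W).hom) ≫ (α_ N.1 W V).inv := by
    rw [BraidedCategory.braiding_tensor_right_hom]
  unfold Gen.mC
  rw [h1]
  change (β_ V (N.1 ⊗ W)).hom ≫ _ = _
  rw [hb]
  unfold ten
  simp only [Category.assoc, comp_whiskerRight]
  change (α_ V N.1 W).inv ≫ (β_ V N.1).hom ▷ W ≫ (α_ N.1 V W).hom ≫ N.1 ◁ (β_ V W).hom ≫
    (α_ N.1 W V).inv ≫ (α_ N.1 W V).hom ≫ N.1 ◁ (β_ W V).hom ≫ (α_ N.1 V W).inv ≫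
    (N.2.β V).hom ▷ W ≫ (α_ V N.1 W).hom = _
  rw [Iso.inv_hom_id_assoc, reassoc_of% h3, Iso.hom_inv_id_assoc]

/-- The point `p` on `X ⊗ W`. -/
noncomputable def Pt.rgt {X : C} (W : C) (p : Pt X) : Pt (X ⊗ W) :=
  Pt.ofEq (ptOf hsym (p.N hsym ⊗ jObj W)) (fun V => ten (p.m V) W) (fun V => by
    have h := mC_rgt hsym W (p.N hsym) V
    rw [mC_pt] at h
    exact h.symm)

theorem pt_cancel {X : C} (p : Pt X) (V : C) :
    p.m V ≫ (p.symm hsym).m V = 𝟙 _ := by
  have := p.iso V
  exact IsIso.hom_inv_id (p.m V)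

theorem pt_cancel' {X : C} (p : Pt X) (V : C) :
    (p.symm hsym).m V ≫ p.m V = 𝟙 _ := by
  have := p.iso V
  exact IsIso.inv_hom_id (p.m V)

theorem co_div {X : C} {p q r : Pt X} (h : Co p q) (hp : Co p r) (hq : Co q r) : Co (Pt.div hsym p q h) r := by
  intro V W
  have := q.iso V
  exact (hp V W).comp_left hsym ((hq V W).inv_left hsym)

variable {e} (he : Proj e)

include he

theorem pe_idem {X : C} (p : Pt X) : pe hsym e p ≫ pe hsym e p = pe hsym e p :=
  congrArg Center.Hom.f (he.idem (p.N hsym))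

theorem pe_triv {X : C} (p : Pt X) (V : C) :
    (V ◁ pe hsym e p) ≫ p.m V = V ◁ pe hsym e p := by
  have h := he.triv (p.N hsym) V
  rw [mC_pt] at h
  exact h

theorem pe_nat {X X' : C} (p : Pt X) (q : Pt X') (g : X ⟶ X')
    (hg : ∀ V, (V ◁ g) ≫ q.m V = p.m V ≫ (V ◁ g)) :
    g ≫ pe hsym e q = pe hsym e p ≫ g := by
  have h := he.nat (mkHom (N := p.N hsym) (N' := q.N hsym) g (fun V => by
    rw [mC_pt, mC_pt]
    exact hg V))
  exact congrArg Center.Hom.f h

theorem pe_comm {X : C} (p q : Pt X) (h : Co p q) (V : C) :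
    (V ◁ pe hsym e p) ≫ q.m V = q.m V ≫ (V ◁ pe hsym e p) := by
  have h1 := he.nat (mkHom (N := jObj V ⊗ p.N hsym) (N' := jObj V ⊗ p.N hsym) (q.m V) (fun W => by
    rw [mC_left hsym, mC_pt]
    exact Eq.symm (show out (p.m W) V ≫ (W ◁ q.m V) = (W ◁ q.m V) ≫ out (p.m W) V from h W V)))
  rw [he.left] at h1
  exact (congrArg Center.Hom.f h1).symm

theorem pe_one (X : C) : pe hsym e (Pt.one hsym X) = 𝟙 X := by
  have h : jProp ((Pt.one hsym X).N hsym) := (jProp_iff _).2 fun U => by
    change (β_ X U).hom ≫ 𝟙 _ = (β_ X U).hom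
    rw [Category.comp_id]
  exact congrArg Center.Hom.f (he.one _ h)

/-- `g` into a point with trivial monodromy. -/
theorem pe_of_co {X Y : C} (p : Pt X) (g : Y ⟶ X) (hg : ∀ V, (V ◁ g) ≫ p.m V = V ◁ g) :
    g ≫ pe hsym e p = g := by
  have h := pe_nat hsym he (Pt.one hsym Y) p g (fun V => by
    rw [hg]
    exact (Category.id_comp _).symm)
  rw [h, pe_one hsym he, Category.id_comp]

/-- `g` out of a point with trivial monodromy. -/
theorem pe_of_eq {X Y : C} (p : Pt X) (g : X ⟶ Y) (hg : ∀ V, p.m V ≫ (V ◁ g) = V ◁ g) :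
    pe hsym e p ≫ g = g := by
  have h := pe_nat hsym he p (Pt.one hsym Y) g (fun V => by
    rw [hg]
    exact Category.comp_id _)
  rw [← h, pe_one hsym he, Category.comp_id]

variable {X Y : C} {p q r s : Pt X}

/-- (5.1) `V ◁ del p q` commutes with the points commuting with `p` and `q`. -/
theorem del_comm (h : Co p q) (hp : Co p r) (hq : Co q r) (V : C) :
    (V ◁ del hsym e p q h) ≫ r.m V = r.m V ≫ (V ◁ del hsym e p q h) :=
  pe_comm hsym he _ _ (co_div hsym h hp hq) V

theorem del_idem (h : Co p q) : del hsym e p q h ≫ del hsym e p q h = del hsym e p q h :=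
  pe_idem hsym he _

theorem del_co (h : Co p q) (V : C) :
    (V ◁ del hsym e p q h) ≫ p.m V = (V ◁ del hsym e p q h) ≫ q.m V := by
  have h1 := pe_triv hsym he (Pt.div hsym p q h) V
  have h2 : (V ◁ del hsym e p q h) ≫ p.m V ≫ (q.symm hsym).m V = V ◁ del hsym e p q h := h1
  calc (V ◁ del hsym e p q h) ≫ p.m V
      = ((V ◁ del hsym e p q h) ≫ p.m V ≫ (q.symm hsym).m V) ≫ q.m V := by
        rw [Category.assoc, Category.assoc, pt_cancel' hsym, Category.comp_id]
    _ = _ := by rw [h2]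

theorem del_eq (h : Co p q) (V : C) :
    p.m V ≫ (V ◁ del hsym e p q h) = q.m V ≫ (V ◁ del hsym e p q h) := by
  rw [← del_comm hsym he h (Co.refl hsym p) (h.symm hsym),
    ← del_comm hsym he h h (Co.refl hsym q), del_co hsym he]

theorem del_of_co (h : Co p q) (g : Y ⟶ X) (hg : ∀ V, (V ◁ g) ≫ p.m V = (V ◁ g) ≫ q.m V) :
    g ≫ del hsym e p q h = g := by
  refine pe_of_co hsym he _ g fun V => ?_
  change (V ◁ g) ≫ p.m V ≫ (q.symm hsym).m V = V ◁ g
  rw [← Category.assoc, hg, Category.assoc, pt_cancel hsym, Category.comp_id]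

theorem del_of_eq (h : Co p q) (g : X ⟶ Y) (hg : ∀ V, p.m V ≫ (V ◁ g) = q.m V ≫ (V ◁ g)) :
    del hsym e p q h ≫ g = g := by
  have hqp : Co (q.symm hsym) p := fun V W => by
    have := q.iso V
    exact ((h.symm hsym) V W).inv_left hsym
  have hqq : Co (q.symm hsym) q := fun V W => by
    have := q.iso V
    exact ((Co.refl hsym q) V W).inv_left hsym
  let t : Pt X := (q.symm hsym).prod hsym p hqp
  have ht : ∀ V, t.m V = (q.symm hsym).m V ≫ p.m V := fun V => rfl
  have htp : Co t p := fun V W => (hqp V W).comp_left hsym (Co.refl hsym p V W)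
  have htq : Co t q := fun V W => (hqq V W).comp_left hsym (h V W)
  have ha : ∀ {Z : C} (g : X ⟶ Z), (∀ V, p.m V ≫ (V ◁ g) = q.m V ≫ (V ◁ g)) →
      pe hsym e t ≫ g = g := fun g hg => pe_of_eq hsym he t g fun V => by
    rw [ht, Category.assoc, hg, ← Category.assoc, pt_cancel' hsym, Category.id_comp]
  have hb : ∀ V, (V ◁ pe hsym e t) ≫ p.m V = (V ◁ pe hsym e t) ≫ q.m V := fun V => by
    have h1 := pe_triv hsym he t V
    have h2 := pe_comm hsym he t q htq V
    have h3 : (V ◁ pe hsym e t) ≫ (q.symm hsym).m V = (q.symm hsym).m V ≫ (V ◁ pe hsym e t) := by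
      calc _ = ((q.symm hsym).m V ≫ q.m V) ≫ (V ◁ pe hsym e t) ≫ (q.symm hsym).m V := by
            rw [pt_cancel' hsym, Category.id_comp]
        _ = (q.symm hsym).m V ≫ ((V ◁ pe hsym e t) ≫ q.m V) ≫ (q.symm hsym).m V := by
            rw [h2]
            simp only [Category.assoc]
        _ = _ := by
            simp only [Category.assoc]
            rw [pt_cancel hsym, Category.comp_id]
    rw [ht, ← Category.assoc, h3, Category.assoc] at h1
    calc (V ◁ pe hsym e t) ≫ p.m V
        = q.m V ≫ (q.symm hsym).m V ≫ (V ◁ pe hsym e t) ≫ p.m V := by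
          rw [← Category.assoc (q.m V), pt_cancel hsym, Category.id_comp]
      _ = q.m V ≫ (V ◁ pe hsym e t) := by rw [h1]
      _ = _ := h2.symm
  have h1 : pe hsym e t ≫ del hsym e p q h = pe hsym e t := del_of_co hsym he h _ hb
  have h2 : pe hsym e t ≫ del hsym e p q h = del hsym e p q h := ha _ (del_eq hsym he h)
  rw [← h2, h1]
  exact ha g hg

theorem del_self (h : Co p p) : del hsym e p p h = 𝟙 X := by
  rw [← Category.id_comp (del hsym e p p h)]
  exact del_of_co hsym he h (𝟙 X) fun V => rfl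

theorem del_symm (h : Co p q) : del hsym e p q h = del hsym e q p (h.symm hsym) := by
  have h1 : del hsym e p q h ≫ del hsym e q p (h.symm hsym) = del hsym e p q h :=
    del_of_co hsym he _ _ fun V => (del_co hsym he h V).symm
  have h2 : del hsym e p q h ≫ del hsym e q p (h.symm hsym) = del hsym e q p (h.symm hsym) :=
    del_of_eq hsym he h _ fun V => (del_eq hsym he (h.symm hsym) V).symm
  rw [← h1, h2]

/-- Morphisms which intertwine the points intertwine `del`. -/
theorem del_nat {X' : C} {p' q' : Pt X'} (h : Co p q) (h' : Co p' q') (g : X ⟶ X')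
    (hp : ∀ V, (V ◁ g) ≫ p'.m V = p.m V ≫ (V ◁ g))
    (hq : ∀ V, (V ◁ g) ≫ q'.m V = q.m V ≫ (V ◁ g)) :
    g ≫ del hsym e p' q' h' = del hsym e p q h ≫ g := by
  refine pe_nat hsym he _ _ g fun V => ?_
  change (V ◁ g) ≫ p'.m V ≫ (q'.symm hsym).m V = (p.m V ≫ (q.symm hsym).m V) ≫ (V ◁ g)
  have h3 : (V ◁ g) ≫ (q'.symm hsym).m V = (q.symm hsym).m V ≫ (V ◁ g) := by
    calc _ = ((q.symm hsym).m V ≫ q.m V) ≫ (V ◁ g) ≫ (q'.symm hsym).m V := by
          rw [pt_cancel' hsym, Category.id_comp]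
      _ = (q.symm hsym).m V ≫ ((V ◁ g) ≫ q'.m V) ≫ (q'.symm hsym).m V := by
          rw [hq]
          simp only [Category.assoc]
      _ = _ := by
          simp only [Category.assoc]
          rw [pt_cancel hsym, Category.comp_id]
  rw [← Category.assoc, hp, Category.assoc, h3, Category.assoc]

theorem del_del (h : Co p q) (h' : Co r s) (hpr : Co p r) (hps : Co p s) (hqr : Co q r)
    (hqs : Co q s) :
    del hsym e p q h ≫ del hsym e r s h' = del hsym e r s h' ≫ del hsym e p q h :=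
  del_nat hsym he h' h' _ (del_comm hsym he h hpr hqr) (del_comm hsym he h hps hqs)

/-- Transitivity. -/
theorem del_mul (hpq : Co p q) (hpr : Co p r) (hqr : Co q r) :
    (del hsym e p r hpr ≫ del hsym e q r hqr) ≫ del hsym e p q hpq =
      del hsym e p r hpr ≫ del hsym e q r hqr := by
  refine del_of_co hsym he _ _ fun V => ?_
  have h1 : del hsym e p r hpr ≫ del hsym e q r hqr = del hsym e q r hqr ≫ del hsym e p r hpr :=
    del_del hsym he hpr hqr hpq hpr (hqr.symm hsym) (Co.refl hsym r)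
  have h2 : (V ◁ (del hsym e p r hpr ≫ del hsym e q r hqr)) ≫ p.m V =
      (V ◁ (del hsym e p r hpr ≫ del hsym e q r hqr)) ≫ r.m V := by
    rw [h1, whiskerLeft_comp, Category.assoc, Category.assoc, del_co hsym he]
  rw [h2, whiskerLeft_comp, Category.assoc, Category.assoc, del_co hsym he]

theorem del_lft (W : C) (h : Co p q) (h' : Co (p.lft hsym W) (q.lft hsym W)) :
    del hsym e (p.lft hsym W) (q.lft hsym W) h' = W ◁ del hsym e p q h := by
  have h1 := he.nat (mkHom (N := (Pt.div hsym (p.lft hsym W) (q.lft hsym W) h').N hsym)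
    (N' := jObj W ⊗ (Pt.div hsym p q h).N hsym) (𝟙 (W ⊗ X)) (fun V => by
      rw [mC_left hsym, mC_pt, mC_pt]
      have h2 : (Pt.div hsym (p.lft hsym W) (q.lft hsym W) h').m V =
          out ((Pt.div hsym p q h).m V) W := by
        change out (p.m V) W ≫ ((q.lft hsym W).symm hsym).m V =
          out (p.m V ≫ (q.symm hsym).m V) W
        rw [← out_comp hsym]
        congr 1
        have h3 : out (q.m V) W ≫ out ((q.symm hsym).m V) W = 𝟙 _ := by
          rw [out_comp hsym, pt_cancel hsym, out_id hsym]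
        have h4 := pt_cancel' hsym (q.lft hsym W) V
        calc ((q.lft hsym W).symm hsym).m V
            = ((q.lft hsym W).symm hsym).m V ≫ out (q.m V) W ≫ out ((q.symm hsym).m V) W := by
              rw [h3, Category.comp_id]
          _ = (((q.lft hsym W).symm hsym).m V ≫ (q.lft hsym W).m V) ≫
                out ((q.symm hsym).m V) W := (Category.assoc _ _ _).symm
          _ = _ := by rw [h4, Category.id_comp]
      rw [h2]
      have h6 : (V ◁ 𝟙 (W ⊗ X)) ≫ out ((Pt.div hsym p q h).m V) W =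
          out ((Pt.div hsym p q h).m V) W ≫ (V ◁ 𝟙 (W ⊗ X)) := by
        rw [whiskerLeft_id, Category.id_comp, Category.comp_id]
      exact h6))
  rw [he.left] at h1
  have h5 := congrArg Center.Hom.f h1
  exact ((Category.comp_id _).symm.trans h5.symm).trans (Category.id_comp _)

theorem del_rgt (W : C) (h : Co p q) (h' : Co (p.rgt hsym W) (q.rgt hsym W)) :
    del hsym e (p.rgt hsym W) (q.rgt hsym W) h' = del hsym e p q h ▷ W := by
  have ht : ∀ {V X : C} (f g : V ⊗ X ⟶ V ⊗ X), ten f W ≫ ten g W = ten (f ≫ g) W := by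
    intro V X f g
    unfold ten
    simp
  have h1 := he.nat (mkHom (N := (Pt.div hsym (p.rgt hsym W) (q.rgt hsym W) h').N hsym)
    (N' := (Pt.div hsym p q h).N hsym ⊗ jObj W) (𝟙 (X ⊗ W)) (fun V => by
      rw [mC_rgt hsym, mC_pt, mC_pt]
      have h2 : (Pt.div hsym (p.rgt hsym W) (q.rgt hsym W) h').m V =
          ten ((Pt.div hsym p q h).m V) W := by
        change ten (p.m V) W ≫ ((q.rgt hsym W).symm hsym).m V =
          ten (p.m V ≫ (q.symm hsym).m V) W
        rw [← ht]
        congr 1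
        have h3 : ten (q.m V) W ≫ ten ((q.symm hsym).m V) W = 𝟙 _ := by
          rw [ht, pt_cancel hsym]
          unfold ten
          simp
        have h4 := pt_cancel' hsym (q.rgt hsym W) V
        calc ((q.rgt hsym W).symm hsym).m V
            = ((q.rgt hsym W).symm hsym).m V ≫ ten (q.m V) W ≫ ten ((q.symm hsym).m V) W := by
              rw [h3, Category.comp_id]
          _ = (((q.rgt hsym W).symm hsym).m V ≫ (q.rgt hsym W).m V) ≫
                ten ((q.symm hsym).m V) W := (Category.assoc _ _ _).symm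
          _ = _ := by rw [h4, Category.id_comp]
      rw [h2]
      have h6 : (V ◁ 𝟙 (X ⊗ W)) ≫ ten ((Pt.div hsym p q h).m V) W =
          ten ((Pt.div hsym p q h).m V) W ≫ (V ◁ 𝟙 (X ⊗ W)) := by
        rw [whiskerLeft_id, Category.id_comp, Category.comp_id]
      exact h6))
  rw [he.right] at h1
  have h5 := congrArg Center.Hom.f h1
  exact ((Category.comp_id _).symm.trans h5.symm).trans (Category.id_comp _)

end Del

section Co

variable {C : Type u} [Category.{v} C] [Abelian C] [MonoidalCategory C] [MonoidalPreadditive C]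
  [RigidCategory C] [BraidedCategory C] (hsym : ∀ X Y : C, Comm X Y)

/-- `swp` as a morphism of the centre. -/
noncomputable def swpC (V W : C) (N : Center C) : jObj V ⊗ (jObj W ⊗ N) ⟶ jObj W ⊗ (jObj V ⊗ N) :=
  (α_ (jObj V) (jObj W) N).inv ≫ ((β_ (jObj V) (jObj W)).hom ▷ N) ≫ (α_ (jObj W) (jObj V) N).hom

theorem swpC_f (V W : C) (N : Center C) : (swpC V W N).f = swp V W N.1 := by
  unfold swpC swp
  simp only [Center.comp_f, Center.associator_inv_f, Center.associator_hom_f,
    Center.whiskerRight_f]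
  rfl

include hsym

theorem co_of_hom {N : Center C} {p q : Pt N.1} (hp : ∀ V, Gen.mC V N = p.m V)
    (g : ∀ V, jObj V ⊗ N ⟶ jObj V ⊗ N) (hg : ∀ V, (g V).f = q.m V) : Co p q := by
  intro V W
  have h := Gen.mC_nat_right V (g W)
  rw [mC_left hsym, hp, hg] at h
  exact h.symm

theorem hom_of_co {N : Center C} {p q : Pt N.1} (hp : ∀ V, Gen.mC V N = p.m V) (h : Co p q)
    (V : C) : ∃ g : jObj V ⊗ N ⟶ jObj V ⊗ N, g.f = q.m V :=
  ⟨mkHom (q.m V) (fun W => by
    rw [mC_left hsym, hp]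
    exact Eq.symm (show out (p.m W) V ≫ (W ◁ q.m V) = (W ◁ q.m V) ≫ out (p.m W) V from h W V)),
    rfl⟩

variable {X : C} {p q : Pt X}

theorem co_lft (W : C) (h : Co p q) : Co (p.lft hsym W) (q.lft hsym W) := by
  choose g hg using hom_of_co hsym (N := p.N hsym) (mC_pt hsym p) h
  refine co_of_hom hsym (N := jObj W ⊗ p.N hsym) (fun V => by
    rw [mC_left hsym, mC_pt]
    rfl) (fun V => swpC V W (p.N hsym) ≫ (jObj W ◁ g V) ≫ swpC W V (p.N hsym)) (fun V => ?_)
  have h1 : (swpC V W (p.N hsym) ≫ (jObj W ◁ g V) ≫ swpC W V (p.N hsym)).f =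
      swp V W X ≫ (W ◁ (g V).f) ≫ swp W V X := by
    simp only [Center.comp_f, swpC_f, Center.whiskerLeft_f]
    rfl
  rw [h1, hg]
  rfl

theorem co_rgt (W : C) (h : Co p q) : Co (p.rgt hsym W) (q.rgt hsym W) := by
  choose g hg using hom_of_co hsym (N := p.N hsym) (mC_pt hsym p) h
  refine co_of_hom hsym (N := p.N hsym ⊗ jObj W) (fun V => by
    rw [mC_rgt hsym, mC_pt]
    rfl) (fun V => (α_ (jObj V) (p.N hsym) (jObj W)).inv ≫ (g V ▷ jObj W) ≫
      (α_ (jObj V) (p.N hsym) (jObj W)).hom) (fun V => ?_)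
  have h1 : ((α_ (jObj V) (p.N hsym) (jObj W)).inv ≫ (g V ▷ jObj W) ≫
      (α_ (jObj V) (p.N hsym) (jObj W)).hom).f =
      (α_ V X W).inv ≫ ((g V).f ▷ W) ≫ (α_ V X W).hom := by
    simp only [Center.comp_f, Center.associator_inv_f, Center.associator_hom_f,
      Center.whiskerRight_f]
    rfl
  rw [h1, hg]
  rfl

end Co

end Pool.Agent.MCH
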