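import Pool.Agent.MCH.Pure

/-!
# Splitting off the trivial part (helper27)

`Z` a finite tensor category, `Tr` a tensor subcategory closed under extensions, such that there
are exact functors `G`, `H` preserving pure objects and natural transformations `G ⟶ id`,
`id ⟶ H` which vanish exactly on the objects of `Tr`. Then every object is the direct sum of an
object of `Tr` and a pure object.
-/

set_option autoImplicit false
set_option linter.unusedSectionVars false

open CategoryTheory MonoidalCategory Limits Abelian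

universe w v u

namespace Pool.Agent.MCH

open Pool.Agent.MUG

variable {k : Type*} [Field k] {Z : Type u} [Category.{v} Z] [Abelian Z] [Linear k Z]
  [MonoidalCategory Z] [MonoidalPreadditive Z] [RigidCategory Z]

variable {Tr : ObjectProperty Z} [hTr : TensorSub Tr]

/-- `f` factors through an object with the property `P`. -/
def Thru (P : Z → Prop) {X Y : Z} (f : X ⟶ Y) : Prop :=
  ∃ (T : Z) (a : X ⟶ T) (b : T ⟶ Y), P T ∧ a ≫ b = f

theorem Thru.comp_left {P : Z → Prop} {X Y W : Z} {f : X ⟶ Y} (hf : Thru P f) (g : W ⟶ X) :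
    Thru P (g ≫ f) := by
  obtain ⟨T, a, b, hT, rfl⟩ := hf
  exact ⟨T, g ≫ a, b, hT, Category.assoc _ _ _⟩

theorem Thru.comp_right {P : Z → Prop} {X Y W : Z} {f : X ⟶ Y} (hf : Thru P f) (g : Y ⟶ W) :
    Thru P (f ≫ g) := by
  obtain ⟨T, a, b, hT, rfl⟩ := hf
  exact ⟨T, a, b ≫ g, hT, (Category.assoc _ _ _).symm⟩

theorem tr_comp_pure (hZ : IsFinite k Z) {X Y W : Z} {f : X ⟶ Y} {g : Y ⟶ W} (hf : Thru Tr f)
    (hg : Thru (Pure Tr) g) : f ≫ g = 0 := by
  obtain ⟨T, a, b, hT, rfl⟩ := hf
  obtain ⟨P, c, d, hP, rfl⟩ := hg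
  have h := tr_pure_eq_zero hZ hT hP (b ≫ c)
  calc (a ≫ b) ≫ c ≫ d = a ≫ (b ≫ c) ≫ d := by simp only [Category.assoc]
    _ = 0 := by rw [h, zero_comp, comp_zero]

theorem pure_comp_tr (hZ : IsFinite k Z) {X Y W : Z} {f : X ⟶ Y} {g : Y ⟶ W}
    (hf : Thru (Pure Tr) f) (hg : Thru Tr g) : f ≫ g = 0 := by
  obtain ⟨T, a, b, hT, rfl⟩ := hf
  obtain ⟨P, c, d, hP, rfl⟩ := hg
  have h := pure_tr_eq_zero hZ hP hT (b ≫ c)
  calc (a ≫ b) ≫ c ≫ d = a ≫ (b ≫ c) ≫ d := by simp only [Category.assoc]
    _ = 0 := by rw [h, zero_comp, comp_zero]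

/-- A simple object outside `Tr` is pure. -/
theorem pure_of_simple {S : Z} (hS : Simple S) (h : ¬ Tr S) : Pure Tr S := by
  rintro S' hS' ⟨K, i, p, hi, hp⟩ hT
  have hi0 : i ≠ 0 := by
    intro h0
    have h1 : 𝟙 S' = 0 := by
      rw [← cancel_epi p]
      have h2 : 𝟙 K = 0 := by
        rw [← cancel_mono i, h0, comp_zero, comp_zero]
      rw [← Category.id_comp p, h2, zero_comp, zero_comp, zero_comp]
    exact id_nonzero S' h1
  have hii : IsIso i := isIso_of_mono_of_nonzero hi0
  have hp0 : p ≠ 0 := by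
    intro h0
    have h1 : 𝟙 S' = 0 := by rw [← cancel_epi p, h0, zero_comp, zero_comp]
    exact id_nonzero S' h1
  have hK : Simple K := Simple.of_iso (asIso i)
  have hpi : IsIso p := isIso_of_epi_of_nonzero hp0
  exact h (hTr.sub (inv i ≫ p) hT)

/-- The data which detect the objects of `Tr`. -/
structure Det (Tr : ObjectProperty Z) where
  G : Z ⥤ Z
  H : Z ⥤ Z
  r : ∀ N, G.obj N ⟶ N
  s : ∀ N, N ⟶ H.obj N
  r_nat : ∀ {N M : Z} (f : N ⟶ M), G.map f ≫ r M = r N ≫ f
  s_nat : ∀ {N M : Z} (f : N ⟶ M), f ≫ s M = s N ≫ H.map f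
  r_zero : ∀ N, r N = 0 ↔ Tr N
  s_zero : ∀ N, s N = 0 ↔ Tr N
  G_exact : ∀ {S : ShortComplex Z}, S.ShortExact →
    Epi (G.map S.g) ∧ ∀ {W : Z} (f : G.obj S.X₂ ⟶ W), G.map S.f ≫ f = 0 →
      ∃ f', G.map S.g ≫ f' = f
  H_exact : ∀ {S : ShortComplex Z}, S.ShortExact →
    Mono (H.map S.f) ∧ ∀ {W : Z} (f : W ⟶ H.obj S.X₂), f ≫ H.map S.g = 0 →
      ∃ f', f' ≫ H.map S.f = f
  G_pure : ∀ N, Pure Tr N → Pure Tr (G.obj N)
  H_pure : ∀ N, Pure Tr N → Pure Tr (H.obj N)

namespace Det

variable (D : Det Tr)

include D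

/-- The cokernel of `r` belongs to `Tr`. -/
theorem tr_coker (N : Z) : Tr (cokernel (D.r N)) := by
  rw [← D.r_zero]
  obtain ⟨h1, -⟩ := D.G_exact (ShortComplex.ShortExact.mk' (ShortComplex.exact_kernel
    (cokernel.π (D.r N))) inferInstance inferInstance)
  rw [← cancel_epi (D.G.map (cokernel.π (D.r N))), D.r_nat, cokernel.condition, comp_zero]

/-- Objects without nonzero quotients in `Tr` are pure. -/
theorem pure_of_noquot (hZ : IsFinite k Z) (N : Z)
    (hN : ∀ (T : Z) (p : N ⟶ T), Epi p → Tr T → IsZero T) : Pure Tr N := by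
  obtain ⟨F⟩ := exists_fam hZ.finCat
  induction hn : F.len k N using Nat.strong_induction_on generalizing N with
  | _ n ih =>
    by_cases h0 : IsZero N
    · exact pure_of_isZero h0
    · have := hZ.artinian N
      let S : Z := simpleSubobject h0
      let i : S ⟶ N := simpleSubobjectArrow h0
      have hSs : Simple S := inferInstanceAs (Simple (simpleSubobject h0))
      have hi : Mono i := inferInstanceAs (Mono (simpleSubobjectArrow h0))
      have hses := Fam.ses_mono i
      have hlen := F.len_add hZ.finCat hses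
      have h2 : 0 < F.len k S := F.len_pos hZ.finCat (Simple.not_isZero _)
      simp only at hlen
      have hq : Pure Tr (cokernel i) := by
        refine ih (F.len k (cokernel i)) (by omega) (cokernel i) ?_ rfl
        intro T p hp hT
        exact hN T (cokernel.π i ≫ p) (epi_comp _ _) hT
      by_cases hTS : Tr S
      · have hre : Epi (D.r N) := by
          have h3 : IsZero (cokernel (D.r N)) :=
            hN _ (cokernel.π (D.r N)) inferInstance (D.tr_coker N)
          exact Preadditive.epi_of_cokernel_zero (h3.eq_of_tgt _ _)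
        have h4 : D.G.map i ≫ D.r N = 0 := by
          rw [D.r_nat, (D.r_zero S).2 hTS, zero_comp]
        obtain ⟨-, h5⟩ := D.G_exact hses
        obtain ⟨f', hf'⟩ := h5 (D.r N) h4
        have hfe : Epi f' := by
          have h6 : D.G.map (cokernel.π i) ≫ f' = D.r N := hf'
          have : Epi (D.G.map (cokernel.π i) ≫ f') := by rw [h6]; exact hre
          exact epi_of_epi (D.G.map (cokernel.π i)) f'
        exact (D.G_pure _ hq).quot f'
      · exact Pure.ext hZ hses (pure_of_simple hSs hTS) hq

/-- The image of `r` is pure. -/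
theorem pure_image (hZ : IsFinite k Z)
    (hext : ∀ {S : ShortComplex Z}, S.ShortExact → Tr S.X₁ → Tr S.X₃ → Tr S.X₂) (N : Z) :
    Pure Tr (Abelian.image (D.r N)) := by
  refine D.pure_of_noquot hZ _ fun T p hp hT => ?_
  let u : Abelian.image (D.r N) ⟶ N := Abelian.image.ι (D.r N)
  let l : N ⟶ pushout u p := pushout.inl u p
  let r : T ⟶ pushout u p := pushout.inr u p
  have hlr : u ≫ l = p ≫ r := pushout.condition
  have hr : Mono r := inferInstanceAs (Mono (pushout.inr u p))
  let q₀ : N ⟶ cokernel r := l ≫ cokernel.π r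
  have hq₀ : Epi q₀ := by
    rw [Preadditive.epi_iff_cancel_zero]
    intro W t ht
    have h1 : cokernel.π r ≫ t = 0 := by
      apply pushout.hom_ext
      · rw [comp_zero, ← ht, Category.assoc]
      · rw [comp_zero, ← Category.assoc]
        change (r ≫ cokernel.π r) ≫ t = 0
        rw [cokernel.condition, zero_comp]
    rw [← cancel_epi (cokernel.π r), h1, comp_zero]
  have hzq : D.r N ≫ q₀ = 0 := by
    have h2 : u ≫ q₀ = 0 := by
      change u ≫ l ≫ cokernel.π r = 0
      rw [← Category.assoc, hlr, Category.assoc, cokernel.condition, comp_zero]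
    calc D.r N ≫ q₀ = (Abelian.factorThruImage (D.r N) ≫ u) ≫ q₀ := by
          rw [Abelian.image.fac]
      _ = 0 := by rw [Category.assoc, h2, comp_zero]
  have hc : Tr (cokernel r) := by
    have h3 : Epi (cokernel.desc (D.r N) q₀ hzq) := by
      have : Epi (cokernel.π (D.r N) ≫ cokernel.desc (D.r N) q₀ hzq) := by
        rw [cokernel.π_desc]; exact hq₀
      exact epi_of_epi (cokernel.π (D.r N)) _
    exact hTr.quot (cokernel.desc (D.r N) q₀ hzq) (D.tr_coker N)
  have hP : Tr (pushout u p) := hext (Fam.ses_mono r) hT hc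
  have h4 : D.r N ≫ l = 0 := by
    rw [← D.r_nat, (D.r_zero _).2 hP, comp_zero]
  have h5 : u ≫ l = 0 := by
    rw [← cancel_epi (Abelian.factorThruImage (D.r N)), comp_zero, ← Category.assoc,
      Abelian.image.fac, h4]
  have h6 : p = 0 := by
    rw [← cancel_mono r, ← hlr, h5, zero_comp]
  rw [IsZero.iff_id_eq_zero, ← cancel_epi p, h6, zero_comp, zero_comp]

end Det

/-- A pure subobject with quotient in `Tr` and a subobject in `Tr` with pure quotient are
complements of each other. -/
theorem isIso_desc (hZ : IsFinite k Z) {N K I : Z} (u : K ⟶ N) (v : I ⟶ N) [Mono u] [Mono v]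
    (hK : Pure Tr K) (hKc : Tr (cokernel u)) (hI : Tr I) (hIc : Pure Tr (cokernel v)) :
    IsIso (biprod.desc v u) := by
  have he : Epi (biprod.desc v u) := by
    apply Preadditive.epi_of_cokernel_zero
    let c : N ⟶ cokernel (biprod.desc v u) := cokernel.π (biprod.desc v u)
    have hv : v ≫ c = 0 := by
      have h : biprod.desc v u ≫ c = 0 := cokernel.condition (biprod.desc v u)
      have h2 : biprod.inl ≫ biprod.desc v u = v := biprod.inl_desc v u
      calc v ≫ c = (biprod.inl ≫ biprod.desc v u) ≫ c := congrArg (· ≫ c) h2.symm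
        _ = 0 := by rw [Category.assoc, h, comp_zero]
    have hu : u ≫ c = 0 := by
      have h : biprod.desc v u ≫ c = 0 := cokernel.condition (biprod.desc v u)
      have h2 : biprod.inr ≫ biprod.desc v u = u := biprod.inr_desc v u
      calc u ≫ c = (biprod.inr ≫ biprod.desc v u) ≫ c := congrArg (· ≫ c) h2.symm
        _ = 0 := by rw [Category.assoc, h, comp_zero]
    have h1 : Epi (cokernel.desc v c hv) := by
      have : Epi (cokernel.π v ≫ cokernel.desc v c hv) := by
        rw [cokernel.π_desc]; infer_instance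
      exact epi_of_epi (cokernel.π v) _
    have h2 : Epi (cokernel.desc u c hu) := by
      have : Epi (cokernel.π u ≫ cokernel.desc u c hu) := by
        rw [cokernel.π_desc]; infer_instance
      exact epi_of_epi (cokernel.π u) _
    have h3 : Pure Tr (cokernel (biprod.desc v u)) := hIc.quot (cokernel.desc v c hv)
    have h4 : Tr (cokernel (biprod.desc v u)) := hTr.quot (cokernel.desc u c hu) hKc
    exact (isZero_of_pure_tr hZ h3 h4).eq_of_tgt _ _
  have hm : Mono (biprod.desc v u) := by
    apply Preadditive.mono_of_kernel_zero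
    let κ : kernel (biprod.desc v u) ⟶ I ⊞ K := kernel.ι (biprod.desc v u)
    have hκ : (κ ≫ biprod.fst) ≫ v + (κ ≫ biprod.snd) ≫ u = 0 := by
      have hd : ∀ {W : Z} (x : W ⟶ I ⊞ K),
          x ≫ biprod.desc v u = (x ≫ biprod.fst) ≫ v + (x ≫ biprod.snd) ≫ u := by
        intro W x
        rw [biprod.desc_eq, Preadditive.comp_add, Category.assoc, Category.assoc]
      exact (hd κ).symm.trans (kernel.condition (biprod.desc v u))
    have h1 : Mono (κ ≫ biprod.fst) := by
      rw [Preadditive.mono_iff_cancel_zero]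
      intro W t ht
      have h2 : t ≫ (κ ≫ biprod.snd) = 0 := by
        rw [← cancel_mono u, zero_comp]
        have h3 := congrArg (fun f => t ≫ f) hκ
        simp only [Preadditive.comp_add, comp_zero] at h3
        rw [← Category.assoc t (κ ≫ biprod.fst) v, ht, zero_comp, zero_add] at h3
        rw [Category.assoc]
        exact h3
      rw [← cancel_mono κ, zero_comp]
      apply biprod.hom_ext
      · rw [zero_comp, Category.assoc, ht]
      · rw [zero_comp, Category.assoc, h2]
    have h2 : Mono (κ ≫ biprod.snd) := by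
      rw [Preadditive.mono_iff_cancel_zero]
      intro W t ht
      have h2 : t ≫ (κ ≫ biprod.fst) = 0 := by
        rw [← cancel_mono v, zero_comp]
        have h3 := congrArg (fun f => t ≫ f) hκ
        simp only [Preadditive.comp_add, comp_zero] at h3
        rw [← Category.assoc t (κ ≫ biprod.snd) u, ht, zero_comp, add_zero] at h3
        rw [Category.assoc]
        exact h3
      rw [← cancel_mono κ, zero_comp]
      apply biprod.hom_ext
      · rw [zero_comp, Category.assoc, h2]
      · rw [zero_comp, Category.assoc, ht]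
    have h3 : Tr (kernel (biprod.desc v u)) := hTr.sub (κ ≫ biprod.fst) hI
    have h4 : Pure Tr (kernel (biprod.desc v u)) := hK.sub (κ ≫ biprod.snd)
    exact (isZero_of_pure_tr hZ h4 h3).eq_of_src _ _
  exact isIso_of_mono_of_epi _

/-- Every object is the sum of an object of `Tr` and a pure object. -/
theorem exists_split (hZ : IsFinite k Z)
    (hext : ∀ {S : ShortComplex Z}, S.ShortExact → Tr S.X₁ → Tr S.X₃ → Tr S.X₂) (D : Det Tr)
    (N : Z) :
    ∃ (T : Z) (a : N ⟶ T) (b : T ⟶ N), Tr T ∧ b ≫ a = 𝟙 T ∧ Thru (Pure Tr) (𝟙 N - a ≫ b) := by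
  let K : Z := Abelian.image (D.r N)
  let u : K ⟶ N := Abelian.image.ι (D.r N)
  have hK : Pure Tr K := D.pure_image hZ hext N
  have hKc : Tr (cokernel u) := by
    have h0 : D.r N ≫ cokernel.π u = 0 := by
      have h1 : D.r N = Abelian.factorThruImage (D.r N) ≫ u := (Abelian.image.fac _).symm
      rw [h1, Category.assoc, cokernel.condition, comp_zero]
    have h3 : Epi (cokernel.desc (D.r N) (cokernel.π u) h0) := by
      have : Epi (cokernel.π (D.r N) ≫ cokernel.desc (D.r N) (cokernel.π u) h0) := by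
        rw [cokernel.π_desc]; infer_instance
      exact epi_of_epi (cokernel.π (D.r N)) _
    exact hTr.quot (cokernel.desc (D.r N) (cokernel.π u) h0) (D.tr_coker N)
  have h1 : D.s N ≫ D.H.map (cokernel.π u) = 0 := by
    rw [← D.s_nat, (D.s_zero _).2 hKc, comp_zero]
  obtain ⟨hm, h2⟩ := D.H_exact (Fam.ses_mono u)
  obtain ⟨t, ht⟩ := h2 (D.s N) h1
  let v : kernel t ⟶ N := kernel.ι t
  have hI : Tr (kernel t) := by
    rw [← D.s_zero]
    obtain ⟨h3, -⟩ := D.H_exact (Fam.ses_mono v)
    have h4 : D.s (kernel t) ≫ D.H.map v = 0 := by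
      rw [← D.s_nat, ← ht, ← Category.assoc, kernel.condition, zero_comp]
    have h5 : Mono (D.H.map v) := h3
    rw [← cancel_mono (D.H.map v), h4, zero_comp]
  have hIc : Pure Tr (cokernel v) :=
    (D.H_pure K hK).sub (Abelian.factorThruCoimage t)
  have hiso := isIso_desc hZ u v hK hKc hI hIc
  refine ⟨kernel t, inv (biprod.desc v u) ≫ biprod.fst, v, hI, ?_,
    ⟨K, inv (biprod.desc v u) ≫ biprod.snd, u, hK, ?_⟩⟩
  · have h3 : v = biprod.inl ≫ biprod.desc v u := (biprod.inl_desc v u).symm
    have h4 : v ≫ inv (biprod.desc v u) = biprod.inl := by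
      rw [IsIso.comp_inv_eq]
      exact h3
    rw [← Category.assoc, h4, biprod.inl_fst]
  · have h3 : 𝟙 N = inv (biprod.desc v u) ≫ biprod.desc v u := (IsIso.inv_hom_id _).symm
    rw [h3]
    nth_rewrite 3 [biprod.desc_eq]
    simp only [Preadditive.comp_add, Category.assoc]
    abel

end Pool.Agent.MCH
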