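import Pool.Agent.MCH.A3
import Pool.Agent.MCH.A1
import Pool.Agent.MCH.Split
import Pool.Agent.MUG.PI2
import Pool.Agent.MCH.Del

/-!
# Rows A2 and A4: splitting off the trivial part of the objects of the center (helper27)
-/

set_option autoImplicit false
set_option linter.unusedSectionVars false

open CategoryTheory MonoidalCategory Limits Abelian

universe w v u

namespace Pool.Agent.MCH

open Pool.Agent.MUG

section Det

variable {Z : Type u} [Category.{v} Z] [Abelian Z] [MonoidalCategory Z] [MonoidalPreadditive Z]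
  [RigidCategory Z] [BraidedCategory Z]

/-- An object `q` which detects the objects of `Tr` by its double braiding gives the detecting
functors. -/
noncomputable def detOf (Tr : ObjectProperty Z) (q : Z) (hdet : ∀ N, Comm N q ↔ Tr N)
    (hp : ∀ N, Pure Tr N → Pure Tr (N ⊗ q)) (hl : ∀ N, Pure Tr N → Pure Tr (N ⊗ (ᘁq)))
    (hr : ∀ N, Pure Tr N → Pure Tr (N ⊗ (qᘁ))) : Det Tr where
  G := tensorRight q ⋙ tensorRight (ᘁq)
  H := tensorRight q ⋙ tensorRight (qᘁ)
  r N := (tensorRightHomEquiv (N ⊗ q) (ᘁq) q N).symm (dbr N q)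
  s N := tensorRightHomEquiv N q (qᘁ) (N ⊗ q) (dbr N q)
  r_nat {N M} f := by
    change ((f ▷ q) ▷ (ᘁq)) ≫ (tensorRightHomEquiv (M ⊗ q) (ᘁq) q M).symm (dbr M q) = _
    rw [← tensorRightHomEquiv_symm_naturality, dbr_nat_left]
    apply (tensorRightHomEquiv (N ⊗ q) (ᘁq) q M).injective
    rw [Equiv.apply_symm_apply, tensorRightHomEquiv_naturality, Equiv.apply_symm_apply]
  s_nat {N M} f := by
    change _ = tensorRightHomEquiv N q (qᘁ) (N ⊗ q) (dbr N q) ≫ ((f ▷ q) ▷ (qᘁ))
    rw [← tensorRightHomEquiv_naturality, ← dbr_nat_left]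
    apply (tensorRightHomEquiv N q (qᘁ) (M ⊗ q)).symm.injective
    rw [Equiv.symm_apply_apply, tensorRightHomEquiv_symm_naturality, Equiv.symm_apply_apply]
  r_zero N := by
    have h0 : (tensorRightHomEquiv (N ⊗ q) (ᘁq) q N).symm 0 = 0 := by
      change ((0 : N ⊗ q ⟶ N ⊗ q) ▷ (ᘁq)) ≫ _ = 0
      rw [MonoidalPreadditive.zero_whiskerRight, zero_comp]
    rw [← hdet, ← dbr_eq_zero]
    constructor
    · intro h
      exact (tensorRightHomEquiv (N ⊗ q) (ᘁq) q N).symm.injective (h.trans h0.symm)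
    · intro h
      rw [h]
      exact h0
  s_zero N := by
    rw [← hdet, ← dbr_eq_zero]
    exact Gen.right_zero_iff _
  G_exact {S} hS := by
    have h1 : (S.map (tensorRight q)).ShortExact := hS.map_of_exact (tensorRight q)
    have h2 : ((S.map (tensorRight q)).map (tensorRight (ᘁq))).ShortExact :=
      h1.map_of_exact (tensorRight (ᘁq))
    have := h2.epi_g
    exact ⟨h2.epi_g, fun f hf => ⟨h2.exact.desc f hf, h2.exact.g_desc f hf⟩⟩
  H_exact {S} hS := by
    have h1 : (S.map (tensorRight q)).ShortExact := hS.map_of_exact (tensorRight q)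
    have h2 : ((S.map (tensorRight q)).map (tensorRight (qᘁ))).ShortExact :=
      h1.map_of_exact (tensorRight (qᘁ))
    have := h2.mono_f
    exact ⟨h2.mono_f, fun f hf => ⟨h2.exact.lift f hf, h2.exact.lift_f f hf⟩⟩
  G_pure N hN := hl _ (hp N hN)
  H_pure N hN := hr _ (hp N hN)

end Det

set_option backward.isDefEq.respectTransparency.types false

section Center

variable {k : Type*} [Field k] {C : Type u} [Category.{v} C] [Abelian C] [Linear k C]
  [MonoidalCategory C] [MonoidalPreadditive C] [MonoidalLinear k C] [RigidCategory C]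
  [BraidedCategory C]

theorem pure_tensor_right [IsAlgClosed k] (hC : IsFinite k C) {X : Center C} (hX : jProp X)
    (N : Center C) (hN : Pure jProp N) : Pure jProp (N ⊗ X) :=
  pur_tensor_right (k := k) (center_isFinite_gen hC) jProp
    (fun e h => TensorSub.quot e.hom h) X (fun T _ hT S _ ⟨_, i, p, _, _⟩ =>
      TensorSub.quot p (TensorSub.sub i (TensorSub.tensor hT hX))) N hN

theorem pure_tensor_left [IsAlgClosed k] (hC : IsFinite k C) {X : Center C} (hX : jProp X)
    (N : Center C) (hN : Pure jProp N) : Pure jProp (X ⊗ N) :=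
  pur_tensor_left (k := k) (center_isFinite_gen hC) jProp
    (fun e h => TensorSub.quot e.hom h) X (fun T _ hT S _ ⟨_, i, p, _, _⟩ =>
      TensorSub.quot p (TensorSub.sub i (TensorSub.tensor hT hX))) N hN

/-- The double braiding with `J Q`, `Q` a separator, detects triviality. -/
theorem comm_separator (hsym : ∀ X Y : C, Comm X Y) {Q : C}
    (hQ : ∀ {V W : C} (g : V ⟶ W), (∀ f : Q ⟶ V, f ≫ g = 0) → g = 0) (N : Center C) :
    Comm N (jObj Q) ↔ jProp N := by
  constructor
  · intro h
    rw [jProp_iff_comm hsym]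
    intro V
    rw [← dbr_eq_zero] at h ⊢
    have h1 : (dbr N (jObj V)).f = 0 := by
      refine lk_zero (X := Q) (A := N.1) (Y := V) (W := N.1 ⊗ V) hQ _ fun f => ?_
      have h2 := congrArg (fun g => g.f) (dbr_nat_right N (jMap f))
      rw [h, zero_comp] at h2
      exact h2
    exact Center.ext _ _ h1
  · intro h
    exact (jProp_iff_comm hsym N).1 h Q

/-- Row A4, existence: every object of the center is the sum of a trivial and a pure object. -/
theorem exists_split_center [IsAlgClosed k] (hC : IsFinite k C) (hsym : ∀ X Y : C, Comm X Y)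
    (hL : ∀ (b : C) (L : Leib b) (Y : C), L.d Y = 0) (N : Center C) :
    ∃ (T : Center C) (a : N ⟶ T) (b : T ⟶ N), jProp T ∧ b ≫ a = 𝟙 T ∧
      Thru (Pure jProp) (𝟙 N - a ≫ b) := by
  obtain ⟨Q, -, hQ⟩ := Gen.exists_separator hC.finCat
  have hj := jProp_jObj Q
  have hZ : IsFinite k (Center C) := center_isFinite_gen hC
  exact exists_split (Tr := jProp) hZ (fun {S} hS h1 h3 => jProp_ext hsym hL hZ.unit hS h1 h3)
    (detOf jProp (jObj Q) (comm_separator hsym hQ) (fun N hN => pure_tensor_right hC hj N hN)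
      (fun N hN => pure_tensor_right hC (TensorSub.ldual hj) N hN)
      (fun N hN => pure_tensor_right hC (TensorSub.rdual hj) N hN)) N

/-- Row A4. -/
theorem exists_proj [IsAlgClosed k] (hC : IsFinite k C) (hsym : ∀ X Y : C, Comm X Y)
    (hL : ∀ (b : C) (L : Leib b) (Y : C), L.d Y = 0) :
    ∃ e : ∀ N : Center C, N ⟶ N, Proj e := by
  have hZ : IsFinite k (Center C) := center_isFinite_gen hC
  choose T a b hT hba hP using exists_split_center (k := k) hC hsym hL
  let e : ∀ N : Center C, N ⟶ N := fun N => a N ≫ b N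
  have he : ∀ N, Thru (jProp (C := C)) (e N) := fun N => ⟨T N, a N, b N, hT N, rfl⟩
  have h1e : ∀ N, Thru (Pure jProp) (𝟙 N - e N) := hP
  -- uniqueness
  have huniq : ∀ (N : Center C) (e' : N ⟶ N), Thru (jProp (C := C)) e' →
      Thru (Pure jProp) (𝟙 N - e') → e' = e N := by
    intro N e' h1 h2
    have h3 := tr_comp_pure hZ h1 (h1e N)
    have h4 := pure_comp_tr hZ h2 (he N)
    rw [Preadditive.comp_sub, Category.comp_id, sub_eq_zero] at h3
    rw [Preadditive.sub_comp, Category.id_comp, sub_eq_zero] at h4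
    rw [h3, ← h4]
  refine ⟨e, ⟨?_, ?_, ?_, ?_, ?_, ?_⟩⟩
  · intro N M f
    have h3 := tr_comp_pure hZ ((he N).comp_right f) (h1e M)
    have h4 := pure_comp_tr hZ ((h1e N).comp_right f) (he M)
    rw [Preadditive.comp_sub, Category.comp_id, sub_eq_zero] at h3
    rw [Preadditive.sub_comp, Preadditive.sub_comp, Category.id_comp, sub_eq_zero] at h4
    rw [h3, h4]
  · intro N
    have h3 := tr_comp_pure hZ (he N) (h1e N)
    rw [Preadditive.comp_sub, Category.comp_id, sub_eq_zero] at h3
    exact h3.symm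
  · intro N hN
    refine (huniq N (𝟙 N) ⟨N, 𝟙 N, 𝟙 N, hN, Category.comp_id _⟩ ?_).symm
    rw [sub_self]
    exact ⟨_, 0, 0, pure_of_isZero (isZero_zero (Center C)), comp_zero⟩
  · intro N V
    have h5 : Gen.mC V (T N) = 𝟙 (V ⊗ (T N).1) := by
      rw [Gen.mC, (jProp_iff (T N)).1 (hT N) V]
      exact hsym V (T N).1
    have h6 : (V ◁ (b N).f) ≫ Gen.mC V N = V ◁ (b N).f := by
      rw [Gen.mC_nat_right, h5, Category.id_comp]
    have h7 : (e N).f = (a N).f ≫ (b N).f := rfl
    rw [h7, MonoidalCategory.whiskerLeft_comp, Category.assoc, h6]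
  · intro V N
    refine (huniq _ _ ?_ ?_).symm
    · refine ⟨jObj V ⊗ T N, jObj V ◁ a N, jObj V ◁ b N,
        TensorSub.tensor (jProp_jObj V) (hT N), ?_⟩
      exact (MonoidalCategory.whiskerLeft_comp _ _ _).symm
    · obtain ⟨P, c, d, hPp, hcd⟩ := h1e N
      refine ⟨jObj V ⊗ P, jObj V ◁ c, jObj V ◁ d,
        pure_tensor_left hC (jProp_jObj V) P hPp, ?_⟩
      rw [← MonoidalCategory.whiskerLeft_comp, hcd]
      have h5 := (tensorLeft (jObj V)).map_sub (f := 𝟙 N) (g := e N)
      have h6 : jObj V ◁ (𝟙 N - e N) = jObj V ◁ 𝟙 N - jObj V ◁ e N := h5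
      rw [h6, MonoidalCategory.whiskerLeft_id]
  · intro V N
    refine (huniq _ _ ?_ ?_).symm
    · refine ⟨T N ⊗ jObj V, a N ▷ jObj V, b N ▷ jObj V,
        TensorSub.tensor (hT N) (jProp_jObj V), ?_⟩
      exact (comp_whiskerRight _ _ _).symm
    · obtain ⟨P, c, d, hPp, hcd⟩ := h1e N
      refine ⟨P ⊗ jObj V, c ▷ jObj V, d ▷ jObj V,
        pure_tensor_right hC (jProp_jObj V) P hPp, ?_⟩
      rw [← comp_whiskerRight, hcd]
      have h5 := (tensorRight (jObj V)).map_sub (f := 𝟙 N) (g := e N)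
      have h6 : (𝟙 N - e N) ▷ jObj V = 𝟙 N ▷ jObj V - e N ▷ jObj V := h5
      rw [h6, id_whiskerRight]

/-- Row A4, from the absence of nonzero Leibniz families of simple type. -/
theorem exists_proj_simple [IsAlgClosed k] (hC : IsFinite k C) (hsym : ∀ X Y : C, Comm X Y)
    (h : ∀ V : C, Simple V → ∀ L : Leib V, ¬ L.Nonzero) :
    ∃ e : ∀ N : Center C, N ⟶ N, Proj e :=
  exists_proj hC hsym (fun b L Y => leib_eq_zero_of_simple hC h b L Y)

end Center

end Pool.Agent.MCH
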