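import Pool.Agent.MCH.Del

/-!
# Row A6 (helper4): completeness of a maximal family of disjoint points
-/

open CategoryTheory MonoidalCategory Limits Abelian

universe w v u

set_option linter.unusedSectionVars false
set_option backward.isDefEq.respectTransparency.types false

namespace Pool.Agent.MCH

open Pool.Agent.MUG Pool.Agent.MUP

section Res

variable {C : Type u} [Category.{v} C] [Abelian C] [MonoidalCategory C] [MonoidalPreadditive C]
  [RigidCategory C] [BraidedCategory C] (hsym : ∀ X Y : C, Comm X Y)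

theorem res_aux {X X' : C} (ι : X' ⟶ X) (π : X ⟶ X') (hι : ι ≫ π = 𝟙 X') {V : C}
    (f g : V ⊗ X ⟶ V ⊗ X) (hg : (V ◁ (π ≫ ι)) ≫ g = g ≫ (V ◁ (π ≫ ι))) :
    ((V ◁ ι) ≫ f ≫ (V ◁ π)) ≫ ((V ◁ ι) ≫ g ≫ (V ◁ π)) = (V ◁ ι) ≫ (f ≫ g) ≫ (V ◁ π) := by
  have h1 : (V ◁ π) ≫ (V ◁ ι) ≫ g ≫ (V ◁ π) = g ≫ (V ◁ π) := by
    rw [← whiskerLeft_comp_assoc, ← Category.assoc, hg, Category.assoc, ← whiskerLeft_comp,
      Category.assoc, hι, Category.comp_id]
  simp only [Category.assoc]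
  rw [h1]

include hsym in
theorem res_out {X X' : C} (ι : X' ⟶ X) (π : X ⟶ X') {V : C}
    (f : V ⊗ X ⟶ V ⊗ X) (W : C) :
    out ((V ◁ ι) ≫ f ≫ (V ◁ π)) W = (V ◁ (W ◁ ι)) ≫ out f W ≫ (V ◁ (W ◁ π)) := by
  rw [← out_pre, ← out_post]

/-- Restriction of a point to a retract whose idempotent commutes with it. -/
noncomputable def Pt.res {X X' : C} (p : Pt X) (ι : X' ⟶ X) (π : X ⟶ X') (hι : ι ≫ π = 𝟙 X')
    (h : ∀ V, (V ◁ (π ≫ ι)) ≫ p.m V = p.m V ≫ (V ◁ (π ≫ ι))) : Pt X' where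
  m V := (V ◁ ι) ≫ p.m V ≫ (V ◁ π)
  iso V := by
    have := p.iso V
    have h1 : (V ◁ (π ≫ ι)) ≫ inv (p.m V) = inv (p.m V) ≫ (V ◁ (π ≫ ι)) := by
      rw [← cancel_epi (p.m V), IsIso.hom_inv_id_assoc, ← Category.assoc, ← h, Category.assoc,
        IsIso.hom_inv_id, Category.comp_id]
    refine ⟨(V ◁ ι) ≫ inv (p.m V) ≫ (V ◁ π), ?_, ?_⟩
    · rw [res_aux ι π hι _ _ h1, IsIso.hom_inv_id, Category.id_comp, ← whiskerLeft_comp, hι,
        whiskerLeft_id]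
    · rw [res_aux ι π hι _ _ (h V), IsIso.inv_hom_id, Category.id_comp, ← whiskerLeft_comp, hι,
        whiskerLeft_id]
  nat {V V'} f := by
    have h1 : (f ▷ X') ≫ (V' ◁ ι) = (V ◁ ι) ≫ (f ▷ X) := (whisker_exchange f ι).symm
    have h2 : (f ▷ X) ≫ (V' ◁ π) = (V ◁ π) ≫ (f ▷ X') := (whisker_exchange f π).symm
    rw [← Category.assoc, h1, Category.assoc, ← Category.assoc (f ▷ X), p.nat, Category.assoc,
      h2]
    simp only [Category.assoc]
  mul V W := by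
    rw [res_out hsym, p.mul]
    have h1 : (V ◁ (W ◁ π)) ≫ (V ◁ ((W ◁ ι) ≫ p.m W ≫ (W ◁ π))) =
        (V ◁ p.m W) ≫ (V ◁ (W ◁ π)) := by
      rw [← whiskerLeft_comp, ← whiskerLeft_comp, ← whiskerLeft_comp_assoc, ← Category.assoc, h W,
        Category.assoc, ← whiskerLeft_comp, Category.assoc, hι, Category.comp_id]
    simp only [Category.assoc]
    rw [reassoc_of% h1]
    have h2 : ((V ⊗ W) ◁ ι) ≫ (α_ V W X).hom = (α_ V W X').hom ≫ (V ◁ (W ◁ ι)) :=
      associator_naturality_right _ _ _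
    have h3 : (α_ V W X).inv ≫ ((V ⊗ W) ◁ π) = (V ◁ (W ◁ π)) ≫ (α_ V W X').inv :=
      (associator_inv_naturality_right _ _ _).symm
    rw [reassoc_of% h2, h3]

section Compl

variable {X X' : C} (ι : X' ⟶ X) (π : X ⟶ X') (hι : ι ≫ π = 𝟙 X') (p q : Pt X)
  (hp : ∀ V, (V ◁ (π ≫ ι)) ≫ p.m V = p.m V ≫ (V ◁ (π ≫ ι)))
  (hq : ∀ V, (V ◁ (π ≫ ι)) ≫ q.m V = q.m V ≫ (V ◁ (π ≫ ι)))

theorem res_ι (V : C) : (V ◁ ι) ≫ p.m V = (p.res hsym ι π hι hp).m V ≫ (V ◁ ι) := by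
  change (V ◁ ι) ≫ p.m V = ((V ◁ ι) ≫ p.m V ≫ (V ◁ π)) ≫ (V ◁ ι)
  rw [Category.assoc, Category.assoc, ← whiskerLeft_comp, ← hp, ← whiskerLeft_comp_assoc,
    ← Category.assoc, hι, Category.id_comp]

theorem co_res (h : Co p q) : Co (p.res hsym ι π hι hp) (q.res hsym ι π hι hq) := by
  intro V W
  have h0 : out (p.m V) W ≫ (V ◁ q.m W) = (V ◁ q.m W) ≫ out (p.m V) W := h V W
  have h1 : ∀ W, (W ◁ π) ≫ (W ◁ ι) ≫ q.m W ≫ (W ◁ π) = q.m W ≫ (W ◁ π) := fun W => by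
    rw [← whiskerLeft_comp_assoc, ← Category.assoc, hq, Category.assoc, ← whiskerLeft_comp,
      Category.assoc, hι, Category.comp_id]
  have h2 : (V ◁ (W ◁ π)) ≫ (V ◁ ((W ◁ ι) ≫ q.m W ≫ (W ◁ π))) =
      (V ◁ q.m W) ≫ (V ◁ (W ◁ π)) := by
    rw [← whiskerLeft_comp, ← whiskerLeft_comp, h1]
  have h3 : (V ◁ (W ◁ (π ≫ ι))) ≫ out (p.m V) W = out (p.m V) W ≫ (V ◁ (W ◁ (π ≫ ι))) := by
    rw [out_pre, out_post, hp]
  change out ((V ◁ ι) ≫ p.m V ≫ (V ◁ π)) W ≫ (V ◁ ((W ◁ ι) ≫ q.m W ≫ (W ◁ π))) =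
    (V ◁ ((W ◁ ι) ≫ q.m W ≫ (W ◁ π))) ≫ out ((V ◁ ι) ≫ p.m V ≫ (V ◁ π)) W
  rw [res_out hsym]
  simp only [Category.assoc]
  rw [h2, reassoc_of% h0]
  have h4 : (V ◁ ((W ◁ ι) ≫ q.m W ≫ (W ◁ π))) ≫ (V ◁ (W ◁ ι)) =
      (V ◁ (W ◁ ι)) ≫ (V ◁ q.m W) := by
    rw [← whiskerLeft_comp, ← whiskerLeft_comp]
    congr 1
    exact (res_ι hsym ι π hι q hq W).symm
  rw [reassoc_of% h4]

variable {e : ∀ N : Center C, N ⟶ N} (he : Proj e)

include he in
theorem del_res (h : Co p q) (h' : Co (p.res hsym ι π hι hp) (q.res hsym ι π hι hq))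
    (h0 : ι ≫ del hsym e p q h = 0) :
    del hsym e (p.res hsym ι π hι hp) (q.res hsym ι π hι hq) h' = 0 := by
  have h1 := del_nat hsym he h' h ι (res_ι hsym ι π hι p hp) (res_ι hsym ι π hι q hq)
  rw [h0] at h1
  have h2 := congrArg (fun f => f ≫ π) h1
  simp only [zero_comp, Category.assoc, hι, Category.comp_id] at h2
  exact h2.symm

end Compl

variable {e : ∀ N : Center C, N ⟶ N} (he : Proj e) {n : ℕ} {X : C}

/-- Row A6. -/
theorem complete (he : Proj e)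
    (hmax : ∀ (X' : C) (x' : Fin (n + 1) → Pt X') (co' : ∀ i j, Co (x' i) (x' j)),
      (∀ i j, i ≠ j → del hsym e (x' i) (x' j) (co' i j) = 0) → 𝟙 X' = 0)
    (x : Fin n → Pt X) (co : ∀ i j, Co (x i) (x j))
    (dis : ∀ i j, i ≠ j → del hsym e (x i) (x j) (co i j) = 0) (z : Pt X)
    (hz : ∀ i, Co (x i) z) : ∑ i, del hsym e (x i) z (hz i) = 𝟙 X := by
  classical
  have hz' : ∀ i, Co z (x i) := fun i => (hz i).symm hsym
  have orth : ∀ i j, i ≠ j → del hsym e (x i) z (hz i) ≫ del hsym e (x j) z (hz j) = 0 := by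
    intro i j hij
    rw [← del_mul hsym he (co i j) (hz i) (hz j), dis i j hij, comp_zero]
  let S : X ⟶ X := ∑ i, del hsym e (x i) z (hz i)
  have hSi : ∀ i, S ≫ del hsym e (x i) z (hz i) = del hsym e (x i) z (hz i) := by
    intro i
    rw [Preadditive.sum_comp, Finset.sum_eq_single i]
    · exact del_idem hsym he (hz i)
    · intro j _ hj
      exact orth j i hj
    · intro h
      exact absurd (Finset.mem_univ i) h
  have hS : S ≫ S = S := by
    conv_lhs => rw [show S ≫ S = S ≫ ∑ i, del hsym e (x i) z (hz i) from rfl,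
      Preadditive.comp_sum]
    exact Finset.sum_congr rfl fun i _ => hSi i
  let E : X ⟶ X := 𝟙 X - S
  have hE : E ≫ E = E := by
    simp only [E, Preadditive.sub_comp, Preadditive.comp_sub, Category.id_comp,
      Category.comp_id, hS, sub_self, sub_zero]
  have hEi : ∀ i, E ≫ del hsym e (x i) z (hz i) = 0 := by
    intro i
    simp only [E, Preadditive.sub_comp, Category.id_comp, hSi, sub_self]
  obtain ⟨X', ι, π, hι, hπ⟩ := IsIdempotentComplete.idempotents_split X E hE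
  have hιE : ι ≫ E = ι := by
    rw [← hπ, ← Category.assoc, hι, Category.id_comp]
  have hcomm : ∀ r : Pt X, (∀ i V, (V ◁ del hsym e (x i) z (hz i)) ≫ r.m V =
      r.m V ≫ (V ◁ del hsym e (x i) z (hz i))) → ∀ V, (V ◁ (π ≫ ι)) ≫ r.m V =
        r.m V ≫ (V ◁ (π ≫ ι)) := by
    intro r hr V
    have h1 : (V ◁ S) ≫ r.m V = r.m V ≫ (V ◁ S) := by
      have h2 : V ◁ S = ∑ i, V ◁ del hsym e (x i) z (hz i) :=
        whiskerLeft_sum V _ _
      rw [h2, Preadditive.sum_comp, Preadditive.comp_sum]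
      exact Finset.sum_congr rfl fun i _ => hr i V
    rw [hπ]
    have h3 : V ◁ E = 𝟙 _ - V ◁ S := by
      rw [show E = 𝟙 X - S from rfl, sub_eq_add_neg, MonoidalPreadditive.whiskerLeft_add,
        whiskerLeft_id, cen_whiskerLeft_neg, ← sub_eq_add_neg]
    rw [h3, Preadditive.sub_comp, Preadditive.comp_sub, h1, Category.id_comp, Category.comp_id]
  have hx : ∀ k V, (V ◁ (π ≫ ι)) ≫ (x k).m V = (x k).m V ≫ (V ◁ (π ≫ ι)) := fun k =>
    hcomm (x k) fun i V => del_comm hsym he (hz i) (co i k) (hz' k) V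
  have hzc : ∀ V, (V ◁ (π ≫ ι)) ≫ z.m V = z.m V ≫ (V ◁ (π ≫ ι)) :=
    hcomm z fun i V => del_comm hsym he (hz i) (hz i) (Co.refl hsym z) V
  let y : Fin (n + 1) → Pt X := Fin.cons z x
  have hy : ∀ k V, (V ◁ (π ≫ ι)) ≫ (y k).m V = (y k).m V ≫ (V ◁ (π ≫ ι)) := by
    intro k
    refine Fin.cases hzc hx k
  have cy : ∀ i j, Co (y i) (y j) := by
    intro i j
    refine Fin.cases ?_ (fun i => ?_) i
    · exact Fin.cases (Co.refl hsym z) hz' j
    · exact Fin.cases (hz i) (co i) j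
  have hdel : ∀ i j, i ≠ j → ι ≫ del hsym e (y i) (y j) (cy i j) = 0 := by
    intro i
    refine Fin.cases ?_ (fun i => ?_) i
    · intro j
      refine Fin.cases (fun h => absurd rfl h) (fun j _ => ?_) j
      have h1 : del hsym e z (x j) (cy 0 j.succ) = del hsym e (x j) z (hz j) :=
        del_symm hsym he _
      change ι ≫ del hsym e z (x j) (cy 0 j.succ) = 0
      rw [h1, ← hιE, Category.assoc, hEi, comp_zero]
    · intro j
      refine Fin.cases (fun _ => ?_) (fun j h => ?_) j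
      · change ι ≫ del hsym e (x i) z (hz i) = 0
        rw [← hιE, Category.assoc, hEi, comp_zero]
      · change ι ≫ del hsym e (x i) (x j) (co i j) = 0
        rw [dis i j (fun h' => h (by rw [h'])), comp_zero]
  have h1 := hmax X' (fun k => (y k).res hsym ι π hι (hy k))
    (fun i j => co_res hsym ι π hι (y i) (y j) (hy i) (hy j) (cy i j))
    (fun i j hij => del_res hsym ι π hι (y i) (y j) (hy i) (hy j) he (cy i j) _ (hdel i j hij))
  have h2 : E = 0 := by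
    rw [← hπ, ← Category.comp_id π, h1, comp_zero, zero_comp]
  have h3 : 𝟙 X - S = 0 := h2
  exact (sub_eq_zero.1 h3).symm

/-- Row A6, in the form used by A8. -/
theorem a6 (he : Proj e)
    (hmax : ∀ (X' : C), 𝟙 X' ≠ 0 → ∀ (x' : Fin (n + 1) → Pt X') (hx' : ∀ i j, Co (x' i) (x' j)),
      (∀ i j, i ≠ j → del hsym e (x' i) (x' j) (hx' i j) = 0) → False)
    (x : Fin n → Pt X) (hx : ∀ i j, Co (x i) (x j))
    (hd : ∀ i j, i ≠ j → del hsym e (x i) (x j) (hx i j) = 0) (z : Pt X)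
    (hz : ∀ i, Co (x i) z) : ∑ i, del hsym e (x i) z (hz i) = 𝟙 X :=
  complete hsym he (fun X' x' co' h => by
    by_contra h1
    exact hmax X' h1 x' co' h) x hx hd z hz

end Res

end Pool.Agent.MCH
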