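import Pool.Agent.MCH.Pts
import Pool.Agent.MUG.CF2
import Pool.Agent.MUG.Dim

/-!
# Row A7: independence of disjoint points and the bound on their number (helper54)

The points are those of `MCH/Pts.lean`. Two points on `X` are disjoint when no nonzero morphism
to `X` equalises them. Pairwise commuting, pairwise disjoint points are independent (Dedekind),
so their number on a nonzero object is bounded.
-/

open CategoryTheory MonoidalCategory Limits Abelian

universe w v u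

set_option linter.unusedSectionVars false
set_option backward.isDefEq.respectTransparency.types false

namespace Pool.Agent.MCH

open Pool.Agent.MUG Pool.Agent.MUP

section Disj

variable {C : Type u} [Category.{v} C] [Abelian C] [MonoidalCategory C] [BraidedCategory C]

/-- Two points are disjoint: only the zero morphism equalises them. -/
def Disj {X : C} (p q : Pt X) : Prop :=
  ∀ ⦃Y : C⦄ (g : Y ⟶ X), (∀ V, (V ◁ g) ≫ p.m V = (V ◁ g) ≫ q.m V) → g = 0

theorem Disj.symm {X : C} {p q : Pt X} (h : Disj p q) : Disj q p :=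
  fun _ g hg => h g fun V => (hg V).symm

end Disj

section OutAssoc

variable {C : Type u} [Category.{v} C] [MonoidalCategory C] [BraidedCategory C]

theorem swp_unit (V X : C) : swp V (𝟙_ C) X ≫ (λ_ (V ⊗ X)).hom = V ◁ (λ_ X).hom := by
  unfold swp
  simp

theorem swp_unit' (V X : C) : (λ_ (V ⊗ X)).inv ≫ swp (𝟙_ C) V X = V ◁ (λ_ X).inv := by
  unfold swp
  simp

theorem out_unit {V X X' : C} (f : V ⊗ X ⟶ V ⊗ X') :
    out f (𝟙_ C) = (V ◁ (λ_ X).hom) ≫ f ≫ (V ◁ (λ_ X').inv) := by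
  unfold out
  rw [← swp_unit, ← swp_unit', Category.assoc, ← leftUnitor_naturality_assoc]
  simp

theorem swp_tensor (V W W' X : C) :
    swp V (W ⊗ W') X = (V ◁ (α_ W W' X).hom) ≫ swp V W (W' ⊗ X) ≫ (W ◁ swp V W' X) ≫
      (α_ W W' (V ⊗ X)).inv := by
  unfold swp
  simp [BraidedCategory.braiding_tensor_right_hom]

theorem swp_tensor' (V W W' X : C) :
    swp (W ⊗ W') V X = (α_ W W' (V ⊗ X)).hom ≫ (W ◁ swp W' V X) ≫ swp W V (W' ⊗ X) ≫
      (V ◁ (α_ W W' X).inv) := by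
  unfold swp
  simp [BraidedCategory.braiding_tensor_left_hom]

theorem out_tensor {V X X' : C} (f : V ⊗ X ⟶ V ⊗ X') (W W' : C) :
    out f (W ⊗ W') = (V ◁ (α_ W W' X).hom) ≫ out (out f W') W ≫ (V ◁ (α_ W W' X').inv) := by
  unfold out
  rw [swp_tensor, swp_tensor']
  simp

end OutAssoc

section Mate

variable {C : Type u} [Category.{v} C] [MonoidalCategory C] [RigidCategory C]

/-- `Uᘁ ⊗ (U ⊗ X) ⟶ X`. -/
def capU (U X : C) : Uᘁ ⊗ (U ⊗ X) ⟶ X :=
  (α_ (Uᘁ) U X).inv ≫ (ε_ U (Uᘁ) ▷ X) ≫ (λ_ X).hom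

theorem out_cap [BraidedCategory C] {V X : C} (f : V ⊗ X ⟶ V ⊗ X) (U : C) :
    (V ◁ capU U X) ≫ f = out (out f U) (Uᘁ) ≫ (V ◁ capU U X) := by
  have h1 := out_nat f (ε_ U (Uᘁ))
  rw [out_unit, out_tensor] at h1
  unfold capU
  have h2 : (V ◁ (ε_ U (Uᘁ) ▷ X)) ≫ (V ◁ (λ_ X).hom) ≫ f = ((V ◁ (α_ (Uᘁ) U X).hom) ≫
      out (out f U) (Uᘁ) ≫ (V ◁ (α_ (Uᘁ) U X).inv)) ≫ (V ◁ (ε_ U (Uᘁ) ▷ X)) ≫
      (V ◁ (λ_ X).hom) := by
    rw [← Category.assoc _ _ (V ◁ (λ_ X).hom), ← h1]
    simp only [Category.assoc]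
    rw [← whiskerLeft_comp, Iso.inv_hom_id, whiskerLeft_id, Category.comp_id]
  simp only [whiskerLeft_comp, Category.assoc]
  rw [h2]
  simp only [Category.assoc]
  rw [← whiskerLeft_comp_assoc, Iso.inv_hom_id, whiskerLeft_id, Category.id_comp]

theorem eq_zero_of_cap [Abelian C] [MonoidalPreadditive C] {U X Y : C} (a : Y ⟶ U ⊗ X)
    (h : ((Uᘁ) ◁ a) ≫ capU U X = 0) : a = 0 := by
  apply (tensorLeftHomEquiv Y U (Uᘁ) X).symm.injective
  have h0 : (tensorLeftHomEquiv Y U (Uᘁ) X).symm (0 : Y ⟶ U ⊗ X) = 0 := by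
    change (Uᘁ) ◁ (0 : Y ⟶ U ⊗ X) ≫ _ = 0
    rw [MonoidalPreadditive.whiskerLeft_zero, zero_comp]
  rw [h0]
  exact h

end Mate

section Dedekind

variable {C : Type u} [Category.{v} C] [Abelian C] [MonoidalCategory C] [MonoidalPreadditive C]
  [RigidCategory C] [BraidedCategory C] (hsym : ∀ X Y : C, Comm X Y)

theorem out_sum {V X X' : C} {ι : Type*} (s : Finset ι) (f : ι → (V ⊗ X ⟶ V ⊗ X')) (W : C) :
    out (∑ i ∈ s, f i) W = ∑ i ∈ s, out (f i) W := by
  unfold out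
  rw [CategoryTheory.whiskerLeft_sum, Preadditive.sum_comp, Preadditive.comp_sum]

theorem out_zero (V X X' W : C) : out (0 : V ⊗ X ⟶ V ⊗ X') W = 0 := by
  unfold out
  rw [MonoidalPreadditive.whiskerLeft_zero, zero_comp, comp_zero]

include hsym

/-- **Dedekind independence** of pairwise commuting, pairwise disjoint points. -/
theorem dedekind {X : C} : ∀ (n : ℕ) (x : Fin n → Pt X) (_ : ∀ i j, Co (x i) (x j))
    (_ : ∀ i j, i ≠ j → Disj (x i) (x j)) {Y : C} (a : Fin n → (Y ⟶ X))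
    (_ : ∀ V, ∑ j, (V ◁ a j) ≫ (x j).m V = 0), ∀ j, a j = 0 := by
  intro n
  induction n with
  | zero => exact fun _ _ _ _ _ _ j => j.elim0
  | succ n ih =>
    intro x hc hd Y a h
    -- the coefficients of the shorter relation
    have key : ∀ (U : C) (j : Fin n), ((Uᘁ) ◁ ((U ◁ a j.castSucc) ≫
        ((x j.castSucc).m U - (x (Fin.last n)).m U))) ≫ capU U X = 0 := by
      intro U
      refine ih (fun j => x j.castSucc) (fun i j => hc _ _)
        (fun i j hij => hd _ _ fun e => hij (Fin.castSucc_injective n e)) _ ?_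
      intro V
      -- relation at `V ⊗ U`
      have R1 : ∑ j, (V ◁ (U ◁ a j)) ≫ out ((x j).m V) U ≫ (V ◁ (x j).m U) = 0 := by
        have h1 := h (V ⊗ U)
        have h2 : (α_ V U Y).inv ≫ (∑ j, ((V ⊗ U) ◁ a j) ≫ (x j).m (V ⊗ U)) ≫
            (α_ V U X).hom = 0 := by rw [h1, zero_comp, comp_zero]
        rw [Preadditive.sum_comp, Preadditive.comp_sum] at h2
        rw [← h2]
        refine Finset.sum_congr rfl fun j _ => ?_
        rw [(x j).mul]
        simp
      have R2 : ∑ j, (V ◁ (U ◁ a j)) ≫ out ((x j).m V) U = 0 := by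
        have h1 : out (∑ j, (V ◁ a j) ≫ (x j).m V) U = out 0 U := by rw [h V]
        rw [out_sum, out_zero] at h1
        rw [← h1]
        exact Finset.sum_congr rfl fun j _ => out_pre _ _ _
      have R3 : ∑ j, (V ◁ ((U ◁ a j) ≫ ((x j).m U - (x (Fin.last n)).m U))) ≫
          out ((x j).m V) U = 0 := by
        have h1 : (∑ j, (V ◁ (U ◁ a j)) ≫ out ((x j).m V) U ≫ (V ◁ (x j).m U)) -
            (∑ j, (V ◁ (U ◁ a j)) ≫ out ((x j).m V) U) ≫ (V ◁ (x (Fin.last n)).m U) = 0 := by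
          rw [R1, R2, zero_comp, sub_zero]
        rw [Preadditive.sum_comp, ← Finset.sum_sub_distrib] at h1
        rw [← h1]
        refine Finset.sum_congr rfl fun j _ => ?_
        have c1 : out ((x j).m V) U ≫ (V ◁ (x j).m U) = (V ◁ (x j).m U) ≫ out ((x j).m V) U :=
          hc j j V U
        have c2 : out ((x j).m V) U ≫ (V ◁ (x (Fin.last n)).m U) =
            (V ◁ (x (Fin.last n)).m U) ≫ out ((x j).m V) U := hc j (Fin.last n) V U
        have hs : V ◁ ((x j).m U - (x (Fin.last n)).m U) =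
            V ◁ (x j).m U - V ◁ (x (Fin.last n)).m U :=
          (tensorLeft V).map_sub
        rw [Category.assoc, c1, c2, whiskerLeft_comp, hs,
          Preadditive.comp_sub, Preadditive.sub_comp, Category.assoc, Category.assoc]
      rw [Fin.sum_univ_castSucc, sub_self, comp_zero, MonoidalPreadditive.whiskerLeft_zero,
        zero_comp, add_zero] at R3
      have R4 : out (∑ j : Fin n, (V ◁ ((U ◁ a j.castSucc) ≫
          ((x j.castSucc).m U - (x (Fin.last n)).m U))) ≫ out ((x j.castSucc).m V) U) (Uᘁ : C) ≫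
            (V ◁ capU U X) = out 0 (Uᘁ : C) ≫ (V ◁ capU U X) := by rw [R3]
      rw [out_zero, zero_comp, out_sum, Preadditive.sum_comp] at R4
      rw [← R4]
      refine Finset.sum_congr rfl fun j _ => ?_
      rw [whiskerLeft_comp, Category.assoc, out_cap, ← Category.assoc, out_pre]
    have h1 : ∀ j : Fin n, a j.castSucc = 0 := by
      intro j
      refine hd j.castSucc (Fin.last n) (Fin.castSucc_lt_last j).ne _ fun U => ?_
      have h2 := eq_zero_of_cap _ (key U j)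
      rw [Preadditive.comp_sub] at h2
      exact sub_eq_zero.mp h2
    have h2 : a (Fin.last n) = 0 := by
      have h3 := h (𝟙_ C)
      rw [Fin.sum_univ_castSucc] at h3
      have h4 : ∑ j : Fin n, (𝟙_ C ◁ a j.castSucc) ≫ (x j.castSucc).m (𝟙_ C) = 0 :=
        Finset.sum_eq_zero fun j _ => by
          rw [h1 j, MonoidalPreadditive.whiskerLeft_zero, zero_comp]
      rw [h4, zero_add] at h3
      have := (x (Fin.last n)).iso (𝟙_ C)
      have h5 : 𝟙_ C ◁ a (Fin.last n) = 0 := by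
        rw [← cancel_mono ((x (Fin.last n)).m (𝟙_ C)), h3, zero_comp]
      have h6 : a (Fin.last n) = (λ_ Y).inv ≫ (𝟙_ C ◁ a (Fin.last n)) ≫ (λ_ X).hom := by simp
      rw [h6, h5, zero_comp, comp_zero]
    intro j
    rcases Fin.eq_castSucc_or_eq_last j with ⟨i, rfl⟩ | rfl
    · exact h1 i
    · exact h2

omit hsym in
/-- A relation at a separator holds everywhere. -/
theorem rel_of_separator {Q : C}
    (hQ : ∀ {V W : C} (g : V ⟶ W), (∀ f : Q ⟶ V, f ≫ g = 0) → g = 0)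
    {X Y : C} {n : ℕ} (x : Fin n → Pt X) (a : Fin n → (Y ⟶ X))
    (h : ∑ j, (Q ◁ a j) ≫ (x j).m Q = 0) (V : C) : ∑ j, (V ◁ a j) ≫ (x j).m V = 0 := by
  refine Gen.rk_zero hQ _ fun f => ?_
  have h1 : (f ▷ Y) ≫ ∑ j, (V ◁ a j) ≫ (x j).m V =
      (∑ j, (Q ◁ a j) ≫ (x j).m Q) ≫ (f ▷ X) := by
    rw [Preadditive.comp_sum, Preadditive.sum_comp]
    refine Finset.sum_congr rfl fun j _ => ?_
    rw [← Category.assoc, ← whisker_exchange, Category.assoc, (x j).nat, Category.assoc]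
  rw [h1, h, zero_comp]

end Dedekind

section Bound

variable {k : Type*} [Field k] {C : Type u} [Category.{v} C] [Abelian C] [Linear k C]
  [MonoidalCategory C] [MonoidalPreadditive C] [MonoidalLinear k C] [RigidCategory C]
  [BraidedCategory C]

/-- **Row A7.** The number of pairwise commuting, pairwise disjoint points on a nonzero object is
bounded. -/
theorem artin_bound [IsAlgClosed k] (hC : IsFinite k C) (hsym : ∀ X Y : C, Comm X Y) :
    ∃ B : ℕ, ∀ X : C, 𝟙 X ≠ 0 → ∀ (n : ℕ) (x : Fin n → Pt X), (∀ i j, Co (x i) (x j)) →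
      (∀ i j, i ≠ j → Disj (x i) (x j)) → n ≤ B := by
  have hC' := hC.finCat
  obtain ⟨Q, -, hQ⟩ := Gen.exists_separator hC'
  obtain ⟨d, hd⟩ := exists_dimFun hC
  obtain ⟨F⟩ := exists_fam hC'
  refine ⟨⌊d (ᘁQ) * d Q⌋₊, fun X hX n x hc hdj => ?_⟩
  have hX0 : ¬ IsZero X := fun h => hX (h.eq_of_src _ _)
  have hdX := hd.pos hX0
  let W : C := (ᘁQ : C) ⊗ (Q ⊗ X)
  let ψ : Fin n → (X ⟶ W) := fun j => tensorLeftHomEquiv X (ᘁQ) Q (Q ⊗ X) ((x j).m Q)
  have hinj : ∀ {Y : C} (a : Fin n → (Y ⟶ X)), ∑ j, a j ≫ ψ j = 0 → ∀ j, a j = 0 := by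
    intro Y a h
    refine dedekind hsym n x hc hdj a (rel_of_separator hQ x a ?_)
    apply (tensorLeftHomEquiv Y (ᘁQ) Q (Q ⊗ X)).injective
    have h0 : tensorLeftHomEquiv Y (ᘁQ) Q (Q ⊗ X) 0 = 0 := by
      apply (tensorLeftHomEquiv Y (ᘁQ) Q (Q ⊗ X)).symm.injective
      rw [Equiv.symm_apply_apply]
      change 0 = Q ◁ (0 : Y ⟶ (ᘁQ : C) ⊗ (Q ⊗ X)) ≫ _
      rw [MonoidalPreadditive.whiskerLeft_zero, zero_comp]
    rw [h0, ← h]
    have h1 : ∀ g : Q ⊗ Y ⟶ Q ⊗ X, tensorLeftHomEquiv Y (ᘁQ) Q (Q ⊗ X) g =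
        (λ_ Y).inv ≫ (η_ (ᘁQ) Q ▷ Y) ≫ (α_ (ᘁQ) Q Y).hom ≫ ((ᘁQ) ◁ g) := fun g => rfl
    rw [h1, CategoryTheory.whiskerLeft_sum, Preadditive.comp_sum, Preadditive.comp_sum,
      Preadditive.comp_sum]
    refine Finset.sum_congr rfl fun j _ => ?_
    rw [← h1]
    apply (tensorLeftHomEquiv Y (ᘁQ) Q (Q ⊗ X)).symm.injective
    rw [Equiv.symm_apply_apply, tensorLeftHomEquiv_symm_naturality, Equiv.symm_apply_apply]
  have hm : ∀ i, (n : ℝ) * F.m k i X ≤ F.m k i W := by
    intro i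
    have := hC.hom_finite (F.P i) X
    have := hC.hom_finite (F.P i) W
    let φ : (Fin n → (F.P i ⟶ X)) →ₗ[k] (F.P i ⟶ W) :=
      { toFun := fun a => ∑ j, a j ≫ ψ j
        map_add' := fun a b => by simp [Finset.sum_add_distrib]
        map_smul' := fun c a => by simp [Finset.smul_sum] }
    have hφ : Function.Injective φ := by
      rw [← LinearMap.ker_eq_bot, LinearMap.ker_eq_bot']
      intro a ha
      funext j
      exact hinj a ha j
    have h1 := LinearMap.finrank_le_finrank_of_injective hφ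
    rw [Module.finrank_pi_fintype, Finset.sum_const, Finset.card_univ, Fintype.card_fin,
      smul_eq_mul] at h1
    exact_mod_cast h1
  have h1 : (n : ℝ) * d X ≤ d (ᘁQ) * d Q * d X := by
    have h2 : d W = d (ᘁQ) * d Q * d X := by
      rw [hd.mul, hd.mul, mul_assoc]
    rw [← h2, hd.sum F hC' X, hd.sum F hC' W, Finset.mul_sum]
    refine Finset.sum_le_sum fun i _ => ?_
    have := F.simple i
    have h3 := (hd.pos (Simple.not_isZero (F.T i))).le
    calc (n : ℝ) * (F.m k i X * d (F.T i)) = (n * F.m k i X) * d (F.T i) := by ring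
      _ ≤ F.m k i W * d (F.T i) := mul_le_mul_of_nonneg_right (hm i) h3
  have h2 : (n : ℝ) ≤ d (ᘁQ) * d Q := le_of_mul_le_mul_right h1 hdX
  exact Nat.le_floor h2

end Bound

end Pool.Agent.MCH
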