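import Pool.Agent.MCH.A8a
import Pool.Agent.MCH.A6

/-!
# Row A8 of CHEV2: the sum of a maximal family absorbs all monodromies (helper31)
-/

open CategoryTheory MonoidalCategory Limits Abelian

universe w v u

set_option linter.unusedSectionVars false
set_option backward.isDefEq.respectTransparency.types false

namespace Pool.Agent.MCH

open Pool.Agent.MUG Pool.Agent.MUP

section A8

variable {C : Type u} [Category.{v} C] [Abelian C] [MonoidalCategory C] [MonoidalPreadditive C]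
  [RigidCategory C] [BraidedCategory C] (hsym : ∀ X Y : C, Comm X Y)

/-- The point `p ⊗ Y` on `X ⊗ Y`. -/
noncomputable def tenPt {X : C} (p : Pt X) (Y : C) : Pt (X ⊗ Y) :=
  ptOf hsym (p.N hsym ⊗ jObj Y)

/-- The point of `N`, on `X ⊗ N`. -/
noncomputable def outPt (X : C) (N : Center C) : Pt (X ⊗ N.1) := ptOf hsym (jObj X ⊗ N)

theorem tenPt_m {X : C} (p : Pt X) (Y V : C) : (tenPt hsym p Y).m V = ten (p.m V) Y := by
  have h1 : (tenPt hsym p Y).m V = Gen.mC V (p.N hsym ⊗ jObj Y) := rfl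
  rw [h1, Te.mC_right hsym, mC_pt]
  rfl

theorem outPt_m (X : C) (N : Center C) (V : C) :
    (outPt hsym X N).m V = out (Gen.mC V N) X := mC_left hsym X N V

variable {hsym} in
theorem co_tenPt {X : C} {p q : Pt X} (h : Co p q) (Y : C) :
    Co (tenPt hsym p Y) (tenPt hsym q Y) := by
  intro V W
  rw [tenPt_m, tenPt_m]
  exact Te.cm_ten_ten (h V W) Y

theorem co_ten_out {X : C} (p : Pt X) (N : Center C) :
    Co (tenPt hsym p N.1) (outPt hsym X N) := by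
  intro V W
  rw [tenPt_m, outPt_m]
  exact Te.cm_ten_out hsym _ _

/-- Disjointness of `p ⊗ Y` and `q ⊗ Y`. -/
theorem eq_zero_of_ten {X : C} {p q : Pt X}
    (h : ∀ {Z : C} (g : Z ⟶ X), (∀ V, (V ◁ g) ≫ p.m V = (V ◁ g) ≫ q.m V) → g = 0) (Y : C)
    {Z : C} (g : Z ⟶ X ⊗ Y)
    (hg : ∀ V, (V ◁ g) ≫ (tenPt hsym p Y).m V = (V ◁ g) ≫ (tenPt hsym q Y).m V) : g = 0 := by
  let t : (X ⊗ Y) ⊗ (ᘁY) ⟶ X := (α_ X Y (ᘁY)).hom ≫ (X ◁ ε_ (ᘁY) Y) ≫ (ρ_ X).hom
  let g' : Z ⊗ (ᘁY) ⟶ X := (g ▷ (ᘁY)) ≫ t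
  have ht : ∀ (V : C) (f : V ⊗ X ⟶ V ⊗ X), (V ◁ t) ≫ f =
      (α_ V (X ⊗ Y) (ᘁY)).inv ≫ (ten f Y ▷ (ᘁY)) ≫ (α_ V (X ⊗ Y) (ᘁY)).hom ≫ (V ◁ t) := by
    intro V f
    have h1 : (V ◁ t) = (α_ V (X ⊗ Y) (ᘁY)).inv ≫ ((α_ V X Y).inv ▷ (ᘁY)) ≫
        (α_ (V ⊗ X) Y (ᘁY)).hom ≫ ((V ⊗ X) ◁ ε_ (ᘁY) Y) ≫ (ρ_ (V ⊗ X)).hom := by
      change V ◁ ((α_ X Y (ᘁY)).hom ≫ (X ◁ ε_ (ᘁY) Y) ≫ (ρ_ X).hom) = _
      monoidal
    rw [h1]
    unfold ten
    simp only [Category.assoc, comp_whiskerRight, Iso.hom_inv_id_assoc]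
    have h2 : ((α_ V X Y).hom ▷ (ᘁY)) ≫ ((α_ V X Y).inv ▷ (ᘁY)) = 𝟙 _ := by
      rw [← comp_whiskerRight, Iso.hom_inv_id, id_whiskerRight]
    rw [reassoc_of% h2, associator_naturality_left_assoc, ← whisker_exchange_assoc,
      rightUnitor_naturality]
  have h1 : g' = 0 := by
    apply h
    intro V
    have h2 : ∀ r : Pt X, (V ◁ g') ≫ r.m V = (α_ V Z (ᘁY)).inv ≫
        (((V ◁ g) ≫ (tenPt hsym r Y).m V) ▷ (ᘁY)) ≫ (α_ V (X ⊗ Y) (ᘁY)).hom ≫ (V ◁ t) := by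
      intro r
      change (V ◁ ((g ▷ (ᘁY)) ≫ t)) ≫ r.m V = _
      rw [whiskerLeft_comp, Category.assoc, ht, tenPt_m, comp_whiskerRight, Category.assoc,
        associator_inv_naturality_middle_assoc]
    rw [h2, h2, hg]
  apply (tensorRightHomEquiv Z (ᘁY) Y X).symm.injective
  have h3 : (tensorRightHomEquiv Z (ᘁY) Y X).symm 0 = 0 := by
    change ((0 : Z ⟶ X ⊗ Y) ▷ (ᘁY)) ≫ _ = 0
    rw [MonoidalPreadditive.zero_whiskerRight, zero_comp]
  rw [h3]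
  exact h1

variable {e : ∀ N : Center C, N ⟶ N} (he : Proj e)

include he

/-- **Row A8.** -/
theorem a8 {n : ℕ} (hmax : ∀ (X' : C), 𝟙 X' ≠ 0 → ∀ (x : Fin (n + 1) → Pt X')
    (hx : ∀ i j, Co (x i) (x j)), (∀ i j, i ≠ j → del hsym e (x i) (x j) (hx i j) = 0) → False)
    {X : C} (x : Fin n → Pt X) (hx : ∀ i j, Co (x i) (x j))
    (hd : ∀ i j, i ≠ j → del hsym e (x i) (x j) (hx i j) = 0) (V : C) (N : Center C) :
    ten (∑ i, (x i).m V) N.1 ≫ out (Gen.mC V N) X = ten (∑ i, (x i).m V) N.1 := by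
  let p : Fin n → Pt (X ⊗ N.1) := fun i => tenPt hsym (x i) N.1
  let q : Pt (X ⊗ N.1) := outPt hsym X N
  have hp : ∀ i j, Co (p i) (p j) := fun i j => co_tenPt (hx i j) N.1
  have hq : ∀ i, Co (p i) q := fun i => co_ten_out hsym (x i) N
  have hqq : Co q q := Co.refl hsym q
  let r : Fin n → Pt (X ⊗ N.1) := fun j => (p j).prod hsym q (hq j)
  have hpr : ∀ i j, Co (p i) (r j) := fun i j V W =>
    Cm.comp_right hsym (hp i j V W) (hq i V W)
  have hqr : ∀ j, Co q (r j) := fun j V W =>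
    Cm.comp_right hsym ((hq j).symm hsym V W) (hqq V W)
  have hrr : ∀ i j, Co (r i) (r j) := fun i j V W =>
    Cm.comp_left hsym (hpr i j V W) (hqr j V W)
  -- disjointness
  have hz : ∀ i j, i ≠ j → ∀ {Z : C} (g : Z ⟶ X),
      (∀ V, (V ◁ g) ≫ (x i).m V = (V ◁ g) ≫ (x j).m V) → g = 0 := by
    intro i j hij Z g hg
    rw [← del_of_co hsym he (hx i j) g hg, hd i j hij, comp_zero]
  have hzp : ∀ i j, i ≠ j → ∀ {Z : C} (g : Z ⟶ X ⊗ N.1),
      (∀ V, (V ◁ g) ≫ (p i).m V = (V ◁ g) ≫ (p j).m V) → g = 0 := by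
    intro i j hij Z g hg
    exact eq_zero_of_ten hsym (hz i j hij) N.1 g hg
  have hdp : ∀ i j, i ≠ j → del hsym e (p i) (p j) (hp i j) = 0 := by
    intro i j hij
    exact hzp i j hij _ (del_co hsym he (hp i j))
  have hdr : ∀ i j, i ≠ j → del hsym e (r i) (r j) (hrr i j) = 0 := by
    intro i j hij
    apply hzp i j hij
    intro V
    have h1 := del_co hsym he (hrr i j) V
    have h2 : IsIso (q.m V) := q.iso V
    rw [← cancel_mono (q.m V), Category.assoc, Category.assoc]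
    exact h1
  let D : Fin n → Fin n → (X ⊗ N.1 ⟶ X ⊗ N.1) := fun i j => del hsym e (p i) (r j) (hpr i j)
  have hD : ∀ i j, (V ◁ D i j) ≫ (p i).m V = (V ◁ D i j) ≫ ((p j).m V ≫ q.m V) := fun i j =>
    del_co hsym he (hpr i j) V
  have s1 : ∀ j, ∑ i, D i j = 𝟙 _ := fun j => a6 hsym he hmax p hp hdp (r j) fun i => hpr i j
  have s2 : ∀ i, ∑ j, D i j = 𝟙 _ := by
    intro i
    have h1 := a6 hsym he hmax r hrr hdr (p i) fun j => (hpr i j).symm hsym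
    rw [← h1]
    exact Finset.sum_congr rfl fun j _ => del_symm hsym he (hpr i j)
  have hwl : ∀ (f : Fin n → (X ⊗ N.1 ⟶ X ⊗ N.1)), V ◁ (∑ i, f i) = ∑ i, V ◁ f i := fun f =>
    whiskerLeft_sum V Finset.univ f
  have key : ∑ i, (p i).m V = (∑ i, (p i).m V) ≫ q.m V := by
    calc ∑ i, (p i).m V = ∑ i, (V ◁ (∑ j, D i j)) ≫ (p i).m V := by
          refine Finset.sum_congr rfl fun i _ => ?_
          rw [s2, whiskerLeft_id, Category.id_comp]
      _ = ∑ i, ∑ j, (V ◁ D i j) ≫ ((p j).m V ≫ q.m V) := by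
          refine Finset.sum_congr rfl fun i _ => ?_
          rw [hwl, Preadditive.sum_comp]
          exact Finset.sum_congr rfl fun j _ => hD i j
      _ = ∑ j, ∑ i, (V ◁ D i j) ≫ ((p j).m V ≫ q.m V) := Finset.sum_comm
      _ = ∑ j, (p j).m V ≫ q.m V := by
          refine Finset.sum_congr rfl fun j _ => ?_
          rw [← Preadditive.sum_comp, ← hwl, s1, whiskerLeft_id, Category.id_comp]
      _ = (∑ i, (p i).m V) ≫ q.m V := (Preadditive.sum_comp _ _ _).symm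
  have h1 : ∑ i, (p i).m V = ten (∑ i, (x i).m V) N.1 := by
    have h2 : ∀ i, (p i).m V = ten ((x i).m V) N.1 := fun i => tenPt_m hsym (x i) N.1 V
    simp only [h2]
    unfold ten
    rw [sum_whiskerRight, Preadditive.sum_comp, Preadditive.comp_sum]
  have h3 : q.m V = out (Gen.mC V N) X := outPt_m hsym X N V
  rw [← h3, ← h1]
  exact key.symm

end A8

end Pool.Agent.MCH
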