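import Pool.Agent.MCH.Pts

/-!
# Points on tensor products (row A8 of CHEV2; helper31)
-/

open CategoryTheory MonoidalCategory Limits Abelian

universe w v u

set_option linter.unusedSectionVars false
set_option backward.isDefEq.respectTransparency.types false

namespace Pool.Agent.MCH.Te

open Pool.Agent.MUG Pool.Agent.MUP

section Ten

variable {C : Type u} [Category.{v} C] [Abelian C] [MonoidalCategory C] [MonoidalPreadditive C]
  [RigidCategory C] [BraidedCategory C] (hsym : ∀ X Y : C, Comm X Y)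

theorem ten_id (W X V : C) : ten (𝟙 (W ⊗ X)) V = 𝟙 _ := by
  simp [ten]

theorem ten_comp {W X X' X'' : C} (f : W ⊗ X ⟶ W ⊗ X') (g : W ⊗ X' ⟶ W ⊗ X'') (V : C) :
    ten f V ≫ ten g V = ten (f ≫ g) V := by
  simp [ten]

theorem ten_nat {W X X' : C} (f : W ⊗ X ⟶ W ⊗ X') {V V' : C} (g : V ⟶ V') :
    (W ◁ (X ◁ g)) ≫ ten f V' = ten f V ≫ (W ◁ (X' ◁ g)) := by
  unfold ten
  rw [associator_inv_naturality_right_assoc, whisker_exchange_assoc, Category.assoc,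
    Category.assoc, associator_naturality_right]

theorem ten_pre {W X Y Y' : C} (g : X ⟶ Y) (f : W ⊗ Y ⟶ W ⊗ Y') (V : C) :
    (W ◁ (g ▷ V)) ≫ ten f V = ten ((W ◁ g) ≫ f) V := by
  unfold ten
  rw [associator_inv_naturality_middle_assoc, comp_whiskerRight, Category.assoc]

theorem ten_post {W X Y Y' : C} (f : W ⊗ X ⟶ W ⊗ Y) (g : Y ⟶ Y') (V : C) :
    ten f V ≫ (W ◁ (g ▷ V)) = ten (f ≫ (W ◁ g)) V := by
  unfold ten
  rw [Category.assoc, Category.assoc, ← associator_naturality_middle, comp_whiskerRight,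
    Category.assoc]

theorem ten_left {W W' X : C} (g : W ⟶ W') (f : W ⊗ X ⟶ W ⊗ X) (f' : W' ⊗ X ⟶ W' ⊗ X)
    (h : (g ▷ X) ≫ f' = f ≫ (g ▷ X)) (V : C) :
    (g ▷ (X ⊗ V)) ≫ ten f' V = ten f V ≫ (g ▷ (X ⊗ V)) := by
  unfold ten
  rw [associator_inv_naturality_left_assoc, ← comp_whiskerRight_assoc, h, comp_whiskerRight,
    Category.assoc, Category.assoc, Category.assoc, associator_naturality_left]

theorem out_left {W W' X : C} (g : W ⟶ W') (f : W ⊗ X ⟶ W ⊗ X) (f' : W' ⊗ X ⟶ W' ⊗ X)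
    (h : (g ▷ X) ≫ f' = f ≫ (g ▷ X)) (V : C) :
    (g ▷ (V ⊗ X)) ≫ out f' V = out f V ≫ (g ▷ (V ⊗ X)) := by
  unfold out
  rw [← Category.assoc, swp_nat_left, Category.assoc, ← whiskerLeft_comp_assoc, h,
    whiskerLeft_comp, Category.assoc, Category.assoc, Category.assoc, swp_nat_right]

/-- `out` of `ten` is `ten` of `out`, up to the associator. -/
theorem out_ten {V X X' : C} (f : V ⊗ X ⟶ V ⊗ X') (W Y : C) :
    out (ten f Y) W = (V ◁ (α_ W X Y).inv) ≫ ten (out f W) Y ≫ (V ◁ (α_ W X' Y).hom) := by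
  unfold out ten swp
  monoidal

theorem whisk_ten {W X X' : C} (V : C) (g : W ⊗ X ⟶ W ⊗ X') (Y : C) :
    V ◁ ten g Y = (V ◁ (α_ W X Y).inv) ≫ ten (V ◁ g) Y ≫ (V ◁ (α_ W X' Y).hom) := by
  unfold ten
  monoidal

theorem ten_ten {V X X' : C} (f : V ⊗ X ⟶ V ⊗ X') (W Y : C) :
    ten (ten f W) Y = (V ◁ (α_ X W Y).hom) ≫ ten f (W ⊗ Y) ≫ (V ◁ (α_ X' W Y).inv) := by
  unfold ten
  monoidal

theorem ten_whisk {V X X' : C} (g : X ⟶ X') (Y : C) : ten (V ◁ g) Y = V ◁ (g ▷ Y) := by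
  unfold ten
  monoidal

theorem cm_ten_ten {V W X : C} {f : V ⊗ X ⟶ V ⊗ X} {g : W ⊗ X ⟶ W ⊗ X} (h : Cm f g) (Y : C) :
    Cm (ten f Y) (ten g Y) := by
  have h' : out f W ≫ (V ◁ g) = (V ◁ g) ≫ out f W := h
  have h1 : (V ◁ (α_ W X Y).hom) ≫ (V ◁ (α_ W X Y).inv) = 𝟙 _ := by
    rw [← whiskerLeft_comp, Iso.hom_inv_id, whiskerLeft_id]
  unfold Cm
  rw [out_ten, whisk_ten]
  simp only [Category.assoc]
  rw [reassoc_of% h1, reassoc_of% h1, ← Category.assoc (ten (out f W) Y), ten_comp, h',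
    ← ten_comp, Category.assoc]

/-- The double strand. -/
theorem swp_tensor (V W X Y : C) : (V ◁ (α_ W X Y).hom) ≫ swp V W (X ⊗ Y) ≫ (W ◁ swp V X Y) =
    swp V (W ⊗ X) Y ≫ (α_ W X (V ⊗ Y)).hom := by
  unfold swp
  rw [BraidedCategory.braiding_tensor_right_hom]
  monoidal

section Sy

include hsym

theorem out_ten' {V X X' : C} (f : V ⊗ X ⟶ V ⊗ X') (W Y : C) :
    out (ten f Y) W = (V ◁ swp W X Y) ≫ ten f (W ⊗ Y) ≫ (V ◁ swp X' W Y) := by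
  have h1 : out f W = (V ◁ (β_ W X).hom) ≫ ten f W ≫ (V ◁ (β_ X' W).hom) := by
    rw [out_eq hsym]
    unfold ten
    simp only [Category.assoc]
  rw [out_ten, h1, ← ten_comp, ← ten_comp, ten_whisk, ten_whisk, ten_ten]
  unfold swp
  simp only [Category.assoc, whiskerLeft_comp]

/-- Legs `(1,3)` and `(2,4)` commute. -/
theorem cm_ten_out {V W X Y : C} (f : V ⊗ X ⟶ V ⊗ X) (g : W ⊗ Y ⟶ W ⊗ Y) :
    Cm (ten f Y) (out g X) := by
  have h1 : (V ◁ swp X W Y) ≫ (V ◁ swp W X Y) = 𝟙 _ := by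
    rw [← whiskerLeft_comp, swp_swp hsym, whiskerLeft_id]
  unfold Cm
  rw [out_ten' hsym]
  have h2 : V ◁ out g X = (V ◁ swp W X Y) ≫ (V ◁ (X ◁ g)) ≫ (V ◁ swp X W Y) := by
    unfold out
    simp only [whiskerLeft_comp]
  rw [h2]
  simp only [Category.assoc]
  rw [reassoc_of% h1, reassoc_of% h1, ← Category.assoc (ten f (W ⊗ Y)), ← ten_nat,
    Category.assoc]

theorem out_out {V Y Y' : C} (f : V ⊗ Y ⟶ V ⊗ Y') (W X : C) :
    out (out f X) W = (V ◁ (α_ W X Y).inv) ≫ out f (W ⊗ X) ≫ (V ◁ (α_ W X Y').hom) := by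
  have h1 := swp_tensor V W X Y
  have h2 : swp (W ⊗ X) V Y' ≫ (V ◁ (α_ W X Y').hom) =
      (α_ W X (V ⊗ Y')).hom ≫ (W ◁ swp X V Y') ≫ swp W V (X ⊗ Y') := by
    have h3 := swp_tensor V W X Y'
    have h4 : (swp (W ⊗ X) V Y' ≫ (V ◁ (α_ W X Y').hom)) ≫
        (swp V W (X ⊗ Y') ≫ (W ◁ swp V X Y')) = (α_ W X (V ⊗ Y')).hom := by
      rw [Category.assoc, h3, ← Category.assoc, swp_swp hsym, Category.id_comp]
    have h5 : (swp V W (X ⊗ Y') ≫ (W ◁ swp V X Y')) ≫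
        ((W ◁ swp X V Y') ≫ swp W V (X ⊗ Y')) = 𝟙 _ := by
      have h6 : (W ◁ swp V X Y') ≫ (W ◁ swp X V Y') = 𝟙 _ := by
        rw [← whiskerLeft_comp, swp_swp hsym, whiskerLeft_id]
      simp only [Category.assoc]
      rw [reassoc_of% h6, swp_swp hsym]
    rw [← h4]
    simp only [Category.assoc] at h5 ⊢
    rw [h5, Category.comp_id]
  unfold out
  simp only [Category.assoc, whiskerLeft_comp]
  rw [h2]
  have h7 : (V ◁ (α_ W X Y).inv) ≫ swp V (W ⊗ X) Y =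
      swp V W (X ⊗ Y) ≫ (W ◁ swp V X Y) ≫ (α_ W X (V ⊗ Y)).inv := by
    rw [← cancel_mono (α_ W X (V ⊗ Y)).hom, Category.assoc, ← h1]
    simp
  rw [reassoc_of% h7]
  simp

theorem out_out_swp {V Y Y' : C} (f : V ⊗ Y ⟶ V ⊗ Y') (W X : C) :
    out (out f X) W ≫ (V ◁ swp W X Y') = (V ◁ swp W X Y) ≫ out (out f W) X := by
  rw [out_out hsym, out_out hsym]
  have h1 := out_nat f (β_ W X).hom
  unfold swp
  simp only [Category.assoc, whiskerLeft_comp]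
  have h2 : (V ◁ (α_ W X Y').hom) ≫ (V ◁ (α_ W X Y').inv) = 𝟙 _ := by
    rw [← whiskerLeft_comp, Iso.hom_inv_id, whiskerLeft_id]
  have h3 : (V ◁ (α_ X W Y).hom) ≫ (V ◁ (α_ X W Y).inv) = 𝟙 _ := by
    rw [← whiskerLeft_comp, Iso.hom_inv_id, whiskerLeft_id]
  rw [reassoc_of% h2, reassoc_of% h3, reassoc_of% h1]

theorem cm_out_out {V W Y : C} {f : V ⊗ Y ⟶ V ⊗ Y} {g : W ⊗ Y ⟶ W ⊗ Y} (h : Cm f g) (X : C) :
    Cm (out f X) (out g X) := by
  have h' : out f W ≫ (V ◁ g) = (V ◁ g) ≫ out f W := h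
  have h2 : V ◁ out g X = (V ◁ swp W X Y) ≫ (V ◁ (X ◁ g)) ≫ (V ◁ swp X W Y) := by
    unfold out
    simp only [whiskerLeft_comp]
  have h3 : (V ◁ swp X W Y) ≫ out (out f X) W = out (out f W) X ≫ (V ◁ swp X W Y) :=
    (out_out_swp hsym f X W).symm
  unfold Cm
  rw [h2, ← Category.assoc (out (out f X) W), out_out_swp hsym]
  simp only [Category.assoc]
  rw [h3, ← Category.assoc (out (out f W) X), out_post, h', ← out_pre, Category.assoc]

/-- The family of `N ⊗ J V`. -/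
theorem mC_right (N : Center C) (V : C) (W : C) :
    Gen.mC W (N ⊗ jObj V) = ten (Gen.mC W N) V := by
  have h1 : ((N ⊗ jObj V).2.β W).hom = (α_ N.1 V W).hom ≫ (N.1 ◁ (β_ V W).hom) ≫
      (α_ N.1 W V).inv ≫ ((N.2.β W).hom ▷ V) ≫ (α_ W N.1 V).hom := by
    change ((Center.tensorObj N (jObj V)).2.β W).hom = _
    simp [Center.tensorObj, jObj_beta]
    rfl
  have h2 : (β_ W V).hom ≫ (β_ V W).hom = 𝟙 _ := hsym W V
  have h3 : (N.1 ◁ (β_ W V).hom) ≫ (N.1 ◁ (β_ V W).hom) = 𝟙 _ := by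
    rw [← whiskerLeft_comp, h2, whiskerLeft_id]
  unfold Gen.mC
  rw [h1]
  change (β_ W (N.1 ⊗ V)).hom ≫ _ = _
  rw [BraidedCategory.braiding_tensor_right_hom]
  simp only [Category.assoc]
  change (α_ W N.1 V).inv ≫ ((β_ W N.1).hom ▷ V) ≫ (α_ N.1 W V).hom ≫ (N.1 ◁ (β_ W V).hom) ≫
    (α_ N.1 V W).inv ≫ (α_ N.1 V W).hom ≫ (N.1 ◁ (β_ V W).hom) ≫
      (α_ N.1 W V).inv ≫ ((N.2.β W).hom ▷ V) ≫ (α_ W N.1 V).hom = _
  rw [Iso.inv_hom_id_assoc, reassoc_of% h3, Iso.hom_inv_id_assoc]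
  unfold ten
  rw [comp_whiskerRight, Category.assoc]

end Sy

end Ten

end Pool.Agent.MCH.Te
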