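import Pool.Agent.MUP.Defs
import Pool.Agent.MUG.JK
import Pool.Agent.MUG.C2
import Pool.Agent.MUG.Q4b

/-!
# Row A9: the end of the proof that a symmetric category without Leibniz families is semisimple
(helper64)
-/

open CategoryTheory MonoidalCategory Limits Abelian

universe w v u

set_option linter.unusedSectionVars false
set_option backward.isDefEq.respectTransparency.types false

attribute [local instance] CategoryTheory.Abelian.hasFiniteBiproducts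

namespace Pool.Agent.MCH

open Pool.Agent.MUG Pool.Agent.MUP

section split

variable {C : Type u} [Category.{v} C] [Abelian C] [MonoidalCategory C] [MonoidalPreadditive C]
  [RigidCategory C]

/-- If every epimorphism onto the unit splits then every epimorphism splits. -/
theorem section_of_unit_split (h : ∀ (V : C) (f : V ⟶ 𝟙_ C), Epi f → ∃ s, s ≫ f = 𝟙 _)
    {X Y : C} (p : X ⟶ Y) (hp : Epi p) : ∃ s, s ≫ p = 𝟙 Y := by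
  have h1 : Epi (p ▷ Yᘁ) := inferInstanceAs (Epi ((tensorRight (Yᘁ)).map p))
  have h2 : Epi (pullback.snd (p ▷ Yᘁ) (η_ Y (Yᘁ))) := inferInstance
  obtain ⟨s, hs⟩ := h _ _ h2
  obtain ⟨t, ht⟩ : ∃ t : 𝟙_ C ⟶ X ⊗ Yᘁ, t ≫ (p ▷ Yᘁ) = η_ Y (Yᘁ) := by
    refine ⟨s ≫ pullback.fst _ _, ?_⟩
    rw [Category.assoc, pullback.condition, reassoc_of% hs]
  refine ⟨(λ_ Y).inv ≫ (t ▷ Y) ≫ (α_ X (Yᘁ) Y).hom ≫ (X ◁ ε_ Y (Yᘁ)) ≫ (ρ_ X).hom, ?_⟩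
  calc ((λ_ Y).inv ≫ (t ▷ Y) ≫ (α_ X (Yᘁ) Y).hom ≫ (X ◁ ε_ Y (Yᘁ)) ≫ (ρ_ X).hom) ≫ p
      = (λ_ Y).inv ≫ (t ▷ Y) ≫ (α_ X (Yᘁ) Y).hom ≫ ((X ◁ ε_ Y (Yᘁ)) ≫ (p ▷ 𝟙_ C)) ≫
        (ρ_ Y).hom := by simp
    _ = (λ_ Y).inv ≫ ((t ≫ (p ▷ Yᘁ)) ▷ Y) ≫ (α_ Y (Yᘁ) Y).hom ≫ (Y ◁ ε_ Y (Yᘁ)) ≫
        (ρ_ Y).hom := by
        rw [whisker_exchange]
        simp
    _ = 𝟙 Y := by
        rw [ht, ExactPairing.evaluation_coevaluation_assoc]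
        simp

end split

section mates

variable {C : Type u} [Category.{v} C] [Abelian C] [MonoidalCategory C] [MonoidalPreadditive C]
  [RigidCategory C] [BraidedCategory C]

/-- The double braiding of `V` with an object of the center, on `V ⊗ N`. -/
def mC (V : C) (N : Center C) : V ⊗ N.1 ⟶ V ⊗ N.1 := (β_ V N.1).hom ≫ (N.2.β V).hom

theorem mC_nat {V V' : C} (f : V ⟶ V') (N : Center C) :
    (f ▷ N.1) ≫ mC V' N = mC V N ≫ (f ▷ N.1) := by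
  unfold mC
  rw [BraidedCategory.braiding_naturality_left_assoc, HalfBraiding.naturality, Category.assoc]

/-- The cap `X ⊗ Xᘁ ⟶ 1`. -/
def cap (X : C) : X ⊗ Xᘁ ⟶ 𝟙_ C := (β_ X (Xᘁ)).hom ≫ ε_ X (Xᘁ)

/-- The mate of `T : V ⊗ X ⟶ V ⊗ X`. -/
def mateT {V X : C} (T : V ⊗ X ⟶ V ⊗ X) : V ⊗ (X ⊗ Xᘁ) ⟶ V :=
  (α_ V X (Xᘁ)).inv ≫ (T ▷ Xᘁ) ≫ (α_ V X (Xᘁ)).hom ≫ (V ◁ cap X) ≫ (ρ_ V).hom

theorem cap_slide (X N : C) : (cap X ▷ N) ≫ (λ_ N).hom = (α_ X (Xᘁ) N).hom ≫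
    (X ◁ (β_ (Xᘁ) N).hom) ≫ (α_ X N (Xᘁ)).inv ≫ ((β_ X N).hom ▷ Xᘁ) ≫ (α_ N X (Xᘁ)).hom ≫
      (N ◁ cap X) ≫ (ρ_ N).hom := by
  have h1 : (β_ (X ⊗ Xᘁ) N).hom ≫ (N ◁ cap X) = (cap X ▷ N) ≫ (β_ (𝟙_ C) N).hom :=
    (BraidedCategory.braiding_naturality_left (cap X) N).symm
  rw [BraidedCategory.braiding_tensor_left_hom] at h1
  simp only [Category.assoc] at h1
  rw [reassoc_of% h1]
  simp

theorem mateT_slide {V X : C} (T : V ⊗ X ⟶ V ⊗ X) (N : C) :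
    mateT T ▷ N = ((α_ V X (Xᘁ)).inv ▷ N) ≫ (α_ (V ⊗ X) (Xᘁ) N).hom ≫
      ((V ⊗ X) ◁ (β_ (Xᘁ) N).hom) ≫ (α_ (V ⊗ X) N (Xᘁ)).inv ≫
      (((T ▷ N) ≫ (α_ V X N).hom ≫ (V ◁ (β_ X N).hom) ≫ (α_ V N X).inv) ▷ Xᘁ) ≫
      (α_ (V ⊗ N) X (Xᘁ)).hom ≫ ((V ⊗ N) ◁ cap X) ≫ (ρ_ (V ⊗ N)).hom := by
  have h0 : mateT T ▷ N = ((α_ V X (Xᘁ)).inv ▷ N) ≫ ((T ▷ Xᘁ) ▷ N) ≫
      ((α_ V X (Xᘁ)).hom ▷ N) ≫ (α_ V (X ⊗ Xᘁ) N).hom ≫ (V ◁ ((cap X ▷ N) ≫ (λ_ N).hom)) := by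
    unfold mateT
    monoidal
  rw [h0, cap_slide]
  calc _ = 𝟙 _ ⊗≫ ((T ▷ (Xᘁ ⊗ N)) ≫ ((V ⊗ X) ◁ (β_ (Xᘁ) N).hom)) ⊗≫
        (V ◁ ((β_ X N).hom ▷ Xᘁ)) ⊗≫ ((V ⊗ N) ◁ cap X) ⊗≫ 𝟙 _ := by monoidal
    _ = 𝟙 _ ⊗≫ (((V ⊗ X) ◁ (β_ (Xᘁ) N).hom) ≫ (T ▷ (N ⊗ Xᘁ))) ⊗≫
        (V ◁ ((β_ X N).hom ▷ Xᘁ)) ⊗≫ ((V ⊗ N) ◁ cap X) ⊗≫ 𝟙 _ := by rw [whisker_exchange]
    _ = _ := by monoidal

/-- `swp` followed by the braiding. -/
theorem swp_beta {V X : C} (h : Comm V X) (N : C) :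
    swp V X N ≫ (β_ X (V ⊗ N)).hom = (V ◁ (β_ X N).hom) ≫ (α_ V N X).inv := by
  have h' : (β_ V X).hom ≫ (β_ X V).hom = 𝟙 _ := h
  unfold swp
  rw [BraidedCategory.braiding_tensor_right_hom]
  simp only [Category.assoc, Iso.hom_inv_id_assoc]
  rw [← comp_whiskerRight_assoc, h', id_whiskerRight, Category.id_comp, Iso.inv_hom_id_assoc]

theorem mateT_mC {V X : C} (hVX : Comm V X) (T : V ⊗ X ⟶ V ⊗ X) (N : Center C)
    (hT : (T ▷ N.1) ≫ (α_ V X N.1).hom ≫ swp V X N.1 ≫ (X ◁ mC V N) =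
      (T ▷ N.1) ≫ (α_ V X N.1).hom ≫ swp V X N.1) :
    (mateT T ▷ N.1) ≫ mC V N = mateT T ▷ N.1 := by
  have h1 : ((T ▷ N.1) ≫ (α_ V X N.1).hom ≫ (V ◁ (β_ X N.1).hom) ≫ (α_ V N.1 X).inv) ≫
      (mC V N ▷ X) =
      (T ▷ N.1) ≫ (α_ V X N.1).hom ≫ (V ◁ (β_ X N.1).hom) ≫ (α_ V N.1 X).inv := by
    rw [← swp_beta hVX]
    simp only [Category.assoc]
    rw [← BraidedCategory.braiding_naturality_right]
    have h2 := congrArg (fun t => t ≫ (β_ X (V ⊗ N.1)).hom) hT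
    simpa only [Category.assoc] using h2
  have h3 : (α_ (V ⊗ N.1) X (Xᘁ)).hom ≫ ((V ⊗ N.1) ◁ cap X) ≫ (ρ_ (V ⊗ N.1)).hom ≫ mC V N =
      ((mC V N ▷ X) ▷ Xᘁ) ≫ (α_ (V ⊗ N.1) X (Xᘁ)).hom ≫ ((V ⊗ N.1) ◁ cap X) ≫
        (ρ_ (V ⊗ N.1)).hom := by
    rw [associator_naturality_left_assoc, ← whisker_exchange_assoc]
    simp
  rw [mateT_slide]
  simp only [Category.assoc]
  rw [h3, ← comp_whiskerRight_assoc, h1]

end mates

section A9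

variable {k : Type*} [Field k] {C : Type u} [Category.{v} C] [Abelian C] [Linear k C]
  [MonoidalCategory C] [MonoidalPreadditive C] [MonoidalLinear k C] [RigidCategory C]
  [BraidedCategory C]

/-- An object of the center which is a sum of units: morphisms out of it which vanish on all
morphisms from the unit are zero. -/
theorem eq_zero_of_units {A : Center C} {n : ℕ} (φ : A ≅ ⨁ (fun _ : Fin n => 𝟙_ (Center C)))
    {W : C} (h : A.1 ⟶ W) (h0 : ∀ g : 𝟙_ C ⟶ A.1, g ≫ h = 0) : h = 0 := by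
  let F : Fin n → Center C := fun _ => 𝟙_ (Center C)
  have h1 : 𝟙 A = ∑ j : Fin n, (φ.hom ≫ biproduct.π F j) ≫ (biproduct.ι F j ≫ φ.inv) := by
    have h2 := biproduct.total (f := F)
    calc 𝟙 A = φ.hom ≫ 𝟙 (⨁ F) ≫ φ.inv := by
          rw [Category.id_comp]
          exact φ.hom_inv_id.symm
      _ = _ := by
        rw [← h2, Preadditive.sum_comp, Preadditive.comp_sum]
        simp only [Category.assoc]
  have h4 : 𝟙 A.1 = ∑ j : Fin n, (φ.hom ≫ biproduct.π F j).f ≫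
      (biproduct.ι F j ≫ φ.inv).f := by
    have h3 : (Center.forget C).map (𝟙 A) = _ := congrArg (fun t => (Center.forget C).map t) h1
    refine Eq.trans ?_ (h3.trans ((Center.forget C).map_sum _ _))
    rfl
  rw [← Category.id_comp h, h4, Preadditive.sum_comp]
  refine Finset.sum_eq_zero fun j _ => ?_
  have h5 : (biproduct.ι F j ≫ φ.inv).f ≫ h = 0 := h0 _
  rw [Category.assoc, h5, comp_zero]

/-- Row A9. -/
theorem a9 (hC : IsFinite k C) (hsym : ∀ X Y : C, Comm X Y)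
    (hND : ∀ A : Center C, (∀ N, Comm A N) →
      ∃ n : ℕ, Nonempty (A ≅ ⨁ (fun _ : Fin n => 𝟙_ (Center C))))
    {X : C} (hX : 𝟙 X ≠ 0) (T : ∀ V : C, V ⊗ X ⟶ V ⊗ X)
    (hnat : ∀ {V V' : C} (f : V ⟶ V'), (f ▷ X) ≫ T V' = T V ≫ (f ▷ X))
    (c : k) (hc : c ≠ 0) (hT1 : T (𝟙_ C) = c • 𝟙 (𝟙_ C ⊗ X))
    (hT : ∀ (V : C) (N : Center C), (T V ▷ N.1) ≫ (α_ V X N.1).hom ≫ swp V X N.1 ≫
      (X ◁ mC V N) = (T V ▷ N.1) ≫ (α_ V X N.1).hom ≫ swp V X N.1)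
    {A B : C} (p : A ⟶ B) (hp : Epi p) : ∃ s, s ≫ p = 𝟙 B := by
  have hunit : Simple (𝟙_ C) := hC.unit
  refine section_of_unit_split (fun V f hf => ?_) p hp
  let V₀ : C := image (mateT (T V))
  let q : V ⊗ (X ⊗ Xᘁ) ⟶ V₀ := factorThruImage (mateT (T V))
  let i₀ : V₀ ⟶ V := image.ι (mateT (T V))
  have hqi : q ≫ i₀ = mateT (T V) := image.fac _
  have hqe : Epi q := inferInstance
  have him : Mono i₀ := inferInstance
  have hV₀ : ∀ N : Center C, Comm (jObj V₀) N := by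
    intro N
    refine (cen_double_iff _ _).2 ?_
    change mC V₀ N = 𝟙 (V₀ ⊗ N.1)
    have h1 : Epi (q ▷ N.1) := inferInstanceAs (Epi ((tensorRight N.1).map q))
    have h2 : Mono (i₀ ▷ N.1) := inferInstanceAs (Mono ((tensorRight N.1).map i₀))
    rw [← cancel_epi (q ▷ N.1), ← cancel_mono (i₀ ▷ N.1), Category.assoc, ← mC_nat,
      ← comp_whiskerRight_assoc, hqi, mateT_mC (hsym V X) (T V) N (hT V N), Category.comp_id,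
      ← comp_whiskerRight, hqi]
  obtain ⟨n, ⟨φ⟩⟩ := hND (jObj V₀) hV₀
  -- the composite with `f` is not zero
  have hne : mateT (T V) ≫ f ≠ 0 := by
    have h1 : mateT (T V) ≫ f = c • ((V ◁ cap X) ≫ (ρ_ V).hom ≫ f) := by
      have h2 : (V ◁ cap X) ≫ (ρ_ V).hom ≫ f =
          (f ▷ (X ⊗ Xᘁ)) ≫ (𝟙_ C ◁ cap X) ≫ (ρ_ (𝟙_ C)).hom := by
        rw [← whisker_exchange_assoc]
        simp
      have h3 : (T V ▷ Xᘁ) ≫ (α_ V X (Xᘁ)).hom ≫ (f ▷ (X ⊗ Xᘁ)) =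
          c • (((f ▷ X) ▷ Xᘁ) ≫ (α_ (𝟙_ C) X (Xᘁ)).hom) := by
        rw [← associator_naturality_left, ← comp_whiskerRight_assoc, ← hnat f, hT1,
          Linear.comp_smul, Category.comp_id]
        rw [show ((c • (f ▷ X)) ▷ Xᘁ) = c • ((f ▷ X) ▷ Xᘁ) from
          MonoidalLinear.smul_whiskerRight _ _ _, Linear.smul_comp]
      unfold mateT
      simp only [Category.assoc]
      rw [h2, reassoc_of% h3]
      simp
    rw [h1]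
    intro h0
    have h4 : (V ◁ cap X) ≫ (ρ_ V).hom ≫ f = 0 := (smul_eq_zero.1 h0).resolve_left hc
    have h5 : Epi (ε_ X (Xᘁ)) := C2.epi_ev hunit hX
    have h6 : Epi (cap X) := epi_comp _ _
    have h7 : Epi (V ◁ cap X) := inferInstanceAs (Epi ((tensorLeft V).map (cap X)))
    have h8 : Epi ((V ◁ cap X) ≫ (ρ_ V).hom ≫ f) := inferInstance
    refine id_nonzero (𝟙_ C) ?_
    rw [← cancel_epi ((V ◁ cap X) ≫ (ρ_ V).hom ≫ f), h4, zero_comp, zero_comp]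
  obtain ⟨g, hg⟩ : ∃ g : 𝟙_ C ⟶ V, g ≫ f ≠ 0 := by
    by_contra hno
    apply hne
    have h1 : i₀ ≫ f = 0 := by
      refine eq_zero_of_units φ (i₀ ≫ f) fun g => ?_
      by_contra h
      exact hno ⟨g ≫ i₀, by rwa [Category.assoc]⟩
    rw [← hqi, Category.assoc, h1, comp_zero]
  have h9 : IsIso (g ≫ f) := isIso_of_hom_simple hg
  exact ⟨inv (g ≫ f) ≫ g, by rw [Category.assoc, IsIso.inv_hom_id]⟩

end A9

end Pool.Agent.MCH
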