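import Pool.Agent.MCH.A8
import Pool.Agent.MCH.A7
import Pool.Agent.MCH.A9
import Pool.Agent.NDC.NDC

/-!
# The absorbing family, and: a natural projection to the trivial objects of the centre makes a
symmetric finite tensor category of characteristic zero semisimple (rows A6 to A9 of CHEV2;
helper31, over the rows of helper4, helper54, helper64 and helper40)
-/

open CategoryTheory MonoidalCategory Limits Abelian

universe w v u

set_option linter.unusedSectionVars false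
set_option backward.isDefEq.respectTransparency.types false

namespace Pool.Agent.MCH

open Pool.Agent.MUG Pool.Agent.MUP

section A8b

variable {C : Type u} [Category.{v} C] [Abelian C] [MonoidalCategory C] [MonoidalPreadditive C]
  [RigidCategory C] [BraidedCategory C] (hsym : ∀ X Y : C, Comm X Y)

include hsym in
theorem pt_unit {X : C} (p : Pt X) : p.m (𝟙_ C) = 𝟙 _ := by
  have h1 := mC_pt hsym p (𝟙_ C)
  rw [Gen.mC_unit] at h1
  exact h1.symm

variable {e : ∀ N : Center C, N ⟶ N} (he : Proj e)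

include hsym he

/-- From a bound on the number of disjoint points: the absorbing family. -/
theorem exists_absorb (h1 : 𝟙 (𝟙_ C) ≠ 0)
    (hB : ∃ B : ℕ, ∀ (X : C), 𝟙 X ≠ 0 → ∀ (n : ℕ) (x : Fin n → Pt X)
      (_ : ∀ i j, Co (x i) (x j)), (∀ i j, i ≠ j → ∀ {Z : C} (g : Z ⟶ X),
        (∀ V, (V ◁ g) ≫ (x i).m V = (V ◁ g) ≫ (x j).m V) → g = 0) → n ≤ B) :
    ∃ (X : C) (_ : 𝟙 X ≠ 0) (T : ∀ V : C, V ⊗ X ⟶ V ⊗ X) (n : ℕ), 0 < n ∧
      (∀ {V V' : C} (f : V ⟶ V'), (f ▷ X) ≫ T V' = T V ≫ (f ▷ X)) ∧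
      T (𝟙_ C) = n • 𝟙 _ ∧
      ∀ (V : C) (N : Center C), (T V ▷ N.1) ≫ (α_ V X N.1).hom ≫ swp V X N.1 ≫
        (X ◁ Gen.mC V N) = (T V ▷ N.1) ≫ (α_ V X N.1).hom ≫ swp V X N.1 := by
  classical
  obtain ⟨B, hB⟩ := hB
  let S : Set ℕ := {n | ∃ (X : C) (_ : 𝟙 X ≠ 0) (x : Fin n → Pt X)
    (hx : ∀ i j, Co (x i) (x j)), ∀ i j, i ≠ j → del hsym e (x i) (x j) (hx i j) = 0}
  have hbdd : BddAbove S := by
    refine ⟨B, ?_⟩
    rintro n ⟨X, hX, x, hx, hd⟩
    refine hB X hX n x hx fun i j hij Z g hg => ?_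
    rw [← del_of_co hsym he (hx i j) g hg, hd i j hij, comp_zero]
  have hone : 1 ∈ S := by
    refine ⟨𝟙_ C, h1, fun _ => Pt.one hsym _, fun i j => Co.refl hsym _, fun i j hij => ?_⟩
    exact absurd (Subsingleton.elim i j) hij
  have hmem : sSup S ∈ S := Nat.sSup_mem ⟨1, hone⟩ hbdd
  have hpos : 0 < sSup S := lt_of_lt_of_le one_pos (le_csSup hbdd hone)
  obtain ⟨X, hX, x, hx, hd⟩ := hmem
  have hmax : ∀ (X' : C), 𝟙 X' ≠ 0 → ∀ (x : Fin (sSup S + 1) → Pt X')
      (hx : ∀ i j, Co (x i) (x j)),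
      (∀ i j, i ≠ j → del hsym e (x i) (x j) (hx i j) = 0) → False := by
    intro X' hX' x' hx' hd'
    have h2 : sSup S + 1 ≤ sSup S := le_csSup hbdd ⟨X', hX', x', hx', hd'⟩
    omega
  refine ⟨X, hX, fun V => ∑ i, (x i).m V, sSup S, hpos, ?_, ?_, ?_⟩
  · intro V V' f
    rw [Preadditive.comp_sum, Preadditive.sum_comp]
    exact Finset.sum_congr rfl fun i _ => (x i).nat f
  · have h2 : ∀ i, (x i).m (𝟙_ C) = 𝟙 _ := fun i => pt_unit hsym (x i)
    simp only [h2]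
    rw [Finset.sum_const, Finset.card_univ, Fintype.card_fin]
  · intro V N
    have h2 := a8 hsym he hmax x hx hd V N
    have h3 : (α_ V X N.1).inv ≫ ((∑ i, (x i).m V) ▷ N.1) ≫ (α_ V X N.1).hom ≫
        swp V X N.1 ≫ (X ◁ Gen.mC V N) ≫ swp X V N.1 =
        (α_ V X N.1).inv ≫ ((∑ i, (x i).m V) ▷ N.1) ≫ (α_ V X N.1).hom := by
      have h4 : ten (∑ i, (x i).m V) N.1 ≫ out (Gen.mC V N) X =
          (α_ V X N.1).inv ≫ ((∑ i, (x i).m V) ▷ N.1) ≫ (α_ V X N.1).hom ≫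
            swp V X N.1 ≫ (X ◁ Gen.mC V N) ≫ swp X V N.1 := by
        unfold ten out
        simp only [Category.assoc]
      rw [← h4]
      exact h2
    rw [cancel_epi] at h3
    have h5 := congrArg (fun g => g ≫ swp V X N.1) h3
    simp only [Category.assoc] at h5
    rw [swp_swp hsym, Category.comp_id] at h5
    exact h5

omit he in
/-- **Rows A6 to A9.** -/
theorem split_of_proj {k : Type*} [Field k] [IsAlgClosed k] [CharZero k] [Linear k C]
    [MonoidalLinear k C] (hC : IsFinite k C) {e : ∀ N : Center C, N ⟶ N} (he : Proj e) {A B : C}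
    (p : A ⟶ B) (hp : Epi p) : ∃ s, s ≫ p = 𝟙 B := by
  have hunit : Simple (𝟙_ C) := hC.unit
  obtain ⟨B, hB⟩ := artin_bound hC hsym
  obtain ⟨X, hX, T, n, hn, hnat, hT1, hT⟩ := exists_absorb hsym he (id_nonzero (𝟙_ C))
    ⟨B, fun X hX n x hx hd => hB X hX n x hx fun i j hij Z g hg => hd i j hij g hg⟩
  have hn' : (n : k) ≠ 0 := by exact_mod_cast hn.ne'
  refine a9 hC hsym (fun A hA => NDC.center_nondegenerate hC A hA) hX T hnat (n : k) hn' ?_ hT p hp
  rw [hT1, Nat.cast_smul_eq_nsmul]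

end A8b

end Pool.Agent.MCH
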