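import Pool.Agent.MUP.B1p
import Pool.Agent.MUP.Defs
import Pool.Agent.MUG.C4
import Pool.Agent.MUG.C5
import Pool.Agent.MUG.Q5

/-!
# Theorem CH, assembly (helper64)

The simple objects of a symmetric tensor subcategory lie in a semisimple tensor subcategory.
-/

open CategoryTheory MonoidalCategory Limits Abelian

universe w v u

set_option linter.unusedSectionVars false

namespace Pool.Agent.MCH

open Pool.Agent.MUG Pool.Agent.MUP

section CH

variable {k : Type*} [Field k] {Z : Type u} [Category.{v} Z] [Abelian Z] [Linear k Z]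
  [MonoidalCategory Z] [MonoidalPreadditive Z] [MonoidalLinear k Z] [RigidCategory Z]
  [BraidedCategory Z]

/-- The objects on which a Leibniz family of a tensor subcategory vanishes form a tensor
subcategory. -/
theorem tensorSub_leib' {P : ObjectProperty Z} [hP : TensorSub P] {b : P.FullSubcategory}
    (L : Leib b) : TensorSub (fun Y : Z => ∃ h : P Y, L.d ⟨Y, h⟩ = 0) := by
  have hL := tensorSub_T' L
  refine ⟨⟨hP.unit, hL.unit⟩, ?_, ?_, ?_, ?_, ?_, ?_⟩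
  · rintro X Y ⟨hX, hX'⟩ ⟨hY, hY'⟩
    exact ⟨hP.tensor hX hY, hL.tensor (X := ⟨X, hX⟩) (Y := ⟨Y, hY⟩) hX' hY'⟩
  · rintro X ⟨hX, hX'⟩
    exact ⟨hP.rdual hX, hL.rdual (X := ⟨X, hX⟩) hX'⟩
  · rintro X ⟨hX, hX'⟩
    exact ⟨hP.ldual hX, hL.ldual (X := ⟨X, hX⟩) hX'⟩
  · rintro X Y f hf ⟨hY, hY'⟩
    have hX : P X := hP.sub f hY
    let f' : (⟨X, hX⟩ : P.FullSubcategory) ⟶ ⟨Y, hY⟩ := ObjectProperty.homMk f
    have : Mono f' := by
      have : Mono (P.ι.map f') := hf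
      exact P.ι.mono_of_mono_map this
    exact ⟨hX, hL.sub f' hY'⟩
  · rintro X Y f hf ⟨hX, hX'⟩
    have hY : P Y := hP.quot f hX
    let f' : (⟨X, hX⟩ : P.FullSubcategory) ⟶ ⟨Y, hY⟩ := ObjectProperty.homMk f
    have : Epi f' := by
      have : Epi (P.ι.map f') := hf
      exact P.ι.epi_of_epi_map this
    exact ⟨hY, hL.quot f' hX'⟩
  · rintro X Y ⟨hX, hX'⟩ ⟨hY, hY'⟩
    have hXY : P (X ⊞ Y) := hP.biprod hX hY
    refine ⟨hXY, ?_⟩
    let q₁ : (⟨X ⊞ Y, hXY⟩ : P.FullSubcategory) ⟶ ⟨X, hX⟩ := ObjectProperty.homMk biprod.fst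
    let q₂ : (⟨X ⊞ Y, hXY⟩ : P.FullSubcategory) ⟶ ⟨Y, hY⟩ := ObjectProperty.homMk biprod.snd
    have h1 : L.d ⟨X ⊞ Y, hXY⟩ ≫ q₁ = 0 := by rw [← L.nat q₁, hX', comp_zero]
    have h2 : L.d ⟨X ⊞ Y, hXY⟩ ≫ q₂ = 0 := by rw [← L.nat q₂, hY', comp_zero]
    ext1
    apply biprod.hom_ext
    · have := congrArg (fun t => t.hom) h1
      simpa [q₁] using this
    · have := congrArg (fun t => t.hom) h2
      simpa [q₂] using this

/-- Theorem CH from Theorem A and Theorem B. -/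
theorem ch_of (hZ : IsFinite k Z) (E : ObjectProperty Z) [hE : TensorSub E]
    (hA : ∀ (F : ObjectProperty Z) (_ : TensorSub F), F ≤ E →
      (∀ V : F.FullSubcategory, Simple V → ∀ L : Leib V, ¬ L.Nonzero) →
      ∀ {A B : F.FullSubcategory} (p : A ⟶ B), Epi p → ∃ s, s ≫ p = 𝟙 B)
    (hB : ∀ (F : ObjectProperty Z) (_ : TensorSub F), F ≤ E →
      ∀ V : F.FullSubcategory, Simple V → ∀ L : Leib V, ∀ S : F.FullSubcategory, Simple S →
        L.d S = 0) :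
    ∃ F : ObjectProperty Z, TensorSub F ∧ Semisimp F ∧ F ≤ E ∧
      ∀ S, Simple S → E S → F S := by
  classical
  let good : Set {P : ObjectProperty Z // TensorSub P} :=
    {P | P.1 ≤ E ∧ ∀ S, Simple S → E S → P.1 S}
  have hgood : good.Nonempty := ⟨⟨E, hE⟩, le_rfl, fun _ _ h => h⟩
  obtain ⟨⟨F, hF⟩, ⟨hFE, hFs⟩, hmin⟩ := (dcc_sub hZ).has_min good hgood
  refine ⟨F, hF, ?_, hFE, hFs⟩
  have hnL : ∀ V : F.FullSubcategory, Simple V → ∀ L : Leib V, ¬ L.Nonzero := by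
    intro V hV L hne
    have hS := hB F hF hFE V hV L
    have hT := tensorSub_leib' L
    refine hmin ⟨_, hT⟩ ⟨fun Y hY => hFE Y hY.1, ?_⟩ ?_
    · intro S hSs hES
      have hFS : F S := hFs S hSs hES
      exact ⟨hFS, hS ⟨S, hFS⟩ ((sub_simple_iff F _).2 hSs)⟩
    · refine lt_of_le_of_ne (fun Y hY => hY.1) ?_
      intro he
      obtain ⟨Y, hY⟩ := hne
      have he' : (fun Y : Z => ∃ h : F Y, L.d ⟨Y, h⟩ = 0) = F := he
      have h3 : (fun Y : Z => ∃ h : F Y, L.d ⟨Y, h⟩ = 0) Y.obj := by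
        rw [he']; exact Y.property
      obtain ⟨_, h⟩ := h3
      exact hY h
  intro X Y f hX hf
  have hY : F Y := hF.quot f hX
  let f' : (⟨X, hX⟩ : F.FullSubcategory) ⟶ ⟨Y, hY⟩ := ObjectProperty.homMk f
  have hf' : Epi f' := sub_epi_of F f' hf
  obtain ⟨s, hs⟩ := hA F hF hFE hnL f' hf'
  exact ⟨s.hom, congrArg F.ι.map hs⟩

end CH

end Pool.Agent.MCH
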