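import Pool.Agent.MCH.Rep
import Pool.Agent.MUP.EMB
import Pool.Agent.MUP.LE
import Pool.Agent.MUP.NIL
import Pool.Agent.MUP.NIL2
import Pool.Agent.MUP.TR

/-!
# A simple object with vanishing symmetrizer is not a quotient of its tensor square (helper65)
-/

open CategoryTheory MonoidalCategory Limits Equiv

universe v u

namespace Pool.Agent.MCH

open Pool.Agent.MUP Pool.Agent.MUG

section Blk

/-- The even letters. -/
def evE (M : ℕ) : Fin M ↪ Fin (2 * M) :=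
  ⟨fun i => ⟨2 * i, by omega⟩, fun i j h => by
    have h1 := congrArg Fin.val h
    simp only at h1
    exact Fin.ext (by omega)⟩

/-- The odd letters. -/
def odE (M : ℕ) : Fin M ↪ Fin (2 * M) :=
  ⟨fun i => ⟨2 * i + 1, by omega⟩, fun i j h => by
    have h1 := congrArg Fin.val h
    simp only at h1
    exact Fin.ext (by omega)⟩

noncomputable def ev (M : ℕ) : Perm (Fin M) →* Perm (Fin (2 * M)) := Perm.viaEmbeddingHom (evE M)

noncomputable def od (M : ℕ) : Perm (Fin M) →* Perm (Fin (2 * M)) := Perm.viaEmbeddingHom (odE M)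

theorem ev_ev (M : ℕ) (σ : Perm (Fin M)) (i : Fin M) : ev M σ (evE M i) = evE M (σ i) :=
  Perm.viaEmbedding_apply _ _ _

theorem od_od (M : ℕ) (σ : Perm (Fin M)) (i : Fin M) : od M σ (odE M i) = odE M (σ i) :=
  Perm.viaEmbedding_apply _ _ _

theorem ev_not (M : ℕ) (σ : Perm (Fin M)) (y : Fin (2 * M)) (hy : y ∉ Set.range (evE M)) :
    ev M σ y = y := Perm.viaEmbedding_apply_of_notMem _ _ _ hy

theorem od_not (M : ℕ) (σ : Perm (Fin M)) (y : Fin (2 * M)) (hy : y ∉ Set.range (odE M)) :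
    od M σ y = y := Perm.viaEmbedding_apply_of_notMem _ _ _ hy

theorem odE_notMem (M : ℕ) (i : Fin M) : odE M i ∉ Set.range (evE M) := by
  rintro ⟨j, hj⟩
  have h1 := congrArg Fin.val hj
  simp only [evE, odE, Function.Embedding.coeFn_mk] at h1
  omega

theorem evE_notMem (M : ℕ) (i : Fin M) : evE M i ∉ Set.range (odE M) := by
  rintro ⟨j, hj⟩
  have h1 := congrArg Fin.val hj
  simp only [evE, odE, Function.Embedding.coeFn_mk] at h1
  omega

theorem ev_or_od (M : ℕ) (y : Fin (2 * M)) : (∃ i, y = evE M i) ∨ ∃ i, y = odE M i := by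
  rcases Nat.even_or_odd' (y : ℕ) with ⟨i, hi | hi⟩
  · exact Or.inl ⟨⟨i, by omega⟩, Fin.ext hi⟩
  · exact Or.inr ⟨⟨i, by omega⟩, Fin.ext hi⟩

theorem ev_od_comm (M : ℕ) (σ τ : Perm (Fin M)) : ev M σ * od M τ = od M τ * ev M σ := by
  ext y
  rcases ev_or_od M y with ⟨i, rfl⟩ | ⟨i, rfl⟩
  · rw [Perm.mul_apply, Perm.mul_apply, od_not M τ _ (evE_notMem M i), ev_ev,
      od_not M τ _ (evE_notMem M _)]
  · rw [Perm.mul_apply, Perm.mul_apply, od_od, ev_not M σ _ (odE_notMem M _),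
      ev_not M σ _ (odE_notMem M _), od_od]

/-- The action on blocks of two letters. -/
noncomputable def blk (M : ℕ) : Perm (Fin M) →* Perm (Fin (2 * M)) where
  toFun σ := ev M σ * od M σ
  map_one' := by rw [map_one, map_one, mul_one]
  map_mul' σ τ := by
    rw [map_mul, map_mul, mul_assoc, ← mul_assoc (ev M τ), ev_od_comm M τ σ]
    simp only [mul_assoc]

theorem blk_ev (M : ℕ) (σ : Perm (Fin M)) (i : Fin M) : blk M σ (evE M i) = evE M (σ i) := by
  change (ev M σ * od M σ) (evE M i) = _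
  rw [Perm.mul_apply, od_not M σ _ (evE_notMem M i), ev_ev]

theorem blk_od (M : ℕ) (σ : Perm (Fin M)) (i : Fin M) : blk M σ (odE M i) = odE M (σ i) := by
  change (ev M σ * od M σ) (odE M i) = _
  rw [Perm.mul_apply, od_od, ev_not M σ _ (odE_notMem M _)]

theorem sh_val (n : ℕ) (σ : Perm (Fin n)) (y : Fin (n + 1)) (i : Fin n) (h : (y : ℕ) = i + 1) :
    ((sh n σ y : Fin (n + 1)) : ℕ) = (σ i : ℕ) + 1 := by
  have : y = i.succ := Fin.ext (by rw [h, Fin.val_succ])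
  rw [this, sh_succ, Fin.val_succ]

theorem blk_sh (M : ℕ) (σ : Perm (Fin M)) :
    blk (M + 1) (sh M σ) = sh (2 * M + 1) (sh (2 * M) (blk M σ)) := by
  have hE : ∀ i : Fin M, (evE (M + 1) i.succ : Fin (2 * M + 1 + 1)) =
      ((evE M i).succ).succ := fun i => Fin.ext (by
        simp only [evE, Function.Embedding.coeFn_mk, Fin.val_succ]; omega)
  have hO : ∀ i : Fin M, (odE (M + 1) i.succ : Fin (2 * M + 1 + 1)) =
      ((odE M i).succ).succ := fun i => Fin.ext (by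
        simp only [odE, Function.Embedding.coeFn_mk, Fin.val_succ]; omega)
  refine Equiv.ext fun y => ?_
  rcases ev_or_od (M + 1) y with ⟨i, rfl⟩ | ⟨i, rfl⟩
  · rw [blk_ev]
    refine Fin.cases ?_ (fun j => ?_) i
    · rw [sh_zero]
      rfl
    · rw [sh_succ]
      exact (hE (σ j)).trans (by
        rw [← blk_ev, ← sh_succ, ← sh_succ]
        exact congrArg _ (hE j).symm)
  · rw [blk_od]
    refine Fin.cases ?_ (fun j => ?_) i
    · rw [sh_zero]
      have h1 : (odE (M + 1) 0 : Fin (2 * M + 1 + 1)) = (0 : Fin (2 * M + 1)).succ := rfl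
      exact h1.trans (by
        rw [← sh_zero (2 * M) (blk M σ)]
        rw [← sh_succ]
        rfl)
    · rw [sh_succ]
      exact (hO (σ j)).trans (by
        rw [← blk_od, ← sh_succ, ← sh_succ]
        exact congrArg _ (hO j).symm)

theorem blk_sw_zero (m : ℕ) : blk (m + 2) (sw (m + 1) 0) =
    sw (2 * m + 3) 1 * sw (2 * m + 3) 2 * sw (2 * m + 3) 0 * sw (2 * m + 3) 1 := by
  refine Equiv.ext fun y => Fin.ext ?_
  have hR : ∀ z : Fin (2 * m + 3 + 1), (((sw (2 * m + 3) 1 * sw (2 * m + 3) 2 *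
      sw (2 * m + 3) 0 * sw (2 * m + 3) 1) z : Fin (2 * m + 3 + 1)) : ℕ) =
      (if (z : ℕ) = 0 then (2 : ℕ) else if (z : ℕ) = 1 then (3 : ℕ) else
        if (z : ℕ) = 2 then (0 : ℕ) else if (z : ℕ) = 3 then (1 : ℕ) else (z : ℕ)) := by
    intro z
    simp only [Perm.mul_apply, sw_apply (show 1 < 2 * m + 3 by omega),
      sw_apply (show 2 < 2 * m + 3 by omega), sw_apply (show 0 < 2 * m + 3 by omega)]
    split_ifs <;> first | omega | contradiction
  refine Eq.trans ?_ (hR y).symm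
  rcases ev_or_od (m + 2) y with ⟨i, rfl⟩ | ⟨i, rfl⟩
  · rw [blk_ev]
    change 2 * ((sw (m + 1) 0 i : Fin (m + 1 + 1)) : ℕ) =
      (if 2 * (i : ℕ) = 0 then (2 : ℕ) else if 2 * (i : ℕ) = 1 then (3 : ℕ) else
        if 2 * (i : ℕ) = 2 then (0 : ℕ) else if 2 * (i : ℕ) = 3 then (1 : ℕ) else 2 * (i : ℕ))
    rw [sw_apply (show 0 < m + 1 by omega)]
    split_ifs <;> first | omega | contradiction
  · rw [blk_od]
    change 2 * ((sw (m + 1) 0 i : Fin (m + 1 + 1)) : ℕ) + 1 =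
      (if 2 * (i : ℕ) + 1 = 0 then (2 : ℕ) else if 2 * (i : ℕ) + 1 = 1 then (3 : ℕ) else
        if 2 * (i : ℕ) + 1 = 2 then (0 : ℕ) else if 2 * (i : ℕ) + 1 = 3 then (1 : ℕ) else
          2 * (i : ℕ) + 1)
    rw [sw_apply (show 0 < m + 1 by omega)]
    split_ifs <;> first | omega | contradiction

end Blk

section Fold

variable {A : Type u} [Category.{v} A] {F : A ⥤ A}
  (τ : ∀ Y : A, F.obj (F.obj Y) ⟶ F.obj (F.obj Y))
  (hτ : ∀ {Y Y' : A} (f : Y ⟶ Y'), F.map (F.map f) ≫ τ Y' = τ Y ≫ F.map (F.map f))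
  (hinv : ∀ Y, τ Y ≫ τ Y = 𝟙 _)
  (hyb : ∀ Y, F.map (τ Y) ≫ τ (F.obj Y) ≫ F.map (τ Y) = τ (F.obj Y) ≫ F.map (τ Y) ≫ τ (F.obj Y))
  (φ : ∀ Y : A, F.obj (F.obj Y) ⟶ F.obj Y)
  (hφ : ∀ {Y Y' : A} (f : Y ⟶ Y'), F.map (F.map f) ≫ φ Y' = φ Y ≫ F.map f)
  (h1 : ∀ Y, F.map (φ Y) ≫ τ Y = τ (F.obj Y) ≫ F.map (τ Y) ≫ φ (F.obj Y))
  (h2 : ∀ Y, φ (F.obj Y) ≫ τ Y = F.map (τ Y) ≫ τ (F.obj Y) ≫ F.map (φ Y))

/-- `φ` on consecutive pairs of strands. -/
def fold : ∀ (M : ℕ) (Y : A), pw F (2 * M) Y ⟶ pw F M Y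
  | 0, Y => 𝟙 Y
  | M + 1, Y => F.map (F.map (fold M Y)) ≫ φ (pw F M Y)

include hτ hφ h1 h2 in
theorem fold_braid (Y : A) :
    (F.map (τ (F.obj Y)) ≫ τ (F.obj (F.obj Y)) ≫ F.map (F.map (τ Y)) ≫ F.map (τ (F.obj Y))) ≫
      F.map (F.map (φ Y)) ≫ φ (F.obj Y) = (F.map (F.map (φ Y)) ≫ φ (F.obj Y)) ≫ τ Y := by
  symm
  calc (F.map (F.map (φ Y)) ≫ φ (F.obj Y)) ≫ τ Y
      = F.map (F.map (φ Y)) ≫ F.map (τ Y) ≫ τ (F.obj Y) ≫ F.map (φ Y) := by
        rw [Category.assoc, h2]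
    _ = F.map (τ (F.obj Y)) ≫ F.map (F.map (τ Y)) ≫ F.map (φ (F.obj Y)) ≫ τ (F.obj Y) ≫
          F.map (φ Y) := by
        rw [← Category.assoc, ← F.map_comp, h1]
        simp only [F.map_comp, Category.assoc]
    _ = F.map (τ (F.obj Y)) ≫ F.map (F.map (τ Y)) ≫ τ (F.obj (F.obj Y)) ≫
          F.map (τ (F.obj Y)) ≫ φ (F.obj (F.obj Y)) ≫ F.map (φ Y) := by
        rw [← Category.assoc (F.map (φ (F.obj Y))), h1]
        simp only [Category.assoc]
    _ = _ := by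
        rw [← Category.assoc (F.map (F.map (τ Y))), hτ, hφ]
        simp only [Category.assoc]

omit hτ in
theorem fold_step {P Q : A} (g : P ⟶ Q) (r : P ⟶ P) (r' : Q ⟶ Q) (h : r ≫ g = g ≫ r')
    (hφ : ∀ {Y Y' : A} (f : Y ⟶ Y'), F.map (F.map f) ≫ φ Y' = φ Y ≫ F.map f) :
    F.map (F.map r) ≫ F.map (F.map g) ≫ φ Q = (F.map (F.map g) ≫ φ Q) ≫ F.map r' := by
  rw [Category.assoc, ← hφ, ← Category.assoc, ← F.map_comp, ← F.map_comp, h, F.map_comp,
    F.map_comp, Category.assoc]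

include hφ h1 h2 hτ in
theorem fold_step' {P Q : A} (g : P ⟶ Q) :
    (F.map (τ (F.obj P)) ≫ τ (F.obj (F.obj P)) ≫ F.map (F.map (τ P)) ≫ F.map (τ (F.obj P))) ≫
      F.map (F.map (F.map (F.map g) ≫ φ Q)) ≫ φ (F.obj Q) =
      (F.map (F.map (F.map (F.map g) ≫ φ Q)) ≫ φ (F.obj Q)) ≫ τ Q := by
  have e1 : F.map (F.map (F.map (F.map g) ≫ φ Q)) ≫ φ (F.obj Q) =
      (F.map (F.map (φ P)) ≫ φ (F.obj P)) ≫ F.map (F.map g) := by
    rw [hφ, hφ (φ P), Category.assoc, ← F.map_comp, ← hφ g]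
  rw [e1, ← Category.assoc, fold_braid τ hτ φ hφ h1 h2 P, Category.assoc, ← hτ]
  simp only [Category.assoc]

include hφ h1 h2 in
theorem rep_blk_fold : ∀ (M : ℕ) (Y : A) (σ : Perm (Fin M)),
    (rep τ hτ hinv hyb (2 * M) Y (blk M σ) : pw F (2 * M) Y ⟶ pw F (2 * M) Y) ≫ fold φ M Y =
      fold φ M Y ≫ (rep τ hτ hinv hyb M Y σ : pw F M Y ⟶ pw F M Y)
  | 0, Y, σ => by
    rw [Subsingleton.elim σ 1]
    simp only [map_one]
    exact (Category.id_comp _).trans (Category.comp_id _).symm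
  | 1, Y, σ => by
    rw [Subsingleton.elim σ 1]
    simp only [map_one]
    exact (Category.id_comp _).trans (Category.comp_id _).symm
  | M + 2, Y, σ => by
    have ih := rep_blk_fold (M + 1) Y
    have hσ : σ ∈ Submonoid.closure (Set.range fun i : Fin (M + 1) =>
        swap i.castSucc i.succ) := by
      rw [Perm.mclosure_swap_castSucc_succ]; trivial
    induction hσ using Submonoid.closure_induction with
    | mem s hs =>
      obtain ⟨i, rfl⟩ := hs
      have e1 : swap i.castSucc i.succ = sw (M + 1) i := by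
        rw [sw, dif_pos i.2]; rfl
      simp only [e1]
      rcases i with ⟨_ | i, hi⟩
      · have e2 : rep τ hτ hinv hyb (2 * (M + 2)) Y (blk (M + 2) (sw (M + 1) 0)) =
            (F.map (τ (F.obj (pw F (2 * M) Y))) ≫ τ (F.obj (F.obj (pw F (2 * M) Y))) ≫
              F.map (F.map (τ (pw F (2 * M) Y))) ≫ F.map (τ (F.obj (pw F (2 * M) Y))) :
              pw F (2 * (M + 2)) Y ⟶ pw F (2 * (M + 2)) Y) := by
          rw [blk_sw_zero]
          have e3 : ∀ i, i < 2 * M + 3 → rep τ hτ hinv hyb (2 * M + 3 + 1) Y (sw (2 * M + 3) i) =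
            adE τ (2 * M + 3 + 1) Y i := fun i hi => rep_sw τ hτ hinv hyb (2 * M + 3) Y i hi
          have e4 : rep τ hτ hinv hyb (2 * M + 3 + 1) Y (sw (2 * M + 3) 1 * sw (2 * M + 3) 2 *
              sw (2 * M + 3) 0 * sw (2 * M + 3) 1) = adE τ (2 * M + 3 + 1) Y 1 *
              adE τ (2 * M + 3 + 1) Y 2 * adE τ (2 * M + 3 + 1) Y 0 *
              adE τ (2 * M + 3 + 1) Y 1 := by
            rw [map_mul, map_mul, map_mul, e3 1 (by omega), e3 2 (by omega), e3 0 (by omega)]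
          exact e4
        have e5 : rep τ hτ hinv hyb (M + 2) Y (sw (M + 1) 0) =
            (τ (pw F M Y) : pw F (M + 2) Y ⟶ pw F (M + 2) Y) :=
          rep_sw τ hτ hinv hyb (M + 1) Y 0 (by omega)
        refine (congrArg (fun t => t ≫ fold φ (M + 2) Y) e2).trans ?_
        refine Eq.trans ?_ (congrArg (fun t => fold φ (M + 2) Y ≫ t) e5.symm)
        exact fold_step' τ hτ φ hφ h1 h2 (fold φ M Y)
      · have e2 : sw (M + 1) (i + 1) = sh (M + 1) (sw M i) := (sh_sw M i (by omega)).symm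
        simp only
        rw [e2, blk_sh]
        have e3 : rep τ hτ hinv hyb (2 * (M + 2)) Y (sh (2 * (M + 1) + 1)
            (sh (2 * (M + 1)) (blk (M + 1) (sw M i)))) =
            (F.map (F.map (rep τ hτ hinv hyb (2 * (M + 1)) Y (blk (M + 1) (sw M i)))) :
              pw F (2 * (M + 2)) Y ⟶ pw F (2 * (M + 2)) Y) :=
          (rep_sh τ hτ hinv hyb (2 * (M + 1) + 1) Y _).trans
            (congrArg F.map (rep_sh τ hτ hinv hyb (2 * (M + 1)) Y _))
        have e4 : rep τ hτ hinv hyb (M + 2) Y (sh (M + 1) (sw M i)) =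
            (F.map (rep τ hτ hinv hyb (M + 1) Y (sw M i)) : pw F (M + 2) Y ⟶ pw F (M + 2) Y) :=
          rep_sh τ hτ hinv hyb (M + 1) Y _
        refine (congrArg (fun t => t ≫ fold φ (M + 2) Y) e3).trans ?_
        refine Eq.trans ?_ (congrArg (fun t => fold φ (M + 2) Y ≫ t) e4.symm)
        exact fold_step φ (fold φ (M + 1) Y) _ _ (ih (sw M i)) hφ
    | one =>
      simp only [map_one]
      exact (Category.id_comp _).trans (Category.comp_id _).symm
    | mul s t _ _ hs ht =>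
      rw [map_mul, map_mul, map_mul]
      change (rep τ hτ hinv hyb (2 * (M + 2)) Y (blk (M + 2) t) ≫
        rep τ hτ hinv hyb (2 * (M + 2)) Y (blk (M + 2) s)) ≫ fold φ (M + 2) Y =
        fold φ (M + 2) Y ≫ rep τ hτ hinv hyb (M + 2) Y t ≫ rep τ hτ hinv hyb (M + 2) Y s
      rw [Category.assoc, hs, ← Category.assoc, ht, Category.assoc]

include hτ hinv hyb hφ h1 h2 in
/-- If the symmetrizer of `N` strands vanishes and `φ` is epi, some antisymmetrizer vanishes. -/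
theorem exists_alt_eq_zero [Preadditive A] [F.Additive] {k : Type*} [Field k] [CharZero k]
    [Linear k A] {N : ℕ} {Y : A} (h : ss τ 1 N Y = 0) (hepi : ∀ M, Epi (fold φ M Y)) :
    ∃ M, ss τ (-1) M Y = 0 := by
  refine ⟨bd N N, ?_⟩
  set M := bd N N with hM
  have hev : ∀ T : Finset (Fin M), T.card = N →
      ∑ σ ∈ P T, ((rep τ hτ hinv hyb (2 * M) Y).comp (ev M)) σ = 0 := by
    intro T hT
    have e1 := sum_P_map (evE M) (ev M) (ev_ev M) (ev_not M) T
      (fun σ => rep τ hτ hinv hyb (2 * M) Y σ)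
    refine Eq.trans ?_ (e1.trans (sum_P_rep τ hτ hinv hyb h (T.map (evE M))
      (by rw [Finset.card_map, hT])))
    rfl
  have hod : ∀ T : Finset (Fin M), T.card = N →
      ∑ σ ∈ P T, ((rep τ hτ hinv hyb (2 * M) Y).comp (od M)) σ = 0 := by
    intro T hT
    have e1 := sum_P_map (odE M) (od M) (od_od M) (od_not M) T
      (fun σ => rep τ hτ hinv hyb (2 * M) Y σ)
    refine Eq.trans ?_ (e1.trans (sum_P_rep τ hτ hinv hyb h (T.map (odE M))
      (by rw [Finset.card_map, hT])))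
    rfl
  have h3 := alt_zero k ((rep τ hτ hinv hyb (2 * M) Y).comp (ev M))
    ((rep τ hτ hinv hyb (2 * M) Y).comp (od M)) (fun σ τ' => by
      simp only [MonoidHom.comp_apply, ← map_mul]
      rw [ev_od_comm]) N hev hod (by simp [hM])
  have h4 : ∀ σ : Perm (Fin M), ((rep τ hτ hinv hyb (2 * M) Y).comp (ev M)) σ *
      ((rep τ hτ hinv hyb (2 * M) Y).comp (od M)) σ = rep τ hτ hinv hyb (2 * M) Y (blk M σ) := by
    intro σ
    simp only [MonoidHom.comp_apply, ← map_mul]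
    rfl
  simp only [h4] at h3
  have h5 : (∑ σ : Perm (Fin M), (Perm.sign σ : ℤ) •
      (rep τ hτ hinv hyb (2 * M) Y (blk M σ) : pw F (2 * M) Y ⟶ pw F (2 * M) Y)) ≫
      fold φ M Y = 0 := by
    refine (congrArg (fun t => t ≫ fold φ M Y) h3).trans ?_
    exact Limits.zero_comp
  rw [Preadditive.sum_comp] at h5
  have h6 : ∀ σ : Perm (Fin M), ((Perm.sign σ : ℤ) •
      (rep τ hτ hinv hyb (2 * M) Y (blk M σ) : pw F (2 * M) Y ⟶ pw F (2 * M) Y)) ≫ fold φ M Y =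
      fold φ M Y ≫ ((Perm.sign σ : ℤ) • (rep τ hτ hinv hyb M Y σ : pw F M Y ⟶ pw F M Y)) := by
    intro σ
    rw [Preadditive.zsmul_comp, Preadditive.comp_zsmul, rep_blk_fold τ hτ hinv hyb φ hφ h1 h2]
  rw [Finset.sum_congr rfl fun σ _ => h6 σ, ← Preadditive.comp_sum, sum_rep_sign] at h5
  have := hepi M
  rw [← cancel_epi (fold φ M Y), h5, comp_zero]

end Fold

section Monoidal

variable {C : Type u} [Category.{v} C] [MonoidalCategory C] [BraidedCategory C]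

theorem swp_tensor_right (V W U Y : C) :
    V ◁ (α_ W U Y).inv ≫ (α_ V (W ⊗ U) Y).inv ≫ ((β_ V (W ⊗ U)).hom ▷ Y) ≫
      (α_ (W ⊗ U) V Y).hom =
    ((α_ V W (U ⊗ Y)).inv ≫ ((β_ V W).hom ▷ (U ⊗ Y)) ≫ (α_ W V (U ⊗ Y)).hom) ≫
      W ◁ ((α_ V U Y).inv ≫ ((β_ V U).hom ▷ Y) ≫ (α_ U V Y).hom) ≫ (α_ W U (V ⊗ Y)).inv := by
  rw [BraidedCategory.braiding_tensor_right_hom]
  monoidal

theorem swp_tensor_left (V W U Y : C) :
    (α_ V W (U ⊗ Y)).inv ≫ (α_ (V ⊗ W) U Y).inv ≫ ((β_ (V ⊗ W) U).hom ▷ Y) ≫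
      (α_ U (V ⊗ W) Y).hom =
    V ◁ ((α_ W U Y).inv ≫ ((β_ W U).hom ▷ Y) ≫ (α_ U W Y).hom) ≫
      ((α_ V U (W ⊗ Y)).inv ≫ ((β_ V U).hom ▷ (W ⊗ Y)) ≫ (α_ U V (W ⊗ Y)).hom) ≫
      U ◁ (α_ V W Y).inv := by
  rw [BraidedCategory.braiding_tensor_left_hom]
  monoidal

end Monoidal

section Final

variable {k : Type*} [Field k] {C : Type u} [Category.{v} C] [Abelian C] [Linear k C]
  [MonoidalCategory C] [MonoidalPreadditive C] [MonoidalLinear k C] [RigidCategory C]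
  [BraidedCategory C]

/-- `V ⊗ (V ⊗ Y) ⟶ V ⊗ Y` from `f : V ⊗ V ⟶ V`. -/
def phiV {V : C} (f : V ⊗ V ⟶ V) (Y : C) : V ⊗ (V ⊗ Y) ⟶ V ⊗ Y := (α_ V V Y).inv ≫ (f ▷ Y)

theorem phiV_nat {V : C} (f : V ⊗ V ⟶ V) {Y Y' : C} (g : Y ⟶ Y') :
    (V ◁ (V ◁ g)) ≫ phiV f Y' = phiV f Y ≫ (V ◁ g) := by
  unfold phiV
  rw [Category.assoc, ← whisker_exchange, ← Category.assoc, ← Category.assoc,
    associator_inv_naturality_right]

theorem phiV_braid₁ {V : C} (f : V ⊗ V ⟶ V) (Y : C) :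
    (V ◁ phiV f Y) ≫ swp V V Y = swp V V (V ⊗ Y) ≫ (V ◁ swp V V Y) ≫ phiV f (V ⊗ Y) := by
  have h := swp_tensor_right V V V Y
  unfold phiV
  rw [whiskerLeft_comp, Category.assoc, swp_nat_mid, ← Category.assoc]
  change (V ◁ (α_ V V Y).inv ≫ (α_ V (V ⊗ V) Y).inv ≫ ((β_ V (V ⊗ V)).hom ▷ Y) ≫
    (α_ (V ⊗ V) V Y).hom) ≫ _ = _
  rw [h]
  simp only [swp_eq, Category.assoc]

theorem phiV_braid₂ {V : C} (f : V ⊗ V ⟶ V) (Y : C) :
    phiV f (V ⊗ Y) ≫ swp V V Y = (V ◁ swp V V Y) ≫ swp V V (V ⊗ Y) ≫ (V ◁ phiV f Y) := by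
  have h := swp_tensor_left V V V Y
  unfold phiV
  rw [Category.assoc, swp_nat_left, ← Category.assoc]
  change ((α_ V V (V ⊗ Y)).inv ≫ (α_ (V ⊗ V) V Y).inv ≫ ((β_ (V ⊗ V) V).hom ▷ Y) ≫
      (α_ V (V ⊗ V) Y).hom) ≫ _ = _
  rw [h]
  simp only [swp_eq, whiskerLeft_comp, Category.assoc]

/-- **Rows B2a-c**: a simple object with a vanishing symmetrizer is not a quotient of its tensor
square. -/
theorem hom_tsq_eq_zero [IsAlgClosed k] [CharZero k] (hC : IsFinite k C) {V : C} [Simple V]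
    (hV : Comm V V) {N : ℕ} (hN : sv V 1 N (𝟙_ C) = 0) (f : V ⊗ V ⟶ V) : f = 0 := by
  by_contra hf
  have hepi : Epi f := epi_of_nonzero_to_simple hf
  have hphi : ∀ Y, Epi (phiV f Y) := fun Y => by
    have : Epi (f ▷ Y) := inferInstanceAs (Epi ((tensorRight Y).map f))
    exact epi_comp _ _
  have hfold : ∀ M, Epi (fold (F := tensorLeft V) (phiV f) M (𝟙_ C)) := by
    intro M
    induction M with
    | zero => exact inferInstanceAs (Epi (𝟙 (𝟙_ C)))
    | succ M ih =>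
      have h1 : Epi (V ◁ (V ◁ fold (F := tensorLeft V) (phiV f) M (𝟙_ C))) := by
        have h2 : Epi (V ◁ fold (F := tensorLeft V) (phiV f) M (𝟙_ C)) :=
          inferInstanceAs (Epi ((tensorLeft V).map _))
        exact inferInstanceAs (Epi ((tensorLeft V).map _))
      have h3 := hphi (pw (tensorLeft V) M (𝟙_ C))
      exact epi_comp (V ◁ (V ◁ fold (F := tensorLeft V) (phiV f) M (𝟙_ C)))
        (phiV f (pw (tensorLeft V) M (𝟙_ C)))
  obtain ⟨M, hM⟩ := exists_alt_eq_zero (F := tensorLeft V) (swp V V)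
    (fun g => swp_nat V V g) (fun Y => swp_swp hV Y) (fun Y => swp_yb V Y) (phiV f)
    (fun g => phiV_nat f g) (fun Y => phiV_braid₁ f Y) (fun Y => phiV_braid₂ f Y) (k := k)
    (N := N) (Y := 𝟙_ C) hN hfold
  exact sv_ne_zero hC hV N hN M hM

/-- A Leibniz family on a simple object `V` with `Comm V V` vanishes on `V`. -/
theorem leib_self_eq_zero' [IsAlgClosed k] [CharZero k] (hC : IsFinite k C) {V : C} [Simple V]
    (hV : Comm V V) (L : Leib V) : L.d V = 0 := by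
  by_cases hne : L.Nonzero
  · obtain ⟨N, hN⟩ := prim_plus' hC L hne
    exact hom_tsq_eq_zero hC hV hN (L.d V)
  · by_contra h
    exact hne ⟨V, h⟩

theorem leib_self_eq_zero [IsAlgClosed k] [CharZero k] (hC : IsFinite k C)
    (hsym : ∀ X Y : C, Comm X Y) {V : C} [Simple V] (L : Leib V) : L.d V = 0 :=
  leib_self_eq_zero' hC (hsym V V) L

/-- A Leibniz family on a simple object `V` with `Comm V V` commutes with itself. -/
theorem lcomm_of_comm [IsAlgClosed k] [CharZero k] (hC : IsFinite k C) {V : C} [Simple V]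
    (hV : Comm V V) (L : Leib V) : LComm L :=
  lcomm_of_self L (leib_self_eq_zero' hC hV L)

/-- **Theorem B**: a Leibniz family on a simple object `V` with `Comm V V` vanishes on the simple
objects. -/
theorem leib_simple_eq_zero' [IsAlgClosed k] [CharZero k] (hC : IsFinite k C) {V : C} [Simple V]
    (hV : Comm V V) (L : Leib V) (S : C) [Simple S] : L.d S = 0 :=
  leib_simple_of_nilp hC L (nilp' hC L (lcomm_of_comm hC hV L)) S

/-- **Theorem B** in a symmetric category. -/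
theorem leib_simple_eq_zero [IsAlgClosed k] [CharZero k] (hC : IsFinite k C)
    (hsym : ∀ X Y : C, Comm X Y) {V : C} [Simple V] (L : Leib V) (S : C) [Simple S] :
    L.d S = 0 :=
  leib_simple_eq_zero' hC (hsym V V) L S

end Final

end Pool.Agent.MCH
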