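import Pool.Agent.MCH.ThmA
import Pool.Agent.MCH.CH
import Pool.Agent.MCH.Odd

/-!
# Theorem CH: the Chevalley property of symmetric tensor categories in characteristic zero
(assembly, helper64)
-/

open CategoryTheory MonoidalCategory Limits Abelian

universe w v u

set_option linter.unusedSectionVars false

namespace Pool.Agent.MCH

open Pool.Agent.MUG Pool.Agent.MUP

section Chev

variable {k : Type*} [Field k] {Z : Type u} [Category.{v} Z] [Abelian Z] [Linear k Z]
  [MonoidalCategory Z] [MonoidalPreadditive Z] [MonoidalLinear k Z] [RigidCategory Z]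
  [BraidedCategory Z]

/-- **Theorem CH.** The simple objects of a symmetric tensor subcategory lie in a semisimple
tensor subcategory. -/
theorem chevalley [IsAlgClosed k] [CharZero k] (hZ : IsFinite k Z) (E : ObjectProperty Z)
    [TensorSub E] (hsym : E ≤ centralizer E) :
    ∃ F : ObjectProperty Z, TensorSub F ∧ Semisimp F ∧ F ≤ E ∧
      ∀ S, Simple S → E S → F S := by
  have hcomm : ∀ F : ObjectProperty Z, ∀ _ : TensorSub F, F ≤ E →
      ∀ X Y : F.FullSubcategory, Comm X Y := by
    intro F hF hFE X Y
    change (β_ X Y).hom ≫ (β_ Y X).hom = 𝟙 (X ⊗ Y)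
    ext
    exact hsym _ (hFE _ X.property) Y.obj (hFE _ Y.property)
  refine ch_of hZ E ?_ ?_
  · intro F hF hFE hL A B p hp
    exact semisimple_of_no_leib (finite_sub hZ F) (hcomm F hF hFE) hL p hp
  · intro F hF hFE V hV L S hS
    exact leib_simple_eq_zero (finite_sub hZ F) (hcomm F hF hFE) L S

end Chev

end Pool.Agent.MCH
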