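import Mathlib

/-!
# Symmetrizers and antisymmetrizers generate everything (helper65, after helper72)

`P T` is the set of permutations of `ι` supported in `T`. If on a representation of `Perm ι` all
symmetrizers of `N` letters and all antisymmetrizers of `N'` letters vanish and `ι` is large, then
the representation is zero.
-/

open Equiv

namespace Pool.Agent.MCH

section Perms

variable {ι : Type*} [Fintype ι] [DecidableEq ι]

/-- The permutations supported in `T`. -/
def P (T : Finset ι) : Finset (Perm ι) := Finset.univ.filter fun σ => ∀ x, x ∉ T → σ x = x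

theorem mem_P {T : Finset ι} {σ : Perm ι} : σ ∈ P T ↔ ∀ x, x ∉ T → σ x = x := by
  simp [P]

theorem one_mem_P (T : Finset ι) : (1 : Perm ι) ∈ P T := mem_P.2 fun _ _ => rfl

theorem mul_mem_P {T : Finset ι} {σ τ : Perm ι} (h : σ ∈ P T) (h' : τ ∈ P T) : σ * τ ∈ P T :=
  mem_P.2 fun x hx => by rw [Perm.mul_apply, mem_P.1 h' x hx, mem_P.1 h x hx]

theorem inv_mem_P {T : Finset ι} {σ : Perm ι} (h : σ ∈ P T) : σ⁻¹ ∈ P T :=
  mem_P.2 fun x hx => by rw [Perm.inv_eq_iff_eq, mem_P.1 h x hx]

theorem P_mono {T U : Finset ι} (h : T ⊆ U) : P T ⊆ P U := fun _ hσ =>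
  mem_P.2 fun x hx => mem_P.1 hσ x fun hx' => hx (h hx')

theorem P_empty : P (∅ : Finset ι) = {1} := by
  ext σ
  rw [mem_P, Finset.mem_singleton]
  exact ⟨fun h => by ext x; exact h x (Finset.notMem_empty x), fun h x _ => by rw [h]; rfl⟩

theorem P_univ : P (Finset.univ : Finset ι) = Finset.univ := by
  ext σ
  simp [mem_P]

theorem P_singleton (i : ι) : P ({i} : Finset ι) = {1} := by
  ext σ
  rw [mem_P, Finset.mem_singleton]
  refine ⟨fun h => ?_, fun h x _ => by rw [h]; rfl⟩
  ext x
  rcases eq_or_ne x i with rfl | hx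
  · by_contra hne
    have h1 := h (σ x) (by simpa using hne)
    exact hne (σ.injective h1)
  · exact h x (by simpa using hx)

theorem sum_P_inv {M : Type*} [AddCommMonoid M] (T : Finset ι) (f : Perm ι → M) :
    ∑ σ ∈ P T, f σ⁻¹ = ∑ σ ∈ P T, f σ :=
  Finset.sum_bij' (fun σ _ => σ⁻¹) (fun σ _ => σ⁻¹) (fun _ h => inv_mem_P h)
    (fun _ h => inv_mem_P h) (fun _ _ => inv_inv _) (fun _ _ => inv_inv _) (fun _ _ => rfl)

theorem sum_insert_left {M : Type*} [AddCommMonoid M] {T : Finset ι} {j : ι} (hj : j ∉ T)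
    (f : Perm ι → M) :
    ∑ σ ∈ P (insert j T), f σ = ∑ i ∈ insert j T, ∑ τ ∈ P T, f (swap j i * τ) := by
  rw [← Finset.sum_product']
  refine Finset.sum_bij' (fun σ _ => (σ j, swap j (σ j) * σ)) (fun p _ => swap j p.1 * p.2)
    ?_ ?_ ?_ ?_ ?_
  · intro σ hσ
    rw [Finset.mem_product]
    refine ⟨?_, mem_P.2 fun x hx => ?_⟩
    · by_contra h
      have h1 := mem_P.1 hσ _ h
      have h2 := σ.injective h1
      exact h (by rw [h2]; exact Finset.mem_insert_self j T)
    · rw [Perm.mul_apply]
      rcases eq_or_ne x j with rfl | hxj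
      · exact swap_apply_right _ _
      · have h1 : σ x = x := mem_P.1 hσ x (by simp [hxj, hx])
        rw [h1]
        refine swap_apply_of_ne_of_ne hxj fun h2 => hxj ?_
        rw [← h1] at h2
        exact σ.injective h2
  · rintro ⟨i, τ⟩ hp
    rw [Finset.mem_product] at hp
    refine mem_P.2 fun x hx => ?_
    rw [Finset.mem_insert, not_or] at hx
    rw [Perm.mul_apply, mem_P.1 hp.2 x hx.2]
    refine swap_apply_of_ne_of_ne hx.1 fun h => ?_
    rcases Finset.mem_insert.1 hp.1 with h1 | h1
    · exact hx.1 (h.trans h1)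
    · exact hx.2 (by rw [h]; exact h1)
  · intro σ _
    simp only
    rw [← mul_assoc, swap_mul_self, one_mul]
  · rintro ⟨i, τ⟩ hp
    rw [Finset.mem_product] at hp
    have h1 : (swap j i * τ) j = i := by
      rw [Perm.mul_apply, mem_P.1 hp.2 j hj, swap_apply_left]
    simp only [h1]
    rw [← mul_assoc, swap_mul_self, one_mul]
  · intro σ _
    simp only
    rw [← mul_assoc, swap_mul_self, one_mul]

theorem sum_insert_right {M : Type*} [AddCommMonoid M] {T : Finset ι} {j : ι} (hj : j ∉ T)
    (f : Perm ι → M) :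
    ∑ σ ∈ P (insert j T), f σ = ∑ i ∈ insert j T, ∑ τ ∈ P T, f (τ * swap j i) := by
  rw [← sum_P_inv, sum_insert_left hj]
  refine Finset.sum_congr rfl fun i _ => ?_
  rw [← sum_P_inv T]
  refine Finset.sum_congr rfl fun τ _ => ?_
  rw [mul_inv_rev, inv_inv, swap_inv]

theorem comm_P {T U : Finset ι} (h : Disjoint T U) {σ τ : Perm ι} (hσ : σ ∈ P T) (hτ : τ ∈ P U) :
    σ * τ = τ * σ := by
  refine Perm.Disjoint.commute fun x => ?_
  by_cases hx : x ∈ T
  · exact Or.inr (mem_P.1 hτ x (Finset.disjoint_left.1 h hx))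
  · exact Or.inl (mem_P.1 hσ x hx)

end Perms

section LemmaY

variable {k : Type*} [Field k] [CharZero k] {ι : Type*} [Fintype ι] [DecidableEq ι]
  {W : Type*} [AddCommGroup W] [Module k W] (ρ : Perm ι →* Module.End k W)

/-- The bound in Lemma Y. -/
def bd : ℕ → ℕ → ℕ
  | 0, _ => 0
  | _ + 1, 0 => 0
  | N + 1, N' + 1 => max 1 (max (bd N (N' + 1)) (bd (N + 1) N' + N))
termination_by N N' => (N, N')

theorem lemY : ∀ (N N' : ℕ) (U : Finset ι) (W₁ : Submodule k W) (_ : bd N N' ≤ U.card)
    (_ : ∀ σ ∈ P U, ∀ w ∈ W₁, ρ σ w ∈ W₁)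
    (_ : ∀ T ⊆ U, T.card = N → ∀ w ∈ W₁, ∑ σ ∈ P T, ρ σ w = 0)
    (_ : ∀ T ⊆ U, T.card = N' → ∀ w ∈ W₁, ∑ σ ∈ P T, (Perm.sign σ : ℤ) • ρ σ w = 0), W₁ = ⊥ := by
  intro N
  induction N with
  | zero =>
    intro N' U W₁ _ _ hs _
    rw [Submodule.eq_bot_iff]
    intro w hw
    have := hs ∅ (Finset.empty_subset _) rfl w hw
    simpa [P_empty] using this
  | succ N ihN =>
    intro N'
    induction N' with
    | zero =>
      intro U W₁ _ _ _ ha
      rw [Submodule.eq_bot_iff]
      intro w hw
      have := ha ∅ (Finset.empty_subset _) rfl w hw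
      simpa [P_empty] using this
    | succ N' ihN' =>
      intro U W₁ hU hst hs ha
      rw [bd, max_le_iff, max_le_iff] at hU
      obtain ⟨hU1, hU2, hU3⟩ := hU
      obtain ⟨i₀, hi₀⟩ := Finset.card_pos.1 hU1
      rcases Nat.eq_zero_or_pos N with hN | hN
      · subst hN
        rw [Submodule.eq_bot_iff]
        intro w hw
        have := hs {i₀} (by simpa using hi₀) (by simp) w hw
        simpa [P_singleton] using this
      by_contra hne
      obtain ⟨T, hTU, hT, w₀, hw₀, hne₀⟩ : ∃ T ⊆ U, T.card = N ∧ ∃ w ∈ W₁,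
          ∑ σ ∈ P T, ρ σ w ≠ 0 := by
        by_contra hc
        push Not at hc
        exact hne (ihN (N' + 1) U W₁ hU2 hst hc ha)
      -- the symmetrizer of `T`
      let s : Module.End k W := ∑ σ ∈ P T, ρ σ
      have hsdef : ∀ w, s w = ∑ σ ∈ P T, ρ σ w := fun w => by
        simp only [s, LinearMap.sum_apply]
      let W₂ : Submodule k W := W₁.map s
      have hW₂ : W₂ ≤ W₁ := by
        rintro _ ⟨w, hw, rfl⟩
        rw [hsdef]
        exact Submodule.sum_mem _ fun σ hσ => hst σ (P_mono hTU hσ) w hw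
      have hcard : (U \ T).card = U.card - N := by
        rw [Finset.card_sdiff_of_subset hTU, hT]
      have hbot : W₂ = ⊥ := by
        refine ihN' (U \ T) W₂ (by omega) ?_ ?_ ?_
        · rintro σ hσ _ ⟨w, hw, rfl⟩
          refine ⟨ρ σ w, hst σ (P_mono Finset.sdiff_subset hσ) w hw, ?_⟩
          rw [hsdef, hsdef, map_sum]
          refine Finset.sum_congr rfl fun τ hτ => ?_
          rw [← Module.End.mul_apply, ← Module.End.mul_apply, ← map_mul, ← map_mul,
            comm_P Finset.disjoint_sdiff hτ hσ]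
        · intro T' hT' hc w hw
          exact hs T' (hT'.trans Finset.sdiff_subset) hc w (hW₂ hw)
        · rintro T' hT' hc w₂ hw₂
          have hw₂' := hW₂ hw₂
          obtain ⟨w, hw, hsw⟩ := hw₂
          have hsw' : ∑ σ ∈ P T, ρ σ w = w₂ := by rw [← hsdef]; exact hsw
          let a : Module.End k W := ∑ σ ∈ P T', (Perm.sign σ : ℤ) • ρ σ
          have hadef : ∀ w, a w = ∑ σ ∈ P T', (Perm.sign σ : ℤ) • ρ σ w := fun w => by
            simp only [a, LinearMap.sum_apply, LinearMap.smul_apply]
          rw [← hadef]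
          -- relation for `j ∈ T'`
          have h1 : ∀ j ∈ T', ∑ i ∈ T, ρ (swap j i) w₂ = - w₂ := by
            intro j hj
            have hjU := hT' hj
            rw [Finset.mem_sdiff] at hjU
            have h2 := hs (insert j T) (Finset.insert_subset hjU.1 hTU)
              (by rw [Finset.card_insert_of_notMem hjU.2, hT]) w hw
            rw [sum_insert_left hjU.2, Finset.sum_insert hjU.2] at h2
            simp only [map_mul, Module.End.mul_apply] at h2
            rw [← map_sum, hsw', swap_self] at h2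
            have h3 : ∀ i ∈ T, ∑ τ ∈ P T, ρ (swap j i) (ρ τ w) = ρ (swap j i) w₂ := by
              intro i _
              rw [← map_sum, hsw']
            rw [Finset.sum_congr rfl h3] at h2
            have h4 : ρ (Equiv.refl ι) w₂ = w₂ := by
              change ρ 1 w₂ = w₂
              rw [map_one, Module.End.one_apply]
            rw [h4] at h2
            exact eq_neg_of_add_eq_zero_right h2
          -- relation for `i ∈ T`
          have h5 : ∀ i ∈ T, a w₂ = ∑ j ∈ T', a (ρ (swap i j) w₂) := by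
            intro i hi
            have hiT' : i ∉ T' := fun h => (Finset.mem_sdiff.1 (hT' h)).2 hi
            have h2 := ha (insert i T') (Finset.insert_subset (hTU hi)
              (hT'.trans Finset.sdiff_subset))
              (by rw [Finset.card_insert_of_notMem hiT', hc]) w₂ hw₂'
            rw [sum_insert_right hiT', Finset.sum_insert hiT'] at h2
            have h3 : ∑ τ ∈ P T', (Perm.sign (τ * swap i i) : ℤ) • ρ (τ * swap i i) w₂ = a w₂ := by
              rw [hadef]
              refine Finset.sum_congr rfl fun τ _ => ?_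
              rw [swap_self]
              rfl
            have h4 : ∀ j ∈ T', ∑ τ ∈ P T', (Perm.sign (τ * swap i j) : ℤ) •
                ρ (τ * swap i j) w₂ = - a (ρ (swap i j) w₂) := by
              intro j hj
              rw [hadef, ← Finset.sum_neg_distrib]
              refine Finset.sum_congr rfl fun τ _ => ?_
              have hij : i ≠ j := fun h => hiT' (h ▸ hj)
              rw [map_mul, map_mul, Perm.sign_swap hij, Module.End.mul_apply]
              simp
            rw [h3, Finset.sum_congr rfl h4, Finset.sum_neg_distrib] at h2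
            exact eq_of_sub_eq_zero (by rw [sub_eq_add_neg]; exact h2)
          have h6 : (N : k) • a w₂ = - ((N' : k) • a w₂) := by
            calc (N : k) • a w₂ = ∑ i ∈ T, a w₂ := by
                  rw [Finset.sum_const, hT, Nat.cast_smul_eq_nsmul]
              _ = ∑ i ∈ T, ∑ j ∈ T', a (ρ (swap i j) w₂) := Finset.sum_congr rfl h5
              _ = ∑ j ∈ T', a (∑ i ∈ T, ρ (swap j i) w₂) := by
                  rw [Finset.sum_comm]
                  refine Finset.sum_congr rfl fun j _ => ?_
                  rw [map_sum]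
                  refine Finset.sum_congr rfl fun i _ => ?_
                  rw [swap_comm]
              _ = ∑ j ∈ T', - a w₂ := Finset.sum_congr rfl fun j hj => by
                  rw [h1 j hj, map_neg]
              _ = - ((N' : k) • a w₂) := by
                  rw [Finset.sum_neg_distrib, Finset.sum_const, hc, Nat.cast_smul_eq_nsmul]
          have h7 : ((N + N' : ℕ) : k) • a w₂ = 0 := by
            rw [Nat.cast_add, add_smul, h6, neg_add_cancel]
          have h8 : ((N + N' : ℕ) : k) ≠ 0 := by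
            exact_mod_cast (by omega : N + N' ≠ 0)
          exact (smul_eq_zero.1 h7).resolve_left h8
      apply hne₀
      have : s w₀ ∈ W₂ := ⟨w₀, hw₀, rfl⟩
      rw [hbot, Submodule.mem_bot, hsdef] at this
      exact this

end LemmaY

section Alt

variable (k : Type*) [Field k] [CharZero k] {ι : Type*} [Fintype ι] [DecidableEq ι]
  {R : Type*} [Ring R] [Algebra k R] (α β : Perm ι →* R)

/-- Conjugation of a sum over `P T`. -/
theorem sum_P_conj {M : Type*} [AddCommMonoid M] (x : Perm ι) (T : Finset ι) (f : Perm ι → M) :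
    ∑ σ ∈ P T, f (x * σ * x⁻¹) = ∑ σ ∈ P (T.map x.toEmbedding), f σ := by
  refine Finset.sum_bij' (fun σ _ => x * σ * x⁻¹) (fun σ _ => x⁻¹ * σ * x) ?_ ?_ ?_ ?_ ?_
  · intro σ hσ
    refine mem_P.2 fun y hy => ?_
    have h1 : x⁻¹ y ∉ T := fun h => hy (Finset.mem_map.2 ⟨x⁻¹ y, h, by simp⟩)
    rw [Perm.mul_apply, Perm.mul_apply, mem_P.1 hσ _ h1]
    exact x.apply_symm_apply y
  · intro σ hσ
    refine mem_P.2 fun y hy => ?_
    have h1 : x y ∉ T.map x.toEmbedding := by
      simpa [Finset.mem_map] using hy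
    rw [Perm.mul_apply, Perm.mul_apply, mem_P.1 hσ _ h1]
    exact x.symm_apply_apply y
  · intro σ _; group
  · intro σ _; group
  · intro σ _; rfl

include k in
/-- The signed sum of the diagonal permutations vanishes (2.2). -/
theorem alt_zero (hαβ : ∀ σ τ, α σ * β τ = β τ * α σ) (N : ℕ)
    (hα : ∀ T : Finset ι, T.card = N → ∑ σ ∈ P T, α σ = 0)
    (hβ : ∀ T : Finset ι, T.card = N → ∑ σ ∈ P T, β σ = 0)
    (hι : bd N N ≤ Fintype.card ι) :
    ∑ σ : Perm ι, (Perm.sign σ : ℤ) • (α σ * β σ) = 0 := by
  set e : R := ∑ σ : Perm ι, (Perm.sign σ : ℤ) • (α σ * β σ) with he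
  let ρ : Perm ι →* Module.End k R :=
    { toFun := fun σ => LinearMap.mulRight k (β σ⁻¹)
      map_one' := by ext w; simp
      map_mul' := fun σ τ => by
        ext w
        simp [mul_inv_rev, map_mul, mul_assoc] }
  have hρ : ∀ σ w, ρ σ w = w * β σ⁻¹ := fun σ w => rfl
  -- `e * β τ = sign τ • e * α τ⁻¹`
  have key : ∀ τ : Perm ι, e * β τ = (Perm.sign τ : ℤ) • (e * α τ⁻¹) := by
    intro τ
    rw [he, Finset.sum_mul, Finset.sum_mul, Finset.smul_sum]
    rw [← Equiv.sum_comp (Equiv.mulRight τ⁻¹)]
    refine Finset.sum_congr rfl fun σ _ => ?_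
    rw [Equiv.coe_mulRight, smul_mul_assoc, smul_mul_assoc, smul_smul, map_mul, Perm.sign_inv,
      mul_assoc, ← map_mul β, inv_mul_cancel_right, map_mul α, mul_assoc (α σ), mul_assoc (α σ),
      ← hαβ]
    congr 1
    push_cast
    ring
  let W₁ : Submodule k R := Submodule.span k (Set.range fun x : Perm ι => e * β x)
  have hW : W₁ = ⊥ := by
    refine lemY ρ N N Finset.univ W₁ (by rwa [Finset.card_univ]) ?_ ?_ ?_
    · intro σ _ w hw
      rw [hρ]
      refine Submodule.span_induction (p := fun w _ => w * β σ⁻¹ ∈ W₁) ?_ ?_ ?_ ?_ hw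
      · rintro _ ⟨x, rfl⟩
        exact Submodule.subset_span ⟨x * σ⁻¹, by simp only [map_mul, mul_assoc]⟩
      · rw [zero_mul]; exact Submodule.zero_mem _
      · intro a b _ _ ha hb
        rw [add_mul]; exact Submodule.add_mem _ ha hb
      · intro c a _ ha
        rw [smul_mul_assoc]; exact Submodule.smul_mem _ _ ha
    · intro T _ hT w _
      simp only [hρ]
      rw [← Finset.mul_sum, sum_P_inv T (fun σ => β σ), hβ T hT, mul_zero]
    · intro T _ hT w hw
      simp only [hρ]
      refine Submodule.span_induction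
        (p := fun w _ => ∑ σ ∈ P T, (Perm.sign σ : ℤ) • (w * β σ⁻¹) = 0) ?_ ?_ ?_ ?_ hw
      · rintro _ ⟨x, rfl⟩
        have h1 : ∀ σ ∈ P T, (Perm.sign σ : ℤ) • (e * β x * β σ⁻¹) =
            (e * α (x * σ * x⁻¹)) * β x := by
          intro σ _
          have h2 : e * β x * β σ⁻¹ = e * β (x * σ⁻¹ * x⁻¹) * β x := by
            rw [mul_assoc, mul_assoc, ← map_mul, ← map_mul, inv_mul_cancel_right]
          rw [h2, key, smul_mul_assoc, smul_smul]
          have h3 : ((Perm.sign σ : ℤ) * (Perm.sign (x * σ⁻¹ * x⁻¹) : ℤ)) = 1 := by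
            rw [map_mul, map_mul, Perm.sign_inv, Perm.sign_inv]
            have h4 : Perm.sign σ * (Perm.sign x * Perm.sign σ * Perm.sign x) = 1 := by
              rw [mul_comm (Perm.sign x), mul_assoc, Int.units_mul_self, mul_one,
                Int.units_mul_self]
            rw [← Units.val_mul, h4, Units.val_one]
          have h5 : (x * σ⁻¹ * x⁻¹)⁻¹ = x * σ * x⁻¹ := by
            rw [mul_inv_rev, mul_inv_rev, inv_inv, inv_inv, mul_assoc]
          rw [h3, one_smul, h5]
        simp only
        rw [Finset.sum_congr rfl h1, ← Finset.sum_mul, ← Finset.mul_sum,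
          sum_P_conj x T (fun σ => α σ), hα _ (by rw [Finset.card_map, hT]), mul_zero, zero_mul]
      · simp
      · intro a b _ _ ha hb
        simp only [add_mul, smul_add, Finset.sum_add_distrib, ha, hb, add_zero]
      · intro c a _ ha
        simp only [smul_mul_assoc, smul_comm _ c, ← Finset.smul_sum, ha, smul_zero]
  have h1 : e ∈ W₁ := Submodule.subset_span ⟨1, by simp⟩
  rw [hW, Submodule.mem_bot] at h1
  exact h1

end Alt

end Pool.Agent.MCH
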