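import Pool.Agent.MUG.Leib
import Pool.Agent.MUG.Mult
import Pool.Agent.MUG.P1
import Pool.Agent.MUG.JK

/-!
# Leibniz families: reduction to simple type, and from the trivial objects of the center (helper27)
-/

set_option autoImplicit false
set_option linter.unusedSectionVars false

open CategoryTheory MonoidalCategory Limits Abelian

universe w v u

namespace Pool.Agent.MCH

open Pool.Agent.MUG

section Gen

variable {C : Type u} [Category.{v} C] [Abelian C] [MonoidalCategory C] [MonoidalPreadditive C]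
  [BraidedCategory C]

/-- The restriction of a Leibniz family along a morphism. -/
def leibComap {b b' : C} (L : Leib b) (f : b' ⟶ b) : Leib b' where
  d Y := (f ▷ Y) ≫ L.d Y
  nat {Y Y'} g := by
    rw [whisker_exchange_assoc, L.nat, Category.assoc]
  leib Y Y' := by
    rw [L.leib]
    simp only [Preadditive.comp_add, comp_whiskerRight]
    congr 1
    · rw [associator_inv_naturality_left_assoc]
    · rw [associator_inv_naturality_left_assoc]
      have h1 : ((f ▷ Y) ▷ Y') ≫ ((β_ b Y).hom ▷ Y') =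
          ((β_ b' Y).hom ▷ Y') ≫ ((Y ◁ f) ▷ Y') := by
        rw [← comp_whiskerRight, BraidedCategory.braiding_naturality_left, comp_whiskerRight]
      rw [reassoc_of% h1, associator_naturality_middle_assoc, MonoidalCategory.whiskerLeft_comp]

theorem leibComap_d {b b' : C} (L : Leib b) (f : b' ⟶ b) (Y : C) :
    (leibComap L f).d Y = (f ▷ Y) ≫ L.d Y := rfl

end Gen

section Rig

variable {C : Type u} [Category.{v} C] [Abelian C] [MonoidalCategory C] [MonoidalPreadditive C]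
  [RigidCategory C] [BraidedCategory C]

/-- A Leibniz family which vanishes on a subobject descends to the quotient. -/
theorem leib_desc {S b c : C} (i : S ⟶ b) (p : b ⟶ c) (w : i ≫ p = 0)
    (hS : (ShortComplex.mk i p w).ShortExact) (L : Leib b) (hL : ∀ Y, (i ▷ Y) ≫ L.d Y = 0) :
    ∃ L' : Leib c, ∀ Y, (p ▷ Y) ≫ L'.d Y = L.d Y := by
  have hp : Epi p := hS.epi_g
  have hex : ∀ Y : C, ∃ d : c ⊗ Y ⟶ Y, (p ▷ Y) ≫ d = L.d Y := by
    intro Y
    have hY : ((ShortComplex.mk i p w).map (tensorRight Y)).ShortExact :=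
      hS.map_of_exact (tensorRight Y)
    have := hY.epi_g
    exact ⟨hY.exact.desc (L.d Y) (hL Y), hY.exact.g_desc (L.d Y) (hL Y)⟩
  choose d hd using hex
  have hpY : ∀ Y : C, Epi (p ▷ Y) := fun Y => inferInstanceAs (Epi ((tensorRight Y).map p))
  refine ⟨⟨d, ?_, ?_⟩, hd⟩
  · intro Y Y' f
    have := hpY Y
    rw [← cancel_epi (p ▷ Y), ← whisker_exchange_assoc, hd, L.nat, ← Category.assoc, hd]
  · intro Y Y'
    have := hpY (Y ⊗ Y')
    rw [← cancel_epi (p ▷ (Y ⊗ Y')), hd, L.leib, Preadditive.comp_add]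
    congr 1
    · rw [associator_inv_naturality_left_assoc, ← comp_whiskerRight, hd]
    · have h1 : ((p ▷ Y) ▷ Y') ≫ ((β_ c Y).hom ▷ Y') =
          ((β_ b Y).hom ▷ Y') ≫ ((Y ◁ p) ▷ Y') := by
        rw [← comp_whiskerRight, BraidedCategory.braiding_naturality_left, comp_whiskerRight]
      rw [associator_inv_naturality_left_assoc, reassoc_of% h1,
        associator_naturality_middle_assoc, ← MonoidalCategory.whiskerLeft_comp, hd]

variable {k : Type*} [Field k] [Linear k C]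

/-- If there is no nonzero Leibniz family of simple type, there is no nonzero Leibniz family. -/
theorem leib_eq_zero_of_simple (hC : IsFinite k C)
    (h : ∀ V : C, Simple V → ∀ L : Leib V, ¬ L.Nonzero) (b : C) (L : Leib b) (Y : C) :
    L.d Y = 0 := by
  obtain ⟨F⟩ := exists_fam hC.finCat
  revert L
  refine F.induction_sub hC.finCat (Q := fun b => ∀ L : Leib b, L.d Y = 0) ?_ ?_ b
  · intro X hX L
    have h0 : IsZero (X ⊗ Y) := by
      rw [IsZero.iff_id_eq_zero]
      have h1 : 𝟙 (X ⊗ Y) = (𝟙 X) ▷ Y := (id_whiskerRight X Y).symm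
      rw [h1, hX.eq_of_src (𝟙 X) 0, MonoidalPreadditive.zero_whiskerRight]
    exact h0.eq_of_src _ _
  · intro S hS hs h3 L
    have h0 : ∀ Y, (S.f ▷ Y) ≫ L.d Y = 0 := by
      intro Y
      by_contra hne
      exact h S.X₁ hs (leibComap L S.f) ⟨Y, hne⟩
    obtain ⟨L', hL'⟩ := leib_desc S.f S.g S.zero hS L h0
    rw [← hL', h3 L', comp_zero]

end Rig

set_option backward.isDefEq.respectTransparency.types false

section Center

variable {C : Type u} [Category.{v} C] [Abelian C] [MonoidalCategory C] [MonoidalPreadditive C]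
  [RigidCategory C] [BraidedCategory C]

/-- A Leibniz family on the image of `J` gives one on `C`. -/
theorem leib_of_jProp {b : Center C} (hb : jProp b)
    (L : Leib (⟨b, hb⟩ : (jProp (C := C)).FullSubcategory)) :
    ∃ L' : Leib b.1, ∀ V : C,
      L'.d V = (L.d ⟨jObj V, jProp_jObj V⟩).hom.f := by
  let jo : C → (jProp (C := C)).FullSubcategory := fun V => ⟨jObj V, jProp_jObj V⟩
  let B : (jProp (C := C)).FullSubcategory := ⟨b, hb⟩
  have hnat : ∀ {V V' : C} (f : V ⟶ V'),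
      (b.1 ◁ f) ≫ (L.d (jo V')).hom.f = (L.d (jo V)).hom.f ≫ f := by
    intro V V' f
    let f' : jo V ⟶ jo V' := ObjectProperty.homMk (jMap f)
    have h1 := congrArg (fun g => g.hom.f) (L.nat f')
    exact h1
  refine ⟨⟨fun V => (L.d (jo V)).hom.f, fun f => hnat f, ?_⟩, fun V => rfl⟩
  intro V V'
  -- the isomorphism `J V ⊗ J V' ≅ J (V ⊗ V')`
  let t : jo V ⊗ jo V' ⟶ jo (V ⊗ V') := ObjectProperty.homMk (jTensor V V').hom
  have h1 := congrArg (fun g => g.hom.f) (L.nat t)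
  have h2 : (L.d (jo V ⊗ jo V')).hom.f = (L.d (jo (V ⊗ V'))).hom.f := by
    have h3 : (b.1 ◁ 𝟙 (V ⊗ V')) ≫ (L.d (jo (V ⊗ V'))).hom.f =
        (L.d (jo V ⊗ jo V')).hom.f ≫ 𝟙 (V ⊗ V') := h1
    rw [MonoidalCategory.whiskerLeft_id, Category.id_comp] at h3
    rw [h3]
    exact (Category.comp_id _).symm
  have h4 := congrArg (fun g => g.hom.f) (L.leib (jo V) (jo V'))
  rw [← h2]
  have hbV : ((b.2.β V).hom : b.1 ⊗ V ⟶ V ⊗ b.1) = (β_ b.1 V).hom := (jProp_iff b).1 hb V
  have h5 : (L.d (jo V ⊗ jo V')).hom.f =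
      ((α_ B (jo V) (jo V')).inv ≫ (L.d (jo V) ▷ jo V')).hom.f +
      ((α_ B (jo V) (jo V')).inv ≫ ((β_ B (jo V)).hom ▷ jo V') ≫
        (α_ (jo V) B (jo V')).hom ≫ (jo V ◁ L.d (jo V'))).hom.f := h4
  rw [← hbV, h5]
  have h8 : (L.d (jo V) ▷ jo V').hom.f = ((L.d (jo V)).hom.f : b.1 ⊗ V ⟶ V) ▷ V' := rfl
  have h9 : ((α_ B (jo V) (jo V')).inv).hom.f = (α_ b.1 V V').inv :=
    Center.associator_inv_f b (jObj V) (jObj V')
  have h6 : ((α_ B (jo V) (jo V')).inv ≫ (L.d (jo V) ▷ jo V')).hom.f =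
      (α_ b.1 V V').inv ≫ (((L.d (jo V)).hom.f : b.1 ⊗ V ⟶ V) ▷ V') := by
    rw [← h8, ← h9]
    rfl
  have h7 : ((α_ B (jo V) (jo V')).inv ≫ ((β_ B (jo V)).hom ▷ jo V') ≫
        (α_ (jo V) B (jo V')).hom ≫ (jo V ◁ L.d (jo V'))).hom.f =
      (α_ b.1 V V').inv ≫ ((b.2.β V).hom ▷ V') ≫ (α_ V b.1 V').hom ≫
        (V ◁ (L.d (jo V')).hom.f) := by
    rw [← h9]
    rfl
  rw [h6, h7]
  rfl

end Center

end Pool.Agent.MCH
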