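import Mathlib

/-!
# Lemma Y: symmetrizers and antisymmetrizers (row B2b, helper53)

`ρ` is a representation of the group of permutations of a finite set `α`.  If all symmetrizers of
`N`-subsets and all antisymmetrizers of `N'`-subsets vanish on a set `S` which is stable under
`Perm α`, and `α` has at least `yb N N'` elements, then `S ⊆ {0}`.
-/

namespace Pool.Agent.MCH

open Finset

section Y

variable {α : Type*} [Fintype α] [DecidableEq α] {R : Type*} [Ring R]
  (ρ : Equiv.Perm α →* R)

/-- The permutations which move only elements of `T`. -/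
def perT (T : Finset α) : Finset (Equiv.Perm α) :=
  Finset.univ.filter fun σ => ∀ x, x ∉ T → σ x = x

/-- The symmetrizer of `T`. -/
def syT (T : Finset α) : R := ∑ σ ∈ perT T, ρ σ

/-- The antisymmetrizer of `T`. -/
def anT (T : Finset α) : R := ∑ σ ∈ perT T, ((Equiv.Perm.sign σ : ℤˣ) : ℤ) • ρ σ

omit [Fintype α] [DecidableEq α] in
theorem apply_inv_self_aux (σ : Equiv.Perm α) (x : α) : σ (σ⁻¹ x) = x :=
  Equiv.apply_symm_apply σ x

omit [Fintype α] [DecidableEq α] in
theorem inv_apply_self_aux (σ : Equiv.Perm α) (x : α) : σ⁻¹ (σ x) = x :=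
  Equiv.symm_apply_apply σ x

theorem mem_perT {T : Finset α} {σ : Equiv.Perm α} : σ ∈ perT T ↔ ∀ x, x ∉ T → σ x = x := by
  simp [perT]

theorem perT_mono {T T' : Finset α} (h : T ⊆ T') : perT T ⊆ perT T' := by
  intro σ hσ
  rw [mem_perT] at hσ ⊢
  exact fun x hx => hσ x fun hxT => hx (h hxT)

theorem perT_eq_one {T : Finset α} (hT : T.card ≤ 1) : perT T = {1} := by
  ext σ
  rw [mem_perT, Finset.mem_singleton]
  constructor
  · intro h
    ext x
    by_cases hx : x ∈ T
    · rw [Equiv.Perm.one_apply]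
      by_contra hne
      have h1 : σ x ∉ T := by
        intro h2
        exact hne (Finset.card_le_one.1 hT _ h2 _ hx)
      have h3 := h _ h1
      exact hne (σ.injective h3)
    · rw [h x hx]; rfl
  · rintro rfl x _
    rfl

theorem syT_eq_one {T : Finset α} (hT : T.card ≤ 1) : syT ρ T = 1 := by
  rw [syT, perT_eq_one hT, Finset.sum_singleton, map_one]

theorem anT_eq_one {T : Finset α} (hT : T.card ≤ 1) : anT ρ T = 1 := by
  rw [anT, perT_eq_one hT, Finset.sum_singleton, map_one]
  simp

theorem syT_insert {T : Finset α} {j : α} (hj : j ∉ T) :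
    syT ρ (insert j T) = syT ρ T + (∑ i ∈ T, ρ (Equiv.swap i j)) * syT ρ T := by
  have h1 : syT ρ (insert j T) = ∑ i ∈ insert j T, ρ (Equiv.swap i j) * syT ρ T := by
    simp only [syT, Finset.mul_sum, ← map_mul]
    rw [← Finset.sum_product']
    refine Finset.sum_bij' (fun σ _ => (σ j, Equiv.swap (σ j) j * σ))
      (fun p _ => Equiv.swap p.1 j * p.2) ?_ ?_ ?_ ?_ ?_
    · intro σ hσ
      rw [mem_perT] at hσ
      rw [Finset.mem_product, mem_perT]
      refine ⟨?_, fun x hx => ?_⟩
      · by_contra hc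
        have h2 := hσ _ hc
        have h3 := σ.injective h2
        exact hc (by rw [h3]; exact Finset.mem_insert_self _ _)
      · rw [Equiv.Perm.mul_apply]
        by_cases hxj : x = j
        · subst hxj
          exact Equiv.swap_apply_left _ _
        · have hx' : x ∉ insert j T := by
            rw [Finset.mem_insert, not_or]; exact ⟨hxj, hx⟩
          rw [hσ x hx']
          refine Equiv.swap_apply_of_ne_of_ne ?_ hxj
          intro h2
          have h3 := hσ x hx'
          rw [h2] at h3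
          have h4 := σ.injective h3
          rw [h4] at h2
          exact hxj h2
    · rintro ⟨i, τ⟩ h
      rw [Finset.mem_product, mem_perT] at h
      obtain ⟨hi, hτ⟩ := h
      rw [mem_perT]
      intro x hx
      rw [Finset.mem_insert, not_or] at hx
      rw [Equiv.Perm.mul_apply, hτ x hx.2]
      refine Equiv.swap_apply_of_ne_of_ne ?_ hx.1
      rintro rfl
      rw [Finset.mem_insert] at hi
      rcases hi with h2 | h2
      · exact hx.1 h2
      · exact hx.2 h2
    · intro σ _
      simp [← mul_assoc]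
    · rintro ⟨i, τ⟩ h
      rw [Finset.mem_product, mem_perT] at h
      obtain ⟨hi, hτ⟩ := h
      have h2 : τ j = j := hτ j hj
      have h3 : (Equiv.swap i j * τ) j = i := by
        rw [Equiv.Perm.mul_apply, h2, Equiv.swap_apply_right]
      simp only [h3, ← mul_assoc, Equiv.swap_mul_self, one_mul]
    · intro σ _
      simp [← mul_assoc]
  rw [h1, Finset.sum_insert hj, Finset.sum_mul]
  congr 1
  rw [Equiv.swap_self]
  exact (congrArg (· * syT ρ T) (map_one ρ)).trans (one_mul _)

theorem sign_inv_smul (σ : Equiv.Perm α) :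
    ((Equiv.Perm.sign σ⁻¹ : ℤˣ) : ℤ) = ((Equiv.Perm.sign σ : ℤˣ) : ℤ) := by
  rw [Equiv.Perm.sign_inv]

theorem anT_insert {T : Finset α} {j : α} (hj : j ∉ T) :
    anT ρ (insert j T) = anT ρ T - anT ρ T * ∑ i ∈ T, ρ (Equiv.swap i j) := by
  have h1 : anT ρ (insert j T) = ∑ i ∈ insert j T,
      anT ρ T * (((Equiv.Perm.sign (Equiv.swap i j) : ℤˣ) : ℤ) • ρ (Equiv.swap i j)) := by
    simp only [anT, Finset.sum_mul, smul_mul_assoc, mul_smul_comm, Finset.smul_sum, smul_smul,
      ← map_mul]
    rw [← Finset.sum_product']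
    refine Finset.sum_bij' (fun σ _ => (σ⁻¹ j, σ * Equiv.swap (σ⁻¹ j) j))
      (fun p _ => p.2 * Equiv.swap p.1 j) ?_ ?_ ?_ ?_ ?_
    · intro σ hσ
      rw [mem_perT] at hσ
      rw [Finset.mem_product, mem_perT]
      have hσ' : ∀ x, x ∉ insert j T → σ⁻¹ x = x := by
        intro x hx
        rw [Equiv.Perm.inv_eq_iff_eq, hσ x hx]
      refine ⟨?_, fun x hx => ?_⟩
      · by_contra hc
        have h2 := hσ _ hc
        rw [apply_inv_self_aux] at h2
        exact hc (by rw [← h2]; exact Finset.mem_insert_self _ _)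
      · rw [Equiv.Perm.mul_apply]
        by_cases hxj : x = j
        · subst hxj
          rw [Equiv.swap_apply_right, apply_inv_self_aux]
        · have hx' : x ∉ insert j T := by
            rw [Finset.mem_insert, not_or]; exact ⟨hxj, hx⟩
          have h5 : x ≠ σ⁻¹ j := by
            intro h2
            have h3 : σ x = j := by rw [h2, apply_inv_self_aux]
            rw [hσ x hx'] at h3
            exact hxj h3
          rw [Equiv.swap_apply_of_ne_of_ne h5 hxj, hσ x hx']
    · rintro ⟨i, τ⟩ h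
      rw [Finset.mem_product, mem_perT] at h
      obtain ⟨hi, hτ⟩ := h
      rw [mem_perT]
      intro x hx
      rw [Finset.mem_insert, not_or] at hx
      have h5 : x ≠ i := by
        rintro rfl
        rw [Finset.mem_insert] at hi
        rcases hi with h2 | h2
        · exact hx.1 h2
        · exact hx.2 h2
      show τ (Equiv.swap i j x) = x
      rw [Equiv.swap_apply_of_ne_of_ne h5 hx.1, hτ x hx.2]
    · intro σ _
      simp [mul_assoc]
    · rintro ⟨i, τ⟩ h
      rw [Finset.mem_product, mem_perT] at h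
      obtain ⟨hi, hτ⟩ := h
      have h2 : τ⁻¹ j = j := by rw [Equiv.Perm.inv_eq_iff_eq, hτ j hj]
      have h3 : (τ * Equiv.swap i j)⁻¹ j = i := by
        rw [mul_inv_rev, Equiv.Perm.mul_apply, h2, Equiv.swap_inv, Equiv.swap_apply_right]
      simp only [h3, mul_assoc, Equiv.swap_mul_self, mul_one]
    · intro σ _
      have h6 : σ * Equiv.swap (σ⁻¹ j) j * Equiv.swap (σ⁻¹ j) j = σ := by
        rw [mul_assoc, Equiv.swap_mul_self, mul_one]
      simp only [h6]
      congr 1
      rw [← Units.val_mul, mul_comm, ← Equiv.Perm.sign_mul, h6]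
  rw [h1, Finset.sum_insert hj, Finset.mul_sum, sub_eq_add_neg, ← Finset.sum_neg_distrib]
  congr 1
  · rw [Equiv.swap_self]
    have h7 : ρ (Equiv.refl α) = 1 := map_one ρ
    have h8 : Equiv.Perm.sign (Equiv.refl α) = 1 := Equiv.Perm.sign_refl
    rw [h7, h8]
    simp
  · refine Finset.sum_congr rfl fun i hi => ?_
    have hij : i ≠ j := by rintro rfl; exact hj hi
    rw [Equiv.Perm.sign_swap hij]
    simp

/-- The bound of Lemma Y. -/
def yb : ℕ → ℕ → ℕ
  | 0, _ => 1
  | 1, _ => 1
  | _ + 2, 0 => 1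
  | _ + 2, 1 => 1
  | N + 2, N' + 2 => max (yb (N + 1) (N' + 2)) (yb (N + 2) (N' + 1) + (N + 1))
termination_by N N' => N + N'

theorem yb_pos (N N' : ℕ) : 1 ≤ yb N N' := by
  fun_induction yb N N' <;> omega

variable {W : Type*} [AddCommGroup W] [Module R W]

/-- **Lemma Y**. -/
theorem lemmaY_aux (htf : ∀ (n : ℕ) (w : W), n ≠ 0 → n • w = 0 → w = 0) (N N' : ℕ) :
    ∀ (A : Finset α) (S : Set W), yb N N' ≤ A.card →
      (∀ σ ∈ perT A, ∀ w ∈ S, ρ σ • w ∈ S) →
      (∀ T ⊆ A, T.card = N → ∀ w ∈ S, syT ρ T • w = 0) →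
      (∀ T ⊆ A, T.card = N' → ∀ w ∈ S, anT ρ T • w = 0) → ∀ w ∈ S, w = 0 := by
  fun_induction yb N N' with
  | case1 N' =>
    intro A S hA hS hs ha w hw
    have h := hs ∅ (Finset.empty_subset _) Finset.card_empty w hw
    rwa [syT_eq_one ρ (by simp), one_smul] at h
  | case2 N' =>
    intro A S hA hS hs ha w hw
    obtain ⟨T, hT, hT1⟩ := Finset.exists_subset_card_eq hA
    have h := hs T hT hT1 w hw
    rwa [syT_eq_one ρ (by omega), one_smul] at h
  | case3 N =>
    intro A S hA hS hs ha w hw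
    have h := ha ∅ (Finset.empty_subset _) Finset.card_empty w hw
    rwa [anT_eq_one ρ (by simp), one_smul] at h
  | case4 N =>
    intro A S hA hS hs ha w hw
    obtain ⟨T, hT, hT1⟩ := Finset.exists_subset_card_eq hA
    have h := ha T hT hT1 w hw
    rwa [anT_eq_one ρ (by omega), one_smul] at h
  | case5 N N' ih1 ih2 =>
    intro A S hA hS hs ha
    -- sums of elements of `S`
    have hsum : ∀ (r : R) (T : Finset α), T ⊆ A → (∀ w ∈ S, r • w = 0) → ∀ w ∈ S,
        r • syT ρ T • w = 0 := by
      intro r T hT hr w hw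
      rw [syT, Finset.sum_smul, Finset.smul_sum]
      exact Finset.sum_eq_zero fun σ hσ => hr _ (hS σ (perT_mono hT hσ) w hw)
    refine ih1 A S (le_trans (le_max_left _ _) hA) hS ?_ ha
    intro T hT hTN w hw
    -- the set of all `s_T w`
    refine ih2 (A \ T) {v | ∃ w ∈ S, v = syT ρ T • w} ?_ ?_ ?_ ?_ _ ⟨w, hw, rfl⟩
    · rw [Finset.card_sdiff_of_subset hT, hTN]
      have := le_trans (le_max_right _ _) hA
      omega
    · rintro σ hσ _ ⟨w, hw, rfl⟩
      refine ⟨ρ σ • w, hS σ (perT_mono Finset.sdiff_subset hσ) w hw, ?_⟩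
      rw [smul_smul, smul_smul]
      congr 1
      rw [syT, Finset.mul_sum, Finset.sum_mul]
      refine Finset.sum_congr rfl fun τ hτ => ?_
      rw [← map_mul, ← map_mul]
      congr 1
      rw [mem_perT] at hσ hτ
      have hd : Equiv.Perm.Disjoint σ τ := by
        intro x
        by_cases hx : x ∈ T
        · left; exact hσ x fun h => (Finset.mem_sdiff.1 h).2 hx
        · right; exact hτ x hx
      exact hd.commute.eq
    · rintro T' hT' hT'N _ ⟨w, hw, rfl⟩
      exact hsum _ T hT (fun w hw => hs T' (hT'.trans Finset.sdiff_subset) hT'N w hw) w hw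
    · rintro T' hT' hT'N _ ⟨w, hw, rfl⟩
      have hdis : ∀ i ∈ T, i ∉ T' := fun i hi hi' => (Finset.mem_sdiff.1 (hT' hi')).2 hi
      have hT'A : T' ⊆ A := hT'.trans Finset.sdiff_subset
      -- `X_j = -1` on `s_T w`
      have hX : ∀ j ∈ T', (∑ i ∈ T, ρ (Equiv.swap i j)) • syT ρ T • w = - (syT ρ T • w) := by
        intro j hj
        have hjT : j ∉ T := fun h => hdis j h hj
        have h1 := hs (insert j T) (Finset.insert_subset (hT'A hj) hT)
          (by rw [Finset.card_insert_of_notMem hjT, hTN]) w hw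
        rw [syT_insert ρ hjT, add_smul, mul_smul] at h1
        exact eq_neg_of_add_eq_zero_right h1
      have h2 : ∑ i ∈ T, anT ρ (insert i T') • syT ρ T • w = 0 := by
        refine Finset.sum_eq_zero fun i hi => ?_
        refine hsum _ T hT (fun w hw => ha _ (Finset.insert_subset (hT hi) hT'A) ?_ w hw) w hw
        rw [Finset.card_insert_of_notMem (hdis i hi), hT'N]
      have h3 : ∑ i ∈ T, anT ρ (insert i T') • syT ρ T • w =
          (N + 1 + (N' + 1)) • (anT ρ T' • syT ρ T • w) := by
        calc ∑ i ∈ T, anT ρ (insert i T') • syT ρ T • w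
            = ∑ i ∈ T, (anT ρ T' • syT ρ T • w -
                anT ρ T' • ∑ j ∈ T', ρ (Equiv.swap i j) • syT ρ T • w) := by
              refine Finset.sum_congr rfl fun i hi => ?_
              rw [anT_insert ρ (hdis i hi), sub_smul, mul_smul, Finset.sum_smul]
              congr 2
              refine Finset.sum_congr rfl fun j hj => ?_
              rw [Equiv.swap_comm]
          _ = (N + 1) • (anT ρ T' • syT ρ T • w) -
                anT ρ T' • ∑ j ∈ T', (∑ i ∈ T, ρ (Equiv.swap i j)) • syT ρ T • w := by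
              rw [Finset.sum_sub_distrib, Finset.sum_const, hTN, ← Finset.smul_sum,
                Finset.sum_comm]
              congr 2
              refine Finset.sum_congr rfl fun j hj => ?_
              rw [Finset.sum_smul]
          _ = (N + 1) • (anT ρ T' • syT ρ T • w) -
                anT ρ T' • ∑ j ∈ T', - (syT ρ T • w) := by
              rw [Finset.sum_congr rfl hX]
          _ = _ := by
              rw [Finset.sum_const, hT'N, smul_neg, smul_neg, sub_neg_eq_add, add_smul (N + 1)]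
              congr 1
              exact smul_comm _ _ _
      rw [h3] at h2
      exact htf _ _ (by omega) h2

/-- **Lemma Y**: if all symmetrizers of `N`-subsets and all antisymmetrizers of `N'`-subsets vanish
on a stable set `S`, and `α` is large, then `S` is zero. -/
theorem lemmaY (htf : ∀ (n : ℕ) (w : W), n ≠ 0 → n • w = 0 → w = 0) (N N' : ℕ)
    (hα : yb N N' ≤ Fintype.card α) (S : Set W) (hS : ∀ (σ : Equiv.Perm α), ∀ w ∈ S, ρ σ • w ∈ S)
    (hs : ∀ T : Finset α, T.card = N → ∀ w ∈ S, syT ρ T • w = 0)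
    (ha : ∀ T : Finset α, T.card = N' → ∀ w ∈ S, anT ρ T • w = 0) (w : W) (hw : w ∈ S) : w = 0 :=
  lemmaY_aux ρ htf N N' Finset.univ S (by simpa using hα) (fun σ _ => hS σ) (fun T _ => hs T)
    (fun T _ => ha T) w hw

/-- Conjugation of symmetrizers. -/
theorem mul_syT (σ : Equiv.Perm α) (T : Finset α) :
    ρ σ * syT ρ T = syT ρ (T.image σ) * ρ σ := by
  simp only [syT, Finset.mul_sum, Finset.sum_mul, ← map_mul]
  refine Finset.sum_bij' (fun τ _ => σ * τ * σ⁻¹) (fun τ _ => σ⁻¹ * τ * σ) ?_ ?_ ?_ ?_ ?_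
  · intro τ hτ
    rw [mem_perT] at hτ ⊢
    intro x hx
    have h1 : σ⁻¹ x ∉ T := fun h =>
      hx (Finset.mem_image.2 ⟨_, h, apply_inv_self_aux _ _⟩)
    show σ (τ (σ⁻¹ x)) = x
    rw [hτ _ h1, apply_inv_self_aux]
  · intro τ hτ
    rw [mem_perT] at hτ ⊢
    intro x hx
    have h1 : σ x ∉ T.image σ := fun h => by
      obtain ⟨y, hy, hyx⟩ := Finset.mem_image.1 h
      exact hx (σ.injective hyx ▸ hy)
    show σ⁻¹ (τ (σ x)) = x
    rw [hτ _ h1, inv_apply_self_aux]
  · intro τ _; group
  · intro τ _; group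
  · intro τ _; congr 1; group

/-- Conjugation of antisymmetrizers. -/
theorem mul_anT (σ : Equiv.Perm α) (T : Finset α) :
    ρ σ * anT ρ T = anT ρ (T.image σ) * ρ σ := by
  simp only [anT, Finset.mul_sum, Finset.sum_mul, mul_smul_comm, smul_mul_assoc, ← map_mul]
  refine Finset.sum_bij' (fun τ _ => σ * τ * σ⁻¹) (fun τ _ => σ⁻¹ * τ * σ) ?_ ?_ ?_ ?_ ?_
  · intro τ hτ
    rw [mem_perT] at hτ ⊢
    intro x hx
    have h1 : σ⁻¹ x ∉ T := fun h =>
      hx (Finset.mem_image.2 ⟨_, h, apply_inv_self_aux _ _⟩)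
    show σ (τ (σ⁻¹ x)) = x
    rw [hτ _ h1, apply_inv_self_aux]
  · intro τ hτ
    rw [mem_perT] at hτ ⊢
    intro x hx
    have h1 : σ x ∉ T.image σ := fun h => by
      obtain ⟨y, hy, hyx⟩ := Finset.mem_image.1 h
      exact hx (σ.injective hyx ▸ hy)
    show σ⁻¹ (τ (σ x)) = x
    rw [hτ _ h1, inv_apply_self_aux]
  · intro τ _; group
  · intro τ _; group
  · intro τ _
    have h1 : σ * τ * σ⁻¹ * σ = σ * τ := by group
    rw [h1]
    congr 1
    rw [Equiv.Perm.sign_mul, Equiv.Perm.sign_mul, Equiv.Perm.sign_inv, mul_comm (Equiv.Perm.sign σ),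
      mul_assoc, Int.units_mul_self, mul_one]

end Y

end Pool.Agent.MCH
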