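import Pool.Agent.MUP.Defs
import Pool.Agent.MUG.JK
import Pool.Agent.MUG.Gen

/-!
# Points of a symmetric category (row A5 of CHEV2; helper31)

`C` is a symmetric category: a braided category with trivial double braidings. A point on `X` is a
half braiding on `X`, written as a family `m V : V ⊗ X ⟶ V ⊗ X`.
-/

open CategoryTheory MonoidalCategory Limits Abelian

universe w v u

set_option linter.unusedSectionVars false
set_option backward.isDefEq.respectTransparency.types false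

namespace Pool.Agent.MCH

open Pool.Agent.MUG Pool.Agent.MUP

section Out

variable {C : Type u} [Category.{v} C] [MonoidalCategory C] [BraidedCategory C]

/-- `f : V ⊗ X ⟶ V ⊗ X'` applied to the first and the last factor of `V ⊗ (W ⊗ X)`. -/
def out {V X X' : C} (f : V ⊗ X ⟶ V ⊗ X') (W : C) : V ⊗ (W ⊗ X) ⟶ V ⊗ (W ⊗ X') :=
  swp V W X ≫ (W ◁ f) ≫ swp W V X'

theorem swp_nat (V W : C) {X X' : C} (g : X ⟶ X') :
    (V ◁ (W ◁ g)) ≫ swp V W X' = swp V W X ≫ (W ◁ (V ◁ g)) := by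
  unfold swp
  rw [associator_inv_naturality_right_assoc, whisker_exchange_assoc, Category.assoc,
    Category.assoc, associator_naturality_right]

theorem swp_nat_left {V V' : C} (f : V ⟶ V') (W X : C) :
    (f ▷ (W ⊗ X)) ≫ swp V' W X = swp V W X ≫ (W ◁ (f ▷ X)) := by
  unfold swp
  rw [associator_inv_naturality_left_assoc, ← comp_whiskerRight_assoc,
    BraidedCategory.braiding_naturality_left, comp_whiskerRight, Category.assoc, Category.assoc,
    Category.assoc, associator_naturality_middle]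

theorem swp_nat_right (V : C) {W W' : C} (f : W ⟶ W') (X : C) :
    (V ◁ (f ▷ X)) ≫ swp V W' X = swp V W X ≫ (f ▷ (V ⊗ X)) := by
  unfold swp
  rw [associator_inv_naturality_middle_assoc, ← comp_whiskerRight_assoc,
    BraidedCategory.braiding_naturality_right, comp_whiskerRight, Category.assoc, Category.assoc,
    Category.assoc, associator_naturality_left]

section Sym

variable (hsym : ∀ X Y : C, Comm X Y)

include hsym

theorem swp_swp (V W X : C) : swp V W X ≫ swp W V X = 𝟙 _ := by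
  have h : (β_ V W).hom ≫ (β_ W V).hom = 𝟙 _ := hsym V W
  unfold swp
  simp only [Category.assoc, Iso.hom_inv_id_assoc]
  rw [← comp_whiskerRight_assoc, h]
  simp

theorem out_id (V W X : C) : out (𝟙 (V ⊗ X)) W = 𝟙 _ := by
  unfold out
  rw [whiskerLeft_id, Category.id_comp, swp_swp hsym]

theorem out_comp {V X X' X'' : C} (f : V ⊗ X ⟶ V ⊗ X') (g : V ⊗ X' ⟶ V ⊗ X'') (W : C) :
    out f W ≫ out g W = out (f ≫ g) W := by
  unfold out
  simp only [Category.assoc, whiskerLeft_comp]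
  rw [← Category.assoc (swp W V X'), swp_swp hsym, Category.id_comp]

theorem out_eq {V X X' : C} (f : V ⊗ X ⟶ V ⊗ X') (W : C) :
    out f W = (V ◁ (β_ W X).hom) ≫ (α_ V X W).inv ≫ (f ▷ W) ≫ (α_ V X' W).hom ≫
      (V ◁ (β_ X' W).hom) := by
  have hb : ∀ X : C, (β_ W (V ⊗ X)).hom = swp W V X ≫ (V ◁ (β_ W X).hom) ≫ (α_ V X W).inv := by
    intro X
    unfold swp
    simp
  have h1 : swp V W X ≫ (β_ W (V ⊗ X)).hom = (V ◁ (β_ W X).hom) ≫ (α_ V X W).inv := by
    rw [hb, ← Category.assoc, swp_swp hsym, Category.id_comp]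
  have h2 : swp W V X' = (β_ W (V ⊗ X')).hom ≫ (α_ V X' W).hom ≫ (V ◁ (β_ X' W).hom) := by
    have h3 : (β_ W X').hom ≫ (β_ X' W).hom = 𝟙 _ := hsym W X'
    rw [hb]
    simp only [Category.assoc, Iso.inv_hom_id_assoc]
    rw [← whiskerLeft_comp, h3, whiskerLeft_id, Category.comp_id]
  unfold out
  rw [h2, BraidedCategory.braiding_naturality_right_assoc, reassoc_of% h1]

end Sym

theorem out_nat {V X X' : C} (f : V ⊗ X ⟶ V ⊗ X') {W W' : C} (g : W ⟶ W') :
    (V ◁ (g ▷ X)) ≫ out f W' = out f W ≫ (V ◁ (g ▷ X')) := by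
  unfold out
  rw [← Category.assoc, swp_nat_right, Category.assoc, ← whisker_exchange_assoc,
    swp_nat_left, Category.assoc, Category.assoc]

theorem out_pre {V X Y Y' : C} (g : X ⟶ Y) (f : V ⊗ Y ⟶ V ⊗ Y') (W : C) :
    (V ◁ (W ◁ g)) ≫ out f W = out ((V ◁ g) ≫ f) W := by
  unfold out
  rw [← Category.assoc, swp_nat, Category.assoc, whiskerLeft_comp, Category.assoc]

theorem out_post {V X Y Y' : C} (f : V ⊗ X ⟶ V ⊗ Y) (g : Y ⟶ Y') (W : C) :
    out f W ≫ (V ◁ (W ◁ g)) = out (f ≫ (V ◁ g)) W := by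
  unfold out
  rw [Category.assoc, Category.assoc, ← swp_nat, whiskerLeft_comp, Category.assoc]

/-- `f` on the first and third factor and `g` on the second and third factor commute. -/
def Cm {V W X : C} (f : V ⊗ X ⟶ V ⊗ X) (g : W ⊗ X ⟶ W ⊗ X) : Prop :=
  out f W ≫ (V ◁ g) = (V ◁ g) ≫ out f W

namespace Cm

variable (hsym : ∀ X Y : C, Comm X Y) {V W X : C}

include hsym

theorem symm {f : V ⊗ X ⟶ V ⊗ X} {g : W ⊗ X ⟶ W ⊗ X} (h : Cm f g) : Cm g f := by
  have h1 : swp W V X ≫ (out f W ≫ (V ◁ g)) ≫ swp V W X =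
      swp W V X ≫ ((V ◁ g) ≫ out f W) ≫ swp V W X := by rw [h]
  have h2 : swp W V X ≫ (out f W ≫ (V ◁ g)) ≫ swp V W X = (W ◁ f) ≫ out g V := by
    unfold out
    simp only [Category.assoc]
    rw [← Category.assoc (swp W V X) (swp V W X), swp_swp hsym, Category.id_comp]
  have h3 : swp W V X ≫ ((V ◁ g) ≫ out f W) ≫ swp V W X = out g V ≫ (W ◁ f) := by
    unfold out
    simp only [Category.assoc]
    rw [swp_swp hsym, Category.comp_id]
  rw [h2, h3] at h1
  exact h1.symm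

theorem comp_right {f : V ⊗ X ⟶ V ⊗ X} {g g' : W ⊗ X ⟶ W ⊗ X} (h : Cm f g) (h' : Cm f g') :
    Cm f (g ≫ g') := by
  unfold Cm at *
  rw [whiskerLeft_comp, ← Category.assoc, h, Category.assoc, h', Category.assoc]

theorem comp_left {f f' : V ⊗ X ⟶ V ⊗ X} {g : W ⊗ X ⟶ W ⊗ X} (h : Cm f g) (h' : Cm f' g) :
    Cm (f ≫ f') g := (Cm.comp_right hsym (h.symm hsym) (h'.symm hsym)).symm hsym

theorem id_right (f : V ⊗ X ⟶ V ⊗ X) : Cm f (𝟙 (W ⊗ X)) := by
  unfold Cm
  rw [whiskerLeft_id, Category.comp_id, Category.id_comp]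

theorem id_left (g : W ⊗ X ⟶ W ⊗ X) : Cm (𝟙 (V ⊗ X)) g := (Cm.id_right hsym g).symm hsym

theorem inv_right {f : V ⊗ X ⟶ V ⊗ X} {g : W ⊗ X ⟶ W ⊗ X} [IsIso g] (h : Cm f g) :
    Cm f (inv g) := by
  unfold Cm at *
  have h1 : (V ◁ g) ≫ (V ◁ inv g) = 𝟙 _ := by
    rw [← whiskerLeft_comp, IsIso.hom_inv_id, whiskerLeft_id]
  have h2 : (V ◁ inv g) ≫ (V ◁ g) = 𝟙 _ := by
    rw [← whiskerLeft_comp, IsIso.inv_hom_id, whiskerLeft_id]
  calc out f W ≫ (V ◁ inv g) = ((V ◁ inv g) ≫ (V ◁ g)) ≫ out f W ≫ (V ◁ inv g) := by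
        rw [h2, Category.id_comp]
    _ = (V ◁ inv g) ≫ ((V ◁ g) ≫ out f W) ≫ (V ◁ inv g) := by simp only [Category.assoc]
    _ = (V ◁ inv g) ≫ (out f W ≫ (V ◁ g)) ≫ (V ◁ inv g) := by rw [h]
    _ = (V ◁ inv g) ≫ out f W ≫ ((V ◁ g) ≫ (V ◁ inv g)) := by simp only [Category.assoc]
    _ = (V ◁ inv g) ≫ out f W := by rw [h1, Category.comp_id]

theorem inv_left {f : V ⊗ X ⟶ V ⊗ X} {g : W ⊗ X ⟶ W ⊗ X} [IsIso f] (h : Cm f g) :
    Cm (inv f) g := ((h.symm hsym).inv_right hsym).symm hsym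

end Cm

/-- A point on `X`: a half braiding, written as a family of automorphisms. -/
structure Pt (X : C) where
  m : ∀ V : C, V ⊗ X ⟶ V ⊗ X
  iso : ∀ V, IsIso (m V)
  nat : ∀ {V V' : C} (f : V ⟶ V'), (f ▷ X) ≫ m V' = m V ≫ (f ▷ X)
  mul : ∀ V W : C, m (V ⊗ W) = (α_ V W X).hom ≫ out (m V) W ≫ (V ◁ m W) ≫ (α_ V W X).inv

/-- Two points commute. -/
def Co {X : C} (p q : Pt X) : Prop := ∀ V W : C, Cm (p.m V) (q.m W)

theorem Co.symm (hsym : ∀ X Y : C, Comm X Y) {X : C} {p q : Pt X} (h : Co p q) : Co q p :=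
  fun V W => (h W V).symm hsym

theorem Co.refl (hsym : ∀ X Y : C, Comm X Y) {X : C} (p : Pt X) : Co p p := by
  intro V W
  have hi := p.iso V
  have h1 := p.nat (β_ V W).hom
  rw [p.mul, p.mul] at h1
  have h2 : (α_ V W X).inv ≫ ((β_ V W).hom ▷ X) ≫ (α_ W V X).hom = swp V W X := rfl
  have h3 : swp V W X ≫ out (p.m W) V ≫ (W ◁ p.m V) =
      out (p.m V) W ≫ (V ◁ p.m W) ≫ swp V W X := by
    rw [← h2]
    simp only [Category.assoc]
    rw [← cancel_epi (α_ V W X).hom, ← cancel_mono (α_ W V X).inv]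
    simp only [Category.assoc, Iso.hom_inv_id_assoc, Iso.hom_inv_id, Category.comp_id]
    simpa only [Category.assoc] using h1
  have h4 : swp V W X ≫ out (p.m W) V ≫ (W ◁ p.m V) =
      (V ◁ p.m W) ≫ out (p.m V) W ≫ swp V W X := by
    unfold out
    simp only [Category.assoc]
    rw [← Category.assoc (swp V W X) (swp W V X), swp_swp hsym, Category.id_comp,
      swp_swp hsym, Category.comp_id]
  have h5 : (out (p.m V) W ≫ (V ◁ p.m W)) ≫ swp V W X =
      ((V ◁ p.m W) ≫ out (p.m V) W) ≫ swp V W X := by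
    rw [Category.assoc, Category.assoc, ← h3, h4]
  have h6 := congrArg (fun g => g ≫ swp W V X) h5
  simp only [Category.assoc] at h6
  rw [swp_swp hsym, Category.comp_id, Category.comp_id] at h6
  exact h6

namespace Pt

variable {X : C}

/-- The trivial point. -/
def one (hsym : ∀ X Y : C, Comm X Y) (X : C) : Pt X where
  m V := 𝟙 _
  iso V := inferInstance
  nat f := by simp
  mul V W := by
    rw [out_id hsym]
    simp

/-- The product of two commuting points. -/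
def prod (hsym : ∀ X Y : C, Comm X Y) (p q : Pt X) (h : Co p q) : Pt X where
  m V := p.m V ≫ q.m V
  iso V := by
    have := p.iso V
    have := q.iso V
    infer_instance
  nat f := by rw [← Category.assoc, p.nat, Category.assoc, q.nat, Category.assoc]
  mul V W := by
    have h1 : (V ◁ p.m W) ≫ out (q.m V) W = out (q.m V) W ≫ (V ◁ p.m W) :=
      Eq.symm (h.symm hsym V W)
    rw [p.mul, q.mul, ← out_comp hsym]
    simp only [Category.assoc, Iso.inv_hom_id_assoc, whiskerLeft_comp]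
    rw [reassoc_of% h1]

/-- The inverse point. -/
noncomputable def symm (hsym : ∀ X Y : C, Comm X Y) (p : Pt X) : Pt X where
  m V := @inv _ _ _ _ (p.m V) (p.iso V)
  iso V := by
    have := p.iso V
    infer_instance
  nat {V V'} f := by
    have := p.iso V
    have := p.iso V'
    rw [← cancel_epi (p.m V), IsIso.hom_inv_id_assoc, ← Category.assoc, ← p.nat, Category.assoc,
      IsIso.hom_inv_id, Category.comp_id]
  mul V W := by
    have := p.iso V
    have := p.iso W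
    have := p.iso (V ⊗ W)
    have h1 : Cm (inv (p.m V)) (p.m W) := (Co.refl hsym p V W).inv_left hsym
    have h2 : out (inv (p.m V)) W ≫ (V ◁ p.m W) = (V ◁ p.m W) ≫ out (inv (p.m V)) W := h1
    have h3 : out (inv (p.m V)) W ≫ (V ◁ inv (p.m W)) =
        (V ◁ inv (p.m W)) ≫ out (inv (p.m V)) W := h1.inv_right hsym
    rw [← cancel_mono (p.m (V ⊗ W)), IsIso.inv_hom_id, p.mul]
    simp only [Category.assoc, Iso.inv_hom_id_assoc]
    rw [reassoc_of% h3]
    have h4 : out (inv (p.m V)) W ≫ out (p.m V) W = 𝟙 _ := by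
      rw [out_comp hsym, IsIso.inv_hom_id, out_id hsym]
    have h5 : (V ◁ inv (p.m W)) ≫ (V ◁ p.m W) = 𝟙 _ := by
      rw [← whiskerLeft_comp, IsIso.inv_hom_id, whiskerLeft_id]
    rw [reassoc_of% h4, reassoc_of% h5, Iso.hom_inv_id]

/-- The half braiding of a point. -/
noncomputable def half (hsym : ∀ X Y : C, Comm X Y) (p : Pt X) : HalfBraiding X where
  β V := β_ X V ≪≫ @asIso _ _ _ _ (p.m V) (p.iso V)
  monoidal U U' := by
    change (β_ X (U ⊗ U')).hom ≫ p.m (U ⊗ U') = (α_ X U U').inv ≫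
      (((β_ X U).hom ≫ p.m U) ▷ U') ≫ (α_ U X U').hom ≫ (U ◁ ((β_ X U').hom ≫ p.m U')) ≫
        (α_ U U' X).inv
    have h : (β_ X U').hom ≫ (β_ U' X).hom = 𝟙 _ := hsym X U'
    have h1 : (U ◁ (β_ X U').hom) ≫ (U ◁ (β_ U' X).hom) = 𝟙 _ := by
      rw [← whiskerLeft_comp, h, whiskerLeft_id]
    rw [p.mul, out_eq hsym, BraidedCategory.braiding_tensor_right_hom]
    simp only [Category.assoc, Iso.inv_hom_id_assoc, whiskerLeft_comp, comp_whiskerRight]
    rw [reassoc_of% h1]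
    simp
  naturality {U U'} f := by
    change (X ◁ f) ≫ (β_ X U').hom ≫ p.m U' = ((β_ X U).hom ≫ p.m U) ≫ (f ▷ X)
    rw [BraidedCategory.braiding_naturality_right_assoc, p.nat, Category.assoc]

/-- The object of the centre given by a point. -/
noncomputable def N (hsym : ∀ X Y : C, Comm X Y) (p : Pt X) : Center C := ⟨X, p.half hsym⟩

end Pt

end Out

section Ab

variable {C : Type u} [Category.{v} C] [Abelian C] [MonoidalCategory C] [MonoidalPreadditive C]
  [RigidCategory C] [BraidedCategory C] (hsym : ∀ X Y : C, Comm X Y)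

theorem mC_pt {X : C} (p : Pt X) (V : C) : Gen.mC V (p.N hsym) = p.m V := by
  have h : (β_ V X).hom ≫ (β_ X V).hom = 𝟙 _ := hsym V X
  change (β_ V X).hom ≫ ((β_ X V).hom ≫ p.m V) = p.m V
  rw [← Category.assoc, h, Category.id_comp]

/-- The point of an object of the centre. -/
noncomputable def ptOf (N : Center C) : Pt N.1 where
  m V := Gen.mC V N
  iso V := by
    unfold Gen.mC
    infer_instance
  nat f := Gen.mC_nat_left f N
  mul V W := by
    rw [Gen.mC_tensor, out_eq hsym]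
    have h : (β_ N.1 W).hom ≫ (β_ W N.1).hom = 𝟙 _ := hsym N.1 W
    have h1 : (V ◁ (β_ N.1 W).hom) ≫ (V ◁ (β_ W N.1).hom) = 𝟙 _ := by
      rw [← whiskerLeft_comp, h, whiskerLeft_id]
    conv_rhs => unfold Gen.mC
    simp only [Category.assoc, whiskerLeft_comp]
    rw [reassoc_of% h1]
    rfl

/-- Morphisms of the centre in terms of the families `mC`. -/
def mkHom {N N' : Center C} (g : N.1 ⟶ N'.1)
    (h : ∀ V, (V ◁ g) ≫ Gen.mC V N' = Gen.mC V N ≫ (V ◁ g)) : N ⟶ N' where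
  f := g
  comm V := by
    rw [← cancel_epi (β_ V N.1).hom, ← BraidedCategory.braiding_naturality_right_assoc]
    have h1 := h V
    unfold Gen.mC at h1
    rw [Category.assoc] at h1
    exact h1

include hsym in
/-- The family of `J V ⊗ N`. -/
theorem mC_left (V : C) (N : Center C) (W : C) :
    Gen.mC W (jObj V ⊗ N) = out (Gen.mC W N) V := by
  have h1 : ((jObj V ⊗ N).2.β W).hom = (α_ V N.1 W).hom ≫ (V ◁ (N.2.β W).hom) ≫
      (α_ V W N.1).inv ≫ ((β_ V W).hom ▷ N.1) ≫ (α_ W V N.1).hom := by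
    change ((Center.tensorObj (jObj V) N).2.β W).hom = _
    simp [Center.tensorObj, jObj_beta]
    rfl
  have h2 : (β_ W V).hom ≫ (β_ V W).hom = 𝟙 _ := hsym W V
  have hb : (β_ W (V ⊗ N.1)).hom = swp W V N.1 ≫ (V ◁ (β_ W N.1).hom) ≫ (α_ V N.1 W).inv := by
    unfold swp
    simp
  have h3 : out (Gen.mC W N) V = swp W V N.1 ≫ (V ◁ (β_ W N.1).hom) ≫ (V ◁ (N.2.β W).hom) ≫
      swp V W N.1 := by
    unfold out Gen.mC
    rw [whiskerLeft_comp, Category.assoc]
  rw [h3]
  unfold Gen.mC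
  rw [h1]
  change (β_ W (V ⊗ N.1)).hom ≫ _ = _
  rw [hb]
  simp only [Category.assoc]
  change swp W V N.1 ≫ (V ◁ (β_ W N.1).hom) ≫ (α_ V N.1 W).inv ≫ (α_ V N.1 W).hom ≫
    (V ◁ (N.2.β W).hom) ≫ (α_ V W N.1).inv ≫ ((β_ V W).hom ▷ N.1) ≫ (α_ W V N.1).hom = _
  rw [Iso.inv_hom_id_assoc]
  rfl

/-- `f` on `W ⊗ X`, applied to the first two factors of `W ⊗ (X ⊗ V)`. -/
def ten {W X X' : C} (f : W ⊗ X ⟶ W ⊗ X') (V : C) : W ⊗ (X ⊗ V) ⟶ W ⊗ (X' ⊗ V) :=
  (α_ W X V).inv ≫ (f ▷ V) ≫ (α_ W X' V).hom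

end Ab

end Pool.Agent.MCH
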