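import Mathlib

/-!
# Representations of symmetric groups from adjacent transpositions (helper65)

If `x 0, …, x (n-1)` are elements of a monoid satisfying the Coxeter relations of type `A_n`, then
there is a monoid homomorphism `Perm (Fin (n + 1)) →* R` sending the transposition of `i, i + 1`
to `x i`.
-/

open Equiv

namespace Pool.Agent.MCH

/-- The Coxeter relations of type `A_n`. -/
structure Cox {R : Type*} [Monoid R] (n : ℕ) (x : ℕ → R) : Prop where
  sq : ∀ i, i < n → x i * x i = 1
  far : ∀ i j, i + 1 < j → j < n → x i * x j = x j * x i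
  br : ∀ i, i + 1 < n → x i * x (i + 1) * x i = x (i + 1) * x i * x (i + 1)

/-- `x (p-1) * ⋯ * x 0`. -/
def cy {R : Type*} [Monoid R] (x : ℕ → R) : ℕ → R
  | 0 => 1
  | p + 1 => x p * cy x p

namespace Cox

variable {R : Type*} [Monoid R] {n : ℕ} {x : ℕ → R}

theorem shift (h : Cox (n + 1) x) : Cox n (fun i => x (i + 1)) :=
  ⟨fun i hi => h.sq _ (by omega), fun i j hij hj => h.far _ _ (by omega) (by omega),
    fun i hi => h.br _ (by omega)⟩

variable (h : Cox n x)

include h

/-- `x i` commutes with `cy x p` for `p < i`. -/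
theorem comm_cy : ∀ (p i : ℕ), p < i → i < n → x i * cy x p = cy x p * x i
  | 0, i, _, _ => by simp [cy]
  | p + 1, i, hp, hi => by
    have h1 := comm_cy p i (by omega) hi
    have h2 := h.far p i hp hi
    rw [cy, ← mul_assoc, ← h2, mul_assoc, h1, mul_assoc]

theorem braid_cy : ∀ (p i : ℕ), i + 1 < p → p ≤ n → x i * cy x p = cy x p * x (i + 1)
  | 0, i, hp, _ => by omega
  | p + 1, i, hp, hn => by
    rcases Nat.lt_or_ge (i + 1) p with hi | hi
    · have h1 := braid_cy p i hi (by omega)
      have h2 := h.far i p hi (by omega)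
      rw [cy, ← mul_assoc, h2, mul_assoc, h1, mul_assoc]
    · obtain rfl : p = i + 1 := by omega
      have h1 := h.br i (by omega)
      have h2 := h.comm_cy i (i + 1) (by omega) (by omega)
      have h3 : cy x (i + 1 + 1) = x (i + 1) * (x i * cy x i) := rfl
      rw [h3, ← mul_assoc (x i), ← mul_assoc (x i * x (i + 1)), h1, mul_assoc (x (i + 1) * x i),
        h2]
      simp only [mul_assoc]

end Cox

/-- The transposition of `i` and `i + 1` in `Fin (n + 1)`. -/
def sw (n i : ℕ) : Perm (Fin (n + 1)) :=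
  if h : i < n then swap ⟨i, by omega⟩ ⟨i + 1, by omega⟩ else 1

theorem sw_apply {n i : ℕ} (h : i < n) (y : Fin (n + 1)) :
    ((sw n i y : Fin (n + 1)) : ℕ) = if (y : ℕ) = i then i + 1 else if (y : ℕ) = i + 1 then i
      else y := by
  rw [sw, dif_pos h, swap_apply_def]
  simp only [Fin.ext_iff]
  split_ifs <;> simp_all

theorem cox_sw (n : ℕ) : Cox n (sw n) where
  sq i hi := by
    rw [sw, dif_pos hi, swap_mul_self]
  far i j hij hj := by
    ext y
    simp only [Perm.mul_apply, sw_apply (show i < n by omega), sw_apply hj]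
    split_ifs <;> omega
  br i hi := by
    ext y
    simp only [Perm.mul_apply, sw_apply (show i < n by omega), sw_apply hi]
    split_ifs <;> omega

/-- Extension of a permutation by fixing `0`. -/
def sh (n : ℕ) : Perm (Fin n) →* Perm (Fin (n + 1)) where
  toFun σ :=
    { toFun := Fin.cases 0 fun i => (σ i).succ
      invFun := Fin.cases 0 fun i => (σ⁻¹ i).succ
      left_inv := fun i => by refine Fin.cases ?_ (fun j => ?_) i <;> simp
      right_inv := fun i => by refine Fin.cases ?_ (fun j => ?_) i <;> simp }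
  map_one' := by
    ext i
    refine Fin.cases ?_ (fun j => ?_) i <;> simp
  map_mul' σ τ := by
    ext i
    refine Fin.cases ?_ (fun j => ?_) i <;> simp

@[simp]
theorem sh_zero (n : ℕ) (σ : Perm (Fin n)) : sh n σ 0 = 0 := rfl

@[simp]
theorem sh_succ (n : ℕ) (σ : Perm (Fin n)) (i : Fin n) : sh n σ i.succ = (σ i).succ := rfl

theorem sh_injective (n : ℕ) : Function.Injective (sh n) := by
  intro σ τ h
  ext i
  have h1 := congrArg (fun ρ : Perm (Fin (n + 1)) => ρ i.succ) h
  simpa [Fin.ext_iff] using h1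

theorem exists_sh {n : ℕ} (σ : Perm (Fin (n + 1))) (h : σ 0 = 0) : ∃ τ, sh n τ = σ := by
  have hne : ∀ i : Fin n, σ i.succ ≠ 0 := fun i hi => by
    rw [← h] at hi
    exact Fin.succ_ne_zero i (σ.injective hi)
  have h' : σ⁻¹ 0 = 0 := by rw [Perm.inv_eq_iff_eq, h]
  have hne' : ∀ i : Fin n, σ⁻¹ i.succ ≠ 0 := fun i hi => by
    rw [← h'] at hi
    exact Fin.succ_ne_zero i (σ⁻¹.injective hi)
  refine ⟨{ toFun := fun i => (σ i.succ).pred (hne i)
            invFun := fun i => (σ⁻¹ i.succ).pred (hne' i)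
            left_inv := fun i => by simp
            right_inv := fun i => by simp }, ?_⟩
  ext i
  refine Fin.cases ?_ (fun j => ?_) i
  · simp [h]
  · rw [sh_succ]
    simp

theorem sh_sw (n i : ℕ) (h : i < n) : sh (n + 1) (sw n i) = sw (n + 1) (i + 1) := by
  ext y
  rw [sw_apply (show i + 1 < n + 1 by omega)]
  refine Fin.cases ?_ (fun j => ?_) y
  · simp
  · rw [sh_succ, Fin.val_succ, sw_apply h, Fin.val_succ]
    split_ifs <;> omega

theorem cy_sw_zero (n : ℕ) : ∀ p : ℕ, p ≤ n → ((cy (sw n) p 0 : Fin (n + 1)) : ℕ) = p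
  | 0, _ => by simp [cy]
  | p + 1, hp => by
    rw [cy, Perm.mul_apply, sw_apply (show p < n by omega), cy_sw_zero n p (by omega), if_pos rfl]

/-- Every permutation of `Fin (n + 1)` is `cy (sw n) p * sh τ`, where `p` is the image of `0`. -/
theorem exists_cy_sh {n : ℕ} (σ : Perm (Fin (n + 1))) :
    ∃ τ, σ = cy (sw n) (σ 0 : Fin (n + 1)) * sh n τ := by
  obtain ⟨τ, hτ⟩ := exists_sh ((cy (sw n) (σ 0 : Fin (n + 1)))⁻¹ * σ) (by
    rw [Perm.mul_apply, Perm.inv_eq_iff_eq]
    ext
    rw [cy_sw_zero n _ (by omega)])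
  exact ⟨τ, by rw [hτ, mul_inv_cancel_left]⟩

theorem cy_sh_inj {n p p' : ℕ} (hp : p ≤ n) (hp' : p' ≤ n) {τ τ' : Perm (Fin n)}
    (h : cy (sw n) p * sh n τ = cy (sw n) p' * sh n τ') : p = p' ∧ τ = τ' := by
  have h1 : p = p' := by
    have h2 := congrArg (fun ρ : Perm (Fin (n + 1)) => ((ρ 0 : Fin (n + 1)) : ℕ)) h
    simpa [Perm.mul_apply, cy_sw_zero n p hp, cy_sw_zero n p' hp'] using h2
  subst h1
  exact ⟨rfl, sh_injective n (mul_left_cancel h)⟩

/-- The presentation of the symmetric group. -/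
theorem exists_hom {R : Type*} [Monoid R] : ∀ (n : ℕ) (x : ℕ → R) (_ : Cox n x),
    ∃ φ : Perm (Fin (n + 1)) →* R, ∀ i, i < n → φ (sw n i) = x i := by
  intro n
  induction n with
  | zero => exact fun x _ => ⟨1, fun i hi => absurd hi (by omega)⟩
  | succ n ih =>
    intro x hx
    obtain ⟨φ, hφ⟩ := ih (fun i => x (i + 1)) hx.shift
    choose τ hτ using fun σ : Perm (Fin (n + 1 + 1)) => exists_cy_sh σ
    let Φ : Perm (Fin (n + 1 + 1)) → R := fun σ => cy x (σ 0 : Fin (n + 1 + 1)) * φ (τ σ)
    have key : ∀ (p : ℕ) (_ : p ≤ n + 1) (ρ : Perm (Fin (n + 1))),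
        Φ (cy (sw (n + 1)) p * sh (n + 1) ρ) = cy x p * φ ρ := by
      intro p hp ρ
      have h1 := hτ (cy (sw (n + 1)) p * sh (n + 1) ρ)
      have h2 := cy_sh_inj (n := n + 1) hp (by omega) h1
      change cy x _ * φ (τ _) = _
      rw [← h2.1, ← h2.2]
    have hc := cox_sw (n + 1)
    have hgen : ∀ (i : ℕ) (_ : i < n + 1) (σ : Perm (Fin (n + 1 + 1))),
        Φ (sw (n + 1) i * σ) = x i * Φ σ := by
      intro i hi σ
      obtain ⟨ρ, hρ⟩ := exists_cy_sh σ
      have hp : ((σ 0 : Fin (n + 1 + 1)) : ℕ) ≤ n + 1 := by omega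
      generalize ((σ 0 : Fin (n + 1 + 1)) : ℕ) = p at hρ hp
      rw [hρ, key p hp]
      rcases Nat.lt_trichotomy p i with h1 | h1 | h1
      · -- p < i
        obtain ⟨i, rfl⟩ : ∃ i', i = i' + 1 := ⟨i - 1, by omega⟩
        have e1 : sw (n + 1) (i + 1) * (cy (sw (n + 1)) p * sh (n + 1) ρ) =
            cy (sw (n + 1)) p * sh (n + 1) (sw n i * ρ) := by
          rw [← mul_assoc, hc.comm_cy p (i + 1) h1 hi, map_mul, sh_sw n i (by omega), mul_assoc]
        rw [e1, key p hp, map_mul, hφ i (by omega), ← mul_assoc, ← mul_assoc,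
          hx.comm_cy p (i + 1) h1 hi]
      · subst h1
        have e1 : sw (n + 1) p * (cy (sw (n + 1)) p * sh (n + 1) ρ) =
            cy (sw (n + 1)) (p + 1) * sh (n + 1) ρ := by
          rw [← mul_assoc]; rfl
        rw [e1, key (p + 1) (by omega), ← mul_assoc]
        rfl
      · rcases Nat.lt_or_ge (i + 1) p with h2 | h2
        · have e1 : sw (n + 1) i * (cy (sw (n + 1)) p * sh (n + 1) ρ) =
              cy (sw (n + 1)) p * sh (n + 1) (sw n i * ρ) := by
            rw [← mul_assoc, hc.braid_cy p i h2 hp, map_mul, sh_sw n i (by omega), mul_assoc]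
          rw [e1, key p hp, map_mul, hφ i (by omega), ← mul_assoc, ← mul_assoc,
            hx.braid_cy p i h2 hp]
        · obtain rfl : p = i + 1 := by omega
          have e1 : sw (n + 1) i * (cy (sw (n + 1)) (i + 1) * sh (n + 1) ρ) =
              cy (sw (n + 1)) i * sh (n + 1) ρ := by
            change sw (n + 1) i * ((sw (n + 1) i * cy (sw (n + 1)) i) * sh (n + 1) ρ) = _
            rw [mul_assoc, ← mul_assoc (sw (n + 1) i), hc.sq i hi, one_mul]
          rw [e1, key i (by omega)]
          change _ = x i * ((x i * cy x i) * φ ρ)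
          rw [mul_assoc, ← mul_assoc (x i), hx.sq i hi, one_mul]
    have hone : Φ 1 = 1 := by
      have := key 0 (by omega) 1
      simpa [cy] using this
    have hmul : ∀ σ ρ : Perm (Fin (n + 1 + 1)), Φ (σ * ρ) = Φ σ * Φ ρ := by
      intro σ
      have hσ : σ ∈ Submonoid.closure (Set.range fun i : Fin (n + 1) =>
          swap i.castSucc i.succ) := by
        rw [Perm.mclosure_swap_castSucc_succ]; trivial
      induction hσ using Submonoid.closure_induction with
      | mem s hs =>
        obtain ⟨i, rfl⟩ := hs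
        have e1 : swap i.castSucc i.succ = sw (n + 1) i := by
          rw [sw, dif_pos i.2]; rfl
        intro ρ
        simp only [e1]
        have e2 := hgen i i.2 1
        rw [mul_one, hone, mul_one] at e2
        rw [hgen i i.2, e2]
      | one => intro ρ; rw [one_mul, hone, one_mul]
      | mul s t _ _ hs ht =>
        intro ρ
        rw [mul_assoc s t ρ, hs (t * ρ), ht ρ, hs t, mul_assoc (Φ s) (Φ t) (Φ ρ)]
    refine ⟨{ toFun := Φ, map_one' := hone, map_mul' := hmul }, fun i hi => ?_⟩
    have e2 := hgen i hi 1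
    rw [mul_one, hone, mul_one] at e2
    exact e2

/-- Two homomorphisms which agree on the adjacent transpositions are equal. -/
theorem hom_ext {R : Type*} [Monoid R] {n : ℕ} {φ ψ : Perm (Fin (n + 1)) →* R}
    (h : ∀ i, i < n → φ (sw n i) = ψ (sw n i)) : φ = ψ := by
  refine MonoidHom.eq_of_eqOn_denseM (Perm.mclosure_swap_castSucc_succ n) ?_
  rintro _ ⟨i, rfl⟩
  have e1 : swap i.castSucc i.succ = sw n i := by
    rw [sw, dif_pos i.2]; rfl
  simp only [e1]
  exact h i i.2

end Pool.Agent.MCH
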