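import Pool.Agent.MUP.S1
import Pool.Agent.MCH.Sym
import Pool.Agent.MCH.LY

/-!
# The action of the symmetric group on `F^n Y` (helper65)

`rep n Y : Perm (Fin n) →* End (F^n Y)`; the (signed) sum of all `rep n Y σ` is the
(anti)symmetrizer `ss`.
-/

open CategoryTheory Equiv

universe v u

namespace Pool.Agent.MCH

open Pool.Agent.MUP

section Emb

variable {ι κ : Type*} [Fintype ι] [DecidableEq ι] [Fintype κ] [DecidableEq κ]

/-- Transport of sums over `P T` along an embedding. -/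
theorem sum_P_map {M : Type*} [AddCommMonoid M] (e : ι ↪ κ) (j : Perm ι →* Perm κ)
    (hj : ∀ σ x, j σ (e x) = e (σ x)) (hj' : ∀ σ y, y ∉ Set.range e → j σ y = y) (T : Finset ι)
    (f : Perm κ → M) : ∑ σ ∈ P T, f (j σ) = ∑ σ ∈ P (T.map e), f σ := by
  have hinj : Function.Injective j := by
    intro σ τ h
    ext x
    have h1 := congrArg (fun ρ : Perm κ => ρ (e x)) h
    simp only [hj] at h1
    exact e.injective h1
  have hmem : ∀ σ ∈ P T, j σ ∈ P (T.map e) := by
    intro σ hσ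
    refine mem_P.2 fun y hy => ?_
    by_cases hr : y ∈ Set.range e
    · obtain ⟨x, rfl⟩ := hr
      rw [hj, mem_P.1 hσ x fun hx => hy (Finset.mem_map_of_mem e hx)]
    · exact hj' σ y hr
  have hsurj : ∀ τ ∈ P (T.map e), ∃ σ ∈ P T, j σ = τ := by
    intro τ hτ
    have h1 : ∀ x, ∃ y, e y = τ (e x) := by
      intro x
      by_cases hx : x ∈ T
      · by_contra hc
        have h2 : τ (e x) ∉ T.map e := fun h => by
          obtain ⟨y, _, hy⟩ := Finset.mem_map.1 h
          exact hc ⟨y, hy⟩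
        have h3 := τ.injective (mem_P.1 hτ _ h2)
        exact hc ⟨x, h3.symm⟩
      · have h2 : e x ∉ T.map e := fun h => by
          obtain ⟨y, hy, hy'⟩ := Finset.mem_map.1 h
          exact hx (e.injective hy' ▸ hy)
        exact ⟨x, (mem_P.1 hτ _ h2).symm⟩
    choose g hg using h1
    have hgi : Function.Injective g := by
      intro x y h
      have h2 := hg x
      rw [h, hg y] at h2
      exact e.injective (τ.injective h2.symm)
    let σ : Perm ι := Equiv.ofBijective g (Finite.injective_iff_bijective.1 hgi)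
    have hσ : ∀ x, σ x = g x := fun x => rfl
    refine ⟨σ, mem_P.2 fun x hx => ?_, ?_⟩
    · have h2 : e x ∉ T.map e := fun h => by
        obtain ⟨y, hy, hy'⟩ := Finset.mem_map.1 h
        exact hx (e.injective hy' ▸ hy)
      apply e.injective
      rw [hσ, hg, mem_P.1 hτ _ h2]
    · ext y
      by_cases hr : y ∈ Set.range e
      · obtain ⟨x, rfl⟩ := hr
        rw [hj, hσ, hg]
      · rw [hj' σ y hr]
        refine (mem_P.1 hτ y fun h => hr ?_).symm
        obtain ⟨x, _, hx⟩ := Finset.mem_map.1 h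
        exact ⟨x, hx⟩
  refine Finset.sum_bij (fun σ _ => j σ) hmem (fun _ _ _ _ h => hinj h) ?_ (fun _ _ => rfl)
  intro τ hτ
  obtain ⟨σ, hσ, h⟩ := hsurj τ hτ
  exact ⟨σ, hσ, h⟩

end Emb

/-- `cy` with the last factor split off. -/
theorem cy_succ' {R : Type*} [Monoid R] (x : ℕ → R) :
    ∀ p, cy x (p + 1) = cy (fun i => x (i + 1)) p * x 0
  | 0 => by simp [cy]
  | p + 1 => by
    rw [cy, cy_succ' x p, ← mul_assoc]
    rfl

theorem map_cy {R S : Type*} [Monoid R] [Monoid S] (φ : R →* S) (x : ℕ → R) (y : ℕ → S) :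
    ∀ p, (∀ i, i < p → φ (x i) = y i) → φ (cy x p) = cy y p
  | 0, _ => by simp [cy]
  | p + 1, h => by
    rw [cy, map_mul, h p (by omega), map_cy φ x y p fun i hi => h i (by omega)]
    rfl

theorem sign_sw (n i : ℕ) (h : i < n) : Perm.sign (sw n i) = -1 := by
  rw [sw, dif_pos h]
  exact Perm.sign_swap (by simp [Fin.ext_iff])

theorem sign_sh (n : ℕ) (σ : Perm (Fin n)) : Perm.sign (sh n σ) = Perm.sign σ := by
  cases n with
  | zero =>
    rw [Subsingleton.elim σ 1, map_one, map_one, map_one]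
  | succ n =>
    have h : (Perm.sign).comp (sh (n + 1)) = (Perm.sign : Perm (Fin (n + 1)) →* ℤˣ) := by
      refine hom_ext fun i hi => ?_
      rw [MonoidHom.comp_apply, sh_sw n i hi, sign_sw _ _ (by omega), sign_sw _ _ hi]
    exact DFunLike.congr_fun h σ

theorem sum_perm_succ {M : Type*} [AddCommMonoid M] (n : ℕ) (f : Perm (Fin (n + 1)) → M) :
    ∑ σ, f σ = ∑ p ∈ Finset.range (n + 1), ∑ τ : Perm (Fin n), f (cy (sw n) p * sh n τ) := by
  rw [← Finset.sum_product', eq_comm]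
  refine Finset.sum_bij (fun q _ => cy (sw n) q.1 * sh n q.2) (fun _ _ => Finset.mem_univ _) ?_ ?_
    (fun _ _ => rfl)
  · rintro ⟨p, τ⟩ hq ⟨p', τ'⟩ hq' h
    rw [Finset.mem_product, Finset.mem_range] at hq hq'
    obtain ⟨h1, h2⟩ := cy_sh_inj (n := n) (by omega) (by omega) h
    exact Prod.ext h1 h2
  · intro σ _
    obtain ⟨τ, hτ⟩ := exists_cy_sh σ
    exact ⟨(((σ 0 : Fin (n + 1)) : ℕ), τ), Finset.mem_product.2
      ⟨Finset.mem_range.2 (σ 0).2, Finset.mem_univ _⟩, hτ.symm⟩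

section Rep

variable {A : Type u} [Category.{v} A] {F : A ⥤ A}
  (τ : ∀ Y : A, F.obj (F.obj Y) ⟶ F.obj (F.obj Y))

/-- `τ` on the strands `i`, `i + 1` of `F^n Y`. -/
def ad : ∀ (n : ℕ) (_ : ℕ) (Y : A), pw F n Y ⟶ pw F n Y
  | 0, _, Y => 𝟙 Y
  | 1, _, Y => 𝟙 (F.obj Y)
  | n + 2, 0, Y => τ (pw F n Y)
  | n + 2, i + 1, Y => F.map (ad (n + 1) i Y)

theorem ad_succ (n i : ℕ) (Y : A) : ad τ (n + 1) (i + 1) Y = F.map (ad τ n i Y) := by
  cases n with
  | zero =>
    change 𝟙 (F.obj Y) = F.map (𝟙 Y)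
    rw [F.map_id]
  | succ n => rfl

/-- `ad` with values in the endomorphism monoid. -/
def adE (n : ℕ) (Y : A) (i : ℕ) : End (pw F n Y) := ad τ n i Y

/-- The cycle moving the first strand to the place `p`. -/
def cyE (n : ℕ) (Y : A) (p : ℕ) : pw F (n + 1) Y ⟶ pw F (n + 1) Y :=
  cy (R := End (pw F (n + 1) Y)) (adE τ (n + 1) Y) p

/-- `F` on endomorphisms of `F^n Y`. -/
def mapE (n : ℕ) (Y : A) : End (pw F n Y) →* End (pw F (n + 1) Y) := F.mapEnd (pw F n Y)

theorem mapE_apply (n : ℕ) (Y : A) (f : End (pw F n Y)) :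
    (mapE n Y f : End (pw F (n + 1) Y)) = F.map f := rfl

variable (hτ : ∀ {Y Y' : A} (f : Y ⟶ Y'), F.map (F.map f) ≫ τ Y' = τ Y ≫ F.map (F.map f))
  (hinv : ∀ Y, τ Y ≫ τ Y = 𝟙 _)
  (hyb : ∀ Y, F.map (τ Y) ≫ τ (F.obj Y) ≫ F.map (τ Y) = τ (F.obj Y) ≫ F.map (τ Y) ≫ τ (F.obj Y))

include hτ hinv hyb in
theorem cox_ad : ∀ (n : ℕ) (Y : A), Cox n (adE τ (n + 1) Y)
  | 0, Y => ⟨fun i hi => absurd hi (by omega), fun i j _ hj => absurd hj (by omega),
      fun i hi => absurd hi (by omega)⟩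
  | n + 1, Y => by
    have ih := cox_ad n Y
    refine ⟨?_, ?_, ?_⟩
    · rintro (_ | i) hi
      · exact hinv (pw F n Y)
      · have h1 := ih.sq i (by omega)
        have h2 : F.map (ad τ (n + 1) i Y) ≫ F.map (ad τ (n + 1) i Y) = 𝟙 _ := by
          rw [← F.map_comp]
          exact (congrArg F.map h1).trans (F.map_id _)
        exact h2
    · rintro (_ | i) j hij hj
      · obtain ⟨j, rfl⟩ : ∃ j', j = j' + 2 := ⟨j - 2, by omega⟩
        obtain ⟨n, rfl⟩ : ∃ n', n = n' + 1 := ⟨n - 1, by omega⟩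
        exact hτ (ad τ (n + 1) j Y)
      · obtain ⟨j, rfl⟩ : ∃ j', j = j' + 1 := ⟨j - 1, by omega⟩
        have h1 := ih.far i j (by omega) (by omega)
        have h2 : F.map (ad τ (n + 1) j Y) ≫ F.map (ad τ (n + 1) i Y) =
            F.map (ad τ (n + 1) i Y) ≫ F.map (ad τ (n + 1) j Y) := by
          rw [← F.map_comp, ← F.map_comp]
          exact congrArg F.map h1
        exact h2
    · rintro (_ | i) hi
      · obtain ⟨n, rfl⟩ : ∃ n', n = n' + 1 := ⟨n - 1, by omega⟩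
        have h1 := hyb (pw F n Y)
        exact (h1.symm : τ (F.obj (pw F n Y)) ≫ F.map (τ (pw F n Y)) ≫ τ (F.obj (pw F n Y)) =
          F.map (τ (pw F n Y)) ≫ τ (F.obj (pw F n Y)) ≫ F.map (τ (pw F n Y)))
      · have h1 := ih.br i (by omega)
        have h2 : F.map (ad τ (n + 1) i Y) ≫ F.map (ad τ (n + 1) (i + 1) Y) ≫
            F.map (ad τ (n + 1) i Y) = F.map (ad τ (n + 1) (i + 1) Y) ≫
              F.map (ad τ (n + 1) i Y) ≫ F.map (ad τ (n + 1) (i + 1) Y) := by
          rw [← F.map_comp, ← F.map_comp, ← F.map_comp, ← F.map_comp]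
          exact congrArg F.map h1
        exact h2

/-- The action of the symmetric group on `F^n Y`. -/
noncomputable def rep : ∀ (n : ℕ) (Y : A), Perm (Fin n) →* End (pw F n Y)
  | 0, _ => 1
  | n + 1, Y => (exists_hom n _ (cox_ad τ hτ hinv hyb n Y)).choose

theorem rep_sw (n : ℕ) (Y : A) (i : ℕ) (hi : i < n) :
    rep τ hτ hinv hyb (n + 1) Y (sw n i) = adE τ (n + 1) Y i :=
  (exists_hom n _ (cox_ad τ hτ hinv hyb n Y)).choose_spec i hi

theorem rep_sh (n : ℕ) (Y : A) (σ : Perm (Fin n)) :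
    rep τ hτ hinv hyb (n + 1) Y (sh n σ) = F.map (rep τ hτ hinv hyb n Y σ) := by
  cases n with
  | zero =>
    rw [Subsingleton.elim σ 1, map_one, map_one, map_one]
    exact (F.map_id Y).symm
  | succ n =>
    have h : (rep τ hτ hinv hyb (n + 1 + 1) Y).comp (sh (n + 1)) =
        (mapE (n + 1) Y).comp (rep τ hτ hinv hyb (n + 1) Y) := by
      refine hom_ext fun i hi => ?_
      rw [MonoidHom.comp_apply, sh_sw n i hi, rep_sw τ hτ hinv hyb (n + 1) Y (i + 1) (by omega),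
        MonoidHom.comp_apply, rep_sw τ hτ hinv hyb n Y i hi]
      rfl
    exact DFunLike.congr_fun h σ

variable [Preadditive A] [F.Additive]

omit τ in
theorem step_aa {P : A} (q : ℤ) (s : Finset ℕ) (g : ℕ → (F.obj P ⟶ F.obj P))
    (t : F.obj (F.obj P) ⟶ F.obj (F.obj P)) (a : F.obj P ⟶ F.obj P)
    (ha : a = ∑ p ∈ s, q ^ p • g p) :
    𝟙 (F.obj (F.obj P)) + q • (t ≫ F.map a) =
      ∑ p ∈ s, q ^ (p + 1) • (t ≫ F.map (g p)) + q ^ 0 • 𝟙 (F.obj (F.obj P)) := by
  rw [ha, pow_zero, one_smul, add_comm, F.map_sum, Preadditive.comp_sum, Finset.smul_sum]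
  congr 1
  refine Finset.sum_congr rfl fun p _ => ?_
  rw [F.map_zsmul, Preadditive.comp_zsmul, smul_smul, pow_succ']

omit τ in
theorem step_sum {P : A} {ι : Type*} (s : Finset ι) (a : ℤ) (c : ι → ℤ) (r : ι → (P ⟶ P))
    (g : F.obj P ⟶ F.obj P) :
    ∑ σ ∈ s, (a * c σ) • (F.map (r σ) ≫ g) = F.map (∑ σ ∈ s, c σ • r σ) ≫ (a • g) := by
  rw [F.map_sum, Preadditive.sum_comp]
  refine Finset.sum_congr rfl fun σ _ => ?_
  rw [F.map_zsmul, Preadditive.zsmul_comp, Preadditive.comp_zsmul, smul_smul, mul_comm]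

omit τ [F.Additive] in
theorem step_comp {P : A} (s : Finset ℕ) (f : P ⟶ P) (g : ℕ → (F.obj P ⟶ F.obj P))
    (a : F.obj P ⟶ F.obj P) (ha : a = ∑ p ∈ s, g p) :
    ∑ p ∈ s, F.map f ≫ g p = F.map f ≫ a := by
  rw [ha, Preadditive.comp_sum]

/-- `aa` as a sum of cycles. -/
theorem aa_eq (q : ℤ) : ∀ (n : ℕ) (Y : A), aa τ q n Y = ∑ p ∈ Finset.range (n + 1),
    q ^ p • cyE τ n Y p
  | 0, Y => by
    rw [Finset.sum_range_one, pow_zero, one_smul]
    rfl
  | n + 1, Y => by
    rw [Finset.sum_range_succ']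
    have h1 : ∀ p, cyE τ (n + 1) Y (p + 1) = τ (pw F n Y) ≫ F.map (cyE τ n Y p) := by
      intro p
      have h2 := map_cy (mapE (n + 1) Y)
        (adE τ (n + 1) Y) (fun i => adE τ (n + 1 + 1) Y (i + 1)) p (fun i _ => rfl)
      have h3 := cy_succ' (adE τ (n + 1 + 1) Y) p
      rw [← h2] at h3
      exact h3
    simp only [h1]
    exact step_aa (F := F) (P := pw F n Y) q (Finset.range (n + 1)) (cyE τ n Y)
      (τ (pw F n Y)) (aa τ q n Y) (aa_eq q n Y)

/-- The weighted sum over the group is `ss`. -/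
theorem sum_rep (q : ℤ) (c : ∀ n, Perm (Fin n) →* ℤ) (hc : ∀ n i, i < n → c (n + 1) (sw n i) = q)
    (hc' : ∀ n σ, c (n + 1) (sh n σ) = c n σ) : ∀ (n : ℕ) (Y : A),
    ∑ σ : Perm (Fin n), c n σ • (rep τ hτ hinv hyb n Y σ : pw F n Y ⟶ pw F n Y) = ss τ q n Y
  | 0, Y => by
    rw [Fintype.sum_subsingleton _ (1 : Perm (Fin 0)), map_one, one_smul]
    rfl
  | n + 1, Y => by
    have ih := sum_rep q c hc hc' n Y
    rw [sum_perm_succ]
    have hcy : ∀ p, p ≤ n → c (n + 1) (cy (sw n) p) = q ^ p := by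
      intro p hp
      induction p with
      | zero => simp [cy]
      | succ p ihp => rw [cy, map_mul, hc n p (by omega), ihp (by omega), pow_succ']
    have h1 : ∀ p ∈ Finset.range (n + 1), ∑ σ : Perm (Fin n), c (n + 1) (cy (sw n) p * sh n σ) •
        (rep τ hτ hinv hyb (n + 1) Y (cy (sw n) p * sh n σ) :
          pw F (n + 1) Y ⟶ pw F (n + 1) Y) =
        F.map (ss τ q n Y) ≫ (q ^ p • cyE τ n Y p) := by
      intro p hp
      have hp' : p ≤ n := by rw [Finset.mem_range] at hp; omega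
      have h4 := step_sum (F := F) (P := pw F n Y) Finset.univ (q ^ p) (fun σ => c n σ)
        (fun σ => rep τ hτ hinv hyb n Y σ) (cyE τ n Y p)
      rw [ih] at h4
      refine Eq.trans (Finset.sum_congr rfl fun σ _ => ?_) h4
      have h2 : rep τ hτ hinv hyb (n + 1) Y (cy (sw n) p) =
          cy (adE τ (n + 1) Y) p :=
        map_cy _ _ _ p fun i hi => rep_sw τ hτ hinv hyb n Y i (by omega)
      have h3 : (rep τ hτ hinv hyb (n + 1) Y (cy (sw n) p * sh n σ) :
          pw F (n + 1) Y ⟶ pw F (n + 1) Y) = F.map (rep τ hτ hinv hyb n Y σ) ≫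
            cyE τ n Y p := by
        rw [map_mul, h2, rep_sh]
        rfl
      rw [h3, map_mul, hcy p hp', hc']
      rfl
    rw [Finset.sum_congr rfl h1]
    exact step_comp (F := F) (P := pw F n Y) (Finset.range (n + 1)) (ss τ q n Y)
      (fun p => q ^ p • cyE τ n Y p) (aa τ q n Y) (aa_eq τ q n Y)

theorem sum_rep_one (n : ℕ) (Y : A) :
    ∑ σ : Perm (Fin n), (rep τ hτ hinv hyb n Y σ : pw F n Y ⟶ pw F n Y) = ss τ 1 n Y := by
  have h := sum_rep τ hτ hinv hyb 1 (fun _ => 1) (fun _ _ _ => rfl) (fun _ _ => rfl) n Y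
  simpa using h

theorem sum_rep_sign (n : ℕ) (Y : A) :
    ∑ σ : Perm (Fin n), (Perm.sign σ : ℤ) • (rep τ hτ hinv hyb n Y σ : pw F n Y ⟶ pw F n Y) =
      ss τ (-1) n Y := by
  have h := sum_rep τ hτ hinv hyb (-1) (fun n => (Units.coeHom ℤ).comp Perm.sign)
    (fun n i hi => by
      rw [MonoidHom.comp_apply, sign_sw n i hi]; rfl)
    (fun n σ => by
      rw [MonoidHom.comp_apply, MonoidHom.comp_apply, sign_sh]) n Y
  exact h

/-- If the symmetrizer of `N` strands vanishes, all symmetrizers of `N` of the `L` strands vanish. -/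
theorem sum_P_rep {N : ℕ} {Y : A} (h : ss τ 1 N Y = 0) {L : ℕ} (T : Finset (Fin L))
    (hT : T.card = N) : ∑ σ ∈ P T, rep τ hτ hinv hyb L Y σ = 0 := by
  -- the last `N` letters
  have h0 : ∀ j : ℕ, ∃ T : Finset (Fin (N + j)), T.card = N ∧
      ∑ σ ∈ P T, rep τ hτ hinv hyb (N + j) Y σ = 0 := by
    intro j
    induction j with
    | zero =>
      refine ⟨Finset.univ, by simp, ?_⟩
      rw [P_univ]
      exact (sum_rep_one τ hτ hinv hyb N Y).trans h
    | succ j ih =>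
      obtain ⟨T, hT, h1⟩ := ih
      refine ⟨T.map (Fin.succEmb (N + j)), by rw [Finset.card_map, hT], ?_⟩
      have h2 := sum_P_map (Fin.succEmb (N + j)) (sh (N + j)) (fun σ x => rfl)
        (fun σ y hy => by
          have : y = 0 := by
            by_contra hne
            obtain ⟨x, hx⟩ := Fin.exists_succ_eq.2 hne
            exact hy ⟨x, hx⟩
          rw [this]; rfl) T (fun σ => rep τ hτ hinv hyb (N + j + 1) Y σ)
      refine h2.symm.trans ?_
      have h3 : ∑ σ ∈ P T, (F.map (rep τ hτ hinv hyb (N + j) Y σ) :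
          pw F (N + j + 1) Y ⟶ pw F (N + j + 1) Y) = 0 := by
        rw [← F.map_sum]
        exact (congrArg F.map h1).trans (F.map_zero _ _)
      refine Eq.trans ?_ h3
      exact Finset.sum_congr rfl fun σ _ => rep_sh τ hτ hinv hyb (N + j) Y σ
  have hL : N ≤ L := by
    rw [← hT]
    simpa using Finset.card_le_univ T
  obtain ⟨j, rfl⟩ := Nat.exists_eq_add_of_le hL
  obtain ⟨T₀, hT₀, h1⟩ := h0 j
  -- conjugate
  have hcard : Fintype.card {x // x ∈ T₀} = Fintype.card {x // x ∈ T} := by simp [hT, hT₀]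
  let e : {x // x ∈ T₀} ≃ {x // x ∈ T} := Fintype.equivOfCardEq hcard
  let x : Perm (Fin (N + j)) := e.extendSubtype
  have hx : T₀.map x.toEmbedding = T := by
    refine Finset.eq_of_subset_of_card_le ?_ (by rw [Finset.card_map, hT, hT₀])
    intro y hy
    obtain ⟨z, hz, rfl⟩ := Finset.mem_map.1 hy
    exact e.extendSubtype_mem z hz
  rw [← hx, ← sum_P_conj x T₀]
  simp only [map_mul]
  rw [← Finset.sum_mul, ← Finset.mul_sum, h1, mul_zero, zero_mul]

end Rep

end Pool.Agent.MCH
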