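import Pool.Agent.MCH.A4
import Pool.Agent.MCH.A8b

/-!
# Theorem A: a symmetric finite tensor category in characteristic zero without non-zero Leibniz
families of simple type is semisimple (assembly, helper64)
-/

open CategoryTheory MonoidalCategory Limits Abelian

universe w v u

set_option linter.unusedSectionVars false
set_option backward.isDefEq.respectTransparency.types false

namespace Pool.Agent.MCH

open Pool.Agent.MUG Pool.Agent.MUP

section ThmA

variable {k : Type*} [Field k] {C : Type u} [Category.{v} C] [Abelian C] [Linear k C]
  [MonoidalCategory C] [MonoidalPreadditive C] [MonoidalLinear k C] [RigidCategory C]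
  [BraidedCategory C]

/-- **Theorem A.** -/
theorem semisimple_of_no_leib [IsAlgClosed k] [CharZero k] (hC : IsFinite k C)
    (hsym : ∀ X Y : C, Comm X Y)
    (hL : ∀ V : C, Simple V → ∀ L : Leib V, ¬ L.Nonzero) {A B : C} (p : A ⟶ B) (hp : Epi p) :
    ∃ s, s ≫ p = 𝟙 B := by
  obtain ⟨e, he⟩ := exists_proj_simple (k := k) hC hsym hL
  exact split_of_proj (k := k) hsym hC he p hp

end ThmA

end Pool.Agent.MCH
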